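import Pool.Agent.SprM.All

/-!
# Murre's conjectures (A), (B), (C) for the motives `(X, f, r)` from (B) and nilpotence
-/

set_option autoImplicit false

open CategoryTheory MonoidalCategory
open Pool.Agent.LefCK Pool.Agent.LckM

universe w v u

namespace Pool.Agent.SprM

variable {C : Type u} [Category.{v} C] [Preadditive C] [Linear ℚ C]
  [MonoidalCategory C] {F : Type w} [Field F] {K : Correspondences C F}

/-- a decomposition with (B), such that the correspondences do not lower the weights, and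
nilpotence -/
structure GoodB {X : C} (e : CK K X) : Prop where
  B : ∀ l, e.MurreB l
  tri : ∀ f ∈ K.deg X X 0, ∀ i j : ℤ, i < j → e.p j ≫ f ≫ e.p i = 0
  nil : NilHom K X

variable {M : Mot K} {e : CK K M.X}

theorem GoodB.hom (e : CK K M.X) (π : M.CK) {w j : ℤ} (hj : j ≠ w - 2 * M.r) :
    K.H.map (e.p j ≫ π.p w ≫ e.p j) = 0 := by
  ext x
  change (K.H.map (e.p j ≫ π.p w ≫ e.p j)).hom x = 0
  induction x using K.gr_induction with
  | zero => rw [map_zero]
  | mem m x hx =>
    rw [K.map_comp_apply, K.map_comp_apply]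
    by_cases h : m = j
    · subst h
      rw [e.homology_self hx]
      have h1 := π.homology w (m + 2 * M.r) x (by rwa [add_sub_cancel_right])
      rw [if_neg (by omega)] at h1
      rw [h1, map_zero]
    · rw [e.homology_ne h hx, map_zero, map_zero]
  | add x y hx hy => rw [map_add, hx, hy, add_zero]

/-- a class which is reproduced by a homologically trivial correspondence is zero -/
theorem GoodB.absorb (hg : GoodB e) {ν : M.X ⟶ M.X} (hν : ν ∈ K.deg M.X M.X 0)
    (h0 : K.H.map ν = 0) {Y : C} {y : Y ⟶ M.X} (hy : y = y ≫ ν) : y = 0 := by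
  obtain ⟨N, hN⟩ := hg.nil ν hν h0
  have h1 : ∀ n : ℕ, y ≫ pow ν n = y := by
    intro n
    induction n with
    | zero => exact Category.comp_id y
    | succ n ih =>
      change y ≫ pow ν n ≫ ν = y
      rw [← Category.assoc, ih, ← hy]
  rw [← h1 N, hN, Limits.comp_zero]

/-- the same for the piece of weight `j` and a correspondence `g` -/
theorem GoodB.step (hg : GoodB e) {g : M.X ⟶ M.X} (hgm : g ∈ K.deg M.X M.X 0) {j : ℤ}
    (h0 : K.H.map (e.p j ≫ g ≫ e.p j) = 0) {Y : C} {y : Y ⟶ M.X} (hy : y ≫ g = y)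
    (h : ∀ i < j, y ≫ e.p i = 0) : y ≫ e.p j = 0 := by
  refine hg.absorb (ν := e.p j ≫ g ≫ e.p j) ?_ h0 ?_
  · exact K.comp_mem' (e.mem j) (K.comp_mem hgm (e.mem j)) (by ring)
  · have h2 : y ≫ (g ≫ e.p j) = y ≫ e.p j ≫ (g ≫ e.p j) := by
      refine e.comp_eq y _ j fun i hi => ?_
      rcases lt_or_gt_of_ne hi with hi | hi
      · rw [← Category.assoc, h i hi, Limits.zero_comp]
      · rw [hg.tri _ hgm j i hi, Limits.comp_zero]
    calc y ≫ e.p j = y ≫ (g ≫ e.p j) := by rw [← Category.assoc, hy]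
      _ = y ≫ e.p j ≫ (g ≫ e.p j) := h2
      _ = (y ≫ e.p j) ≫ e.p j ≫ g ≫ e.p j := by
        rw [Category.assoc, ← Category.assoc (e.p j) (e.p j), e.idem]

theorem GoodB.key (hg : GoodB e) (π : M.CK) {w c : ℤ} (hc : w - 2 * M.r < c)
    {y : 𝟙_ C ⟶ M.X} (hy : y ≫ π.p w = y) (h : ∀ j < c, y ≫ e.p j = 0) : y = 0 := by
  apply eq_zero_of_all e
  have h1 : ∀ n : ℕ, ∀ j < c + n, y ≫ e.p j = 0 := by
    intro n
    induction n with
    | zero => simpa using h
    | succ n ih =>
      intro j hj
      rcases lt_or_eq_of_le (show j ≤ c + n by push_cast at hj; omega) with hj | hj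
      · exact ih j hj
      · exact hg.step (π.mem w) (GoodB.hom e π (by omega)) hy fun i hi => ih i (by omega)
  intro j
  refine h1 (j - c + 1).toNat j ?_
  have := Int.self_le_toNat (j - c + 1)
  omega

theorem GoodB.allB (hg : GoodB e) (π : M.CK) : π.B := by
  intro l x hx w hw
  have h1 : x ≫ π.p w ∈ CH K M.X (l - M.r) := K.comp_mem' hx.1 (π.mem w) (add_zero _)
  have hc : w - 2 * M.r < 2 * (l - M.r) := by omega
  refine hg.key π hc (y := x ≫ π.p w) ?_ ?_
  · rw [Category.assoc, π.idem]
  · intro j hj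
    exact hg.B _ _ h1 j hj

theorem GoodB.fil_iff (hg : GoodB e) (π : M.CK) (ν l : ℤ) {x : 𝟙_ C ⟶ M.X}
    (hx : x ∈ M.CH l) :
    (∀ w < 2 * l + ν, x ≫ π.p w = 0) ↔ ∀ j < 2 * (l - M.r) + ν, x ≫ e.p j = 0 := by
  classical
  constructor
  · intro h
    have hadd := K.additive
    obtain ⟨s, hs, -⟩ := e.exists_finset
    obtain ⟨N, hN⟩ : ∃ N : ℤ, ∀ j < N, e.p j = 0 := by
      obtain ⟨M', hM'⟩ := s.bddBelow
      refine ⟨M', fun j hj => hs j fun hjs => ?_⟩
      have := hM' hjs
      omega
    obtain ⟨t, ht⟩ : ∃ t : Finset ℤ, ∑ i ∈ t, π.p i = M.f := by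
      refine ⟨π.finite.toFinset, ?_⟩
      rw [← π.sum]
      symm
      apply finsum_eq_sum_of_support_subset
      simp
    obtain ⟨g, hgd⟩ : ∃ g : M.X ⟶ M.X, g = ∑ w ∈ t with 2 * l + ν ≤ w, π.p w := ⟨_, rfl⟩
    have hgm : g ∈ K.deg M.X M.X 0 := by
      rw [hgd]
      exact Submodule.sum_mem _ fun i _ => π.mem i
    have hxg : x ≫ g = x := by
      rw [hgd, Preadditive.comp_sum, Finset.sum_filter_of_ne, ← Preadditive.comp_sum, ht]
      · exact hx.2
      · intro w _ hw
        by_contra hlt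
        exact hw (h w (by omega))
    have h1 : ∀ n : ℕ, ∀ j < N + n, j < 2 * (l - M.r) + ν → x ≫ e.p j = 0 := by
      intro n
      induction n with
      | zero =>
        intro j hj _
        rw [hN j (by simpa using hj), Limits.comp_zero]
      | succ n ih =>
        intro j hj hj'
        rcases lt_or_eq_of_le (show j ≤ N + n by push_cast at hj; omega) with hj | hj
        · exact ih j hj hj'
        · refine hg.step hgm ?_ hxg fun i hi => ih i (by omega) (by omega)
          rw [hgd, Preadditive.sum_comp, Preadditive.comp_sum, K.H.map_sum]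
          refine Finset.sum_eq_zero fun w hw => GoodB.hom e π ?_
          have := (Finset.mem_filter.1 hw).2
          omega
    intro j hj
    refine h1 (j - N + 1).toNat j ?_ hj
    have := Int.self_le_toNat (j - N + 1)
    omega
  · intro h w hw
    have hc : w - 2 * M.r < 2 * (l - M.r) + ν := by omega
    refine hg.key π hc (y := x ≫ π.p w) ?_ ?_
    · rw [Category.assoc, π.idem]
    · intro j hj
      rw [Category.assoc]
      refine e.comp_eq_zero _ _ fun i => ?_
      rcases lt_or_ge i (2 * (l - M.r) + ν) with hi | hi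
      · rw [← Category.assoc, h i hi, Limits.zero_comp]
      · rw [hg.tri _ (π.mem w) j i (by omega), Limits.comp_zero]

theorem GoodB.murreC (hg : GoodB e) : M.MurreC := by
  intro π π' ν l x
  constructor
  · rintro ⟨hx, h⟩
    exact ⟨hx, (hg.fil_iff π' ν l hx).2 ((hg.fil_iff π ν l hx).1 h)⟩
  · rintro ⟨hx, h⟩
    exact ⟨hx, (hg.fil_iff π ν l hx).2 ((hg.fil_iff π' ν l hx).1 h)⟩

theorem GoodB.murreABC (hg : GoodB e) : MurreABC M :=
  ⟨exists_motCK e hg.tri, hg.murreC, hg.allB⟩

/-- (B) from the vanishing of the weights `< 0` -/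
theorem murreB_of_weight (h : ∀ w : ℤ, w < 0 → WeightZero K w) {X : C} (e : CK K X) (l : ℤ) :
    e.MurreB l := by
  intro x hx i hi
  have h1 := h (i - 2 * l) (by omega) X e l (x ≫ e.p i) (comp_mem0 hx (e.mem i))
    (hom_comp e (by omega) hx)
  rw [add_sub_cancel, Category.assoc, e.idem] at h1
  exact h1

variable [MonoidalPreadditive C] {D : Divisors K}

/-- **(A)-(C) for all motives** from the Kuenneth conjecture, nilpotence and the vanishing of the
weights `< 0` -/
theorem murreABC_of_weight (T : Duality K D) (hK : ∀ X : C, Kuenneth K X)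
    (hN : ∀ X : C, NilHom K X) (h : ∀ w : ℤ, w < 0 → WeightZero K w) (M : Mot K) :
    MurreABC M := by
  obtain ⟨e⟩ := exists_ck_of_kuenneth (hK M.X) (hN M.X)
  obtain ⟨q, h1, -⟩ := T.exists_prod e e
  have hg : GoodB e := ⟨fun l => murreB_of_weight h e l,
    fun f hf i j hij => h1 (fun l => murreB_of_weight h q l) hf i j (by omega), hN M.X⟩
  exact hg.murreABC

end Pool.Agent.SprM
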