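import Pool.Agent.SprM.Main
import Pool.Agent.SprM.MotB

/-!
# Spreading out (A), (B), (C) and nilpotence
-/

set_option autoImplicit false

open CategoryTheory MonoidalCategory
open Pool.Agent.LefCK Pool.Agent.LckM

universe w v u

namespace Pool.Agent.SprM

section one

variable {C : Type u} [Category.{v} C] [Preadditive C] [Linear ℚ C]
  [MonoidalCategory C] {F : Type w} [Field F] {K : Correspondences C F}

theorem ck_of_murreABC {X : C} (h : MurreABC (mot K X)) : Nonempty (CK K X) := by
  obtain ⟨⟨π⟩, -, -⟩ := h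
  exact ⟨{
    p := π.p
    mem := π.mem
    idem := π.idem
    orth := π.orth
    finite := π.finite
    sum := π.sum
    homology := fun i j x hx => by
      have h1 := π.homology i j x (by
        change x ∈ K.gr X (j - 2 * 0)
        simpa using hx)
      refine h1.trans ?_
      split_ifs with h2
      · exact K.map_id_apply (X := X) x
      · rfl }⟩

theorem weight_of_murreABC (h : ∀ X : C, MurreABC (mot K X)) (w : ℤ) (hw : w < 0) :
    WeightZero K w := by
  intro X e l z hz hz0
  obtain ⟨-, -, hB⟩ := h X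
  obtain ⟨π, hπ⟩ : ∃ π : (mot K X).CK, ∀ i, π.p i = e.p i :=
    ⟨{ p := e.p, mem := e.mem, idem := e.idem, orth := e.orth, finite := e.finite,
       sum := e.sum,
       hom_act := fun i j x hx => by
        show (K.H.map (e.p i)).hom x = if j = i then (K.H.map (𝟙 X)).hom x else 0
        have h1 : x ∈ K.gr X (j - 2 * 0) := hx
        have h2 : j - 2 * 0 = j := by ring
        rw [h2] at h1
        rw [e.homology i j x h1, K.map_id_apply] }, fun i => rfl⟩
  have hz' : z ∈ (mot K X).CH l := ⟨by
    change z ∈ CH K X (l - 0)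
    simpa using hz, Category.comp_id z⟩
  have h1 := hB π l z hz' (2 * l + w) (by omega)
  rwa [hπ] at h1

end one

variable {F : Type w} [Field F] {G : Spreading.{w, v, u} F}

theorem part_of_weight {K : G.Fld} (hC : ∀ X : (G.th K).C, Kuenneth (G.th K).K X)
    (hN : ∀ X : (G.th K).C, NilHom (G.th K).K X)
    (h : ∀ w : ℤ, w < 0 → WeightZero (G.th K).K w) : G.PartOver K :=
  ⟨murreABC_of_weight (G.th K).T hC hN h, hN⟩

theorem Spreading.PartOver.kuenneth {K : G.Fld} (h : G.PartOver K) (X : (G.th K).C) :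
    Kuenneth (G.th K).K X := by
  obtain ⟨e⟩ := ck_of_murreABC (h.1 (mot _ X))
  exact kuenneth_of_ck e

theorem Spreading.PartOver.weight {K : G.Fld} (h : G.PartOver K) (w : ℤ) (hw : w < 0) :
    WeightZero (G.th K).K w :=
  weight_of_murreABC (fun X => h.1 (mot _ X)) w hw

/-- **(A), (B), (C) and nilpotence over `k₀` imply the same over all fields** -/
theorem part_of_base (hss : Semisimple (G.th G.k₀).K) (h : G.PartOver G.k₀) (K : G.Fld) :
    G.PartOver K :=
  part_of_weight (fun X => (kuenneth_nilHom hss h.kuenneth h.2 K X).1)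
    (fun X => (kuenneth_nilHom hss h.kuenneth h.2 K X).2)
    (fun w hw => weight_transfer_all hss h.kuenneth h.2 (le_of_lt hw)
      (fun w' hw' => h.weight w' (by omega)) K)

/-- **the length of the filtration** -/
theorem part_bounded_iff (hss : Semisimple (G.th G.k₀).K) {ν : ℕ} (hν : 0 < ν) :
    (G.PartOver G.k₀ ∧ ∀ X : (G.th G.k₀).C, FilZero (G.th G.k₀).K X ν) ↔
      G.Bounded G.PartOver ν := by
  constructor
  · rintro ⟨h, h2⟩
    refine ⟨part_of_base hss h, fun K d hd X => filZero_of_weight (by omega) (fun w hw => ?_) X⟩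
    exact weight_transfer hss h.kuenneth h.2 hd (by omega)
      fun w' h3 h4 => weight_of_filZero h2 w' (by omega)
  · intro h
    refine ⟨h.1 G.k₀, fun X => ?_⟩
    have h1 := h.2 G.k₀ 0 G.trDeg_base X
    simpa using h1

/-- the case where only the weight 0 occurs over `k₀` -/
theorem part_bounded_one (hss : Semisimple (G.th G.k₀).K)
    (hC : ∀ X : (G.th G.k₀).C, Kuenneth (G.th G.k₀).K X)
    (hW : (∀ X : (G.th G.k₀).C, NilHom (G.th G.k₀).K X) →
      ∀ w : ℤ, w ≠ 0 → WeightZero (G.th G.k₀).K w) :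
    (∀ X : (G.th G.k₀).C, NilHom (G.th G.k₀).K X) ↔
      G.Bounded G.PartOver 1 := by
  constructor
  · intro hN
    exact (part_bounded_iff hss one_pos).1 ⟨part_of_weight hC hN
      (fun w hw => hW hN w (by omega)), fun X => filZero_of_weight (by norm_num)
        (fun w hw => hW hN w (by push_cast at hw; omega)) X⟩
  · intro h
    exact (h.1 G.k₀).2

/-- **Rational and numerical equivalence over `k₀` and Murre's conjectures over all fields**, if only
the weight 0 occurs over `k₀` -/
theorem ratNum_tfae (hC : ∀ X : (G.th G.k₀).C, Kuenneth (G.th G.k₀).K X)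
    (hW : (∀ X : (G.th G.k₀).C, NilHom (G.th G.k₀).K X) →
      ∀ w : ℤ, w ≠ 0 → WeightZero (G.th G.k₀).K w) :
    List.TFAE [(G.int G.k₀).RatNum, (G.int G.k₀).HomNum ∧ G.MurreOver G.k₀,
      (G.int G.k₀).HomNum ∧ G.Bounded G.MurreAllOver 1] := by
  tfae_have 1 → 3 := fun h => ratNum_iff.1 ⟨hC, h⟩
  tfae_have 3 → 2 := fun h => ⟨h.1, fun M => murre_of_all (h.2.1 G.k₀ M)⟩
  tfae_have 2 → 1 := by
    rintro ⟨hD, hM⟩
    refine (ratNum_iff.2 ⟨hD, (bounded_iff (semisimple_of_homNum (G.int G.k₀) hD) one_pos).1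
      ⟨hM, fun X => filZero_of_weight (by norm_num) (fun w hw => ?_) X⟩⟩).2
    exact hW (nilHom_of_murre (G.th G.k₀).T hM) w (by push_cast at hw; omega)
  tfae_finish

end Pool.Agent.SprM
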