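import Pool.Agent.SprM.Core
import Pool.Agent.LckM.LiftK

/-!
# Murre's conjectures from the Kuenneth conjecture and local nilpotence
-/

set_option autoImplicit false

open CategoryTheory MonoidalCategory
open Pool.Agent.LefCK Pool.Agent.LckM

universe w v u

namespace Pool.Agent.SprM

variable {C : Type u} [Category.{v} C] [Preadditive C] [Linear ℚ C]
  [MonoidalCategory C] {F : Type w} [Field F] {K : Correspondences C F}

/-- the powers of an idempotent -/
theorem pow_idem {X : C} {p : X ⟶ X} (hp : p ≫ p = p) (N : ℕ) : pow p (N + 1) = p := by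
  induction N with
  | zero => exact Category.id_comp _
  | succ N ih =>
    change pow p (N + 1) ≫ p = _
    rw [ih, hp]

theorem comp_pow_idem {X Y : C} {p : X ⟶ X} (hp : p ≫ p = p) {y : Y ⟶ X} (hy : y ≫ p = y)
    (N : ℕ) : y ≫ pow p N = y := by
  cases N with
  | zero => exact Category.comp_id y
  | succ N => rw [pow_idem hp, hy]

/-- **lifting of the Kuenneth projectors** -/
theorem exists_ck_of_kuenneth {X : C} (hS : Kuenneth K X) (h : NilHom K X) :
    Nonempty (CK K X) := by
  classical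
  have := K.additive
  obtain ⟨⟨s, hs⟩, hk⟩ := kuenneth_iff.1 hS
  choose π hπ hπH using hk
  obtain ⟨ε, hε⟩ : ∃ ε : s → Module.End F (K.H.obj X),
      ∀ i, ε i = actZero K X ⟨π i, hπ i⟩ := ⟨_, fun i => rfl⟩
  have hεx : ∀ (i : s) (j : ℤ) (x : K.H.obj X), x ∈ K.gr X j →
      ε i x = if j = i then x else 0 := by
    intro i j x hx
    rw [hε]
    exact hπH i j x hx
  have hc : CompleteOrthogonalIdempotents ε := by
    refine ⟨⟨fun i => ?_, fun i j hij => ?_⟩, ?_⟩
    · ext x
      change ε i (ε i x) = ε i x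
      induction x using K.gr_induction with
      | zero => rw [map_zero, map_zero]
      | mem m x hx =>
        rw [hεx i m x hx]
        split_ifs with hm
        · rw [hεx i m x hx, if_pos hm]
        · rw [map_zero]
      | add x y hx hy => rw [map_add, map_add, hx, hy]
    · ext x
      change ε i (ε j x) = 0
      induction x using K.gr_induction with
      | zero => rw [map_zero, map_zero]
      | mem m x hx =>
        rw [hεx j m x hx]
        split_ifs with hm
        · rw [hεx i m x hx, if_neg]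
          intro hm'
          exact hij (Subtype.ext (hm'.symm.trans hm))
        · rw [map_zero]
      | add x y hx hy => rw [map_add, map_add, hx, hy, add_zero]
    · ext x
      rw [LinearMap.sum_apply]
      change ∑ i, ε i x = x
      induction x using K.gr_induction with
      | zero => exact Finset.sum_eq_zero fun i _ => map_zero _
      | mem m x hx =>
        by_cases hm : m ∈ s
        · rw [Finset.sum_eq_single_of_mem (⟨m, hm⟩ : s) (Finset.mem_univ _)]
          · rw [hεx _ m x hx, if_pos rfl]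
          · intro i _ hi
            rw [hεx _ m x hx, if_neg]
            intro h1
            exact hi (Subtype.ext h1.symm)
        · rw [hs m hm x hx]
          exact Finset.sum_eq_zero fun i _ => map_zero _
      | add x y hx hy =>
        have h1 : ∀ i : s, ε i (x + y) = ε i x + ε i y := fun i => map_add _ _ _
        rw [Finset.sum_congr rfl fun i _ => h1 i, Finset.sum_add_distrib, hx, hy]
  obtain ⟨e', he', hl⟩ := CompleteOrthogonalIdempotents.lift_of_isNilpotent_ker
    (f := actZero K X) (by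
      intro f hf
      have h1 : K.H.map (show X ⟶ X from (f : End X)) = 0 := by
        ext x
        have h2 := LinearMap.congr_fun (show actZero K X f = 0 from hf) x
        exact h2
      exact h.isNilpotent f.2 h1) hc (fun i => ⟨_, (hε i).symm⟩)
  obtain ⟨p, hp⟩ : ∃ p : ℤ → K.zeroRing X, ∀ i, p i = if hi : i ∈ s then e' ⟨i, hi⟩ else 0 :=
    ⟨_, fun i => rfl⟩
  have hp1 : ∀ i (hi : i ∈ s), p i = e' ⟨i, hi⟩ := fun i hi => by rw [hp, dif_pos hi]
  have hp0 : ∀ i, i ∉ s → p i = 0 := fun i hi => by rw [hp, dif_neg hi]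
  have hidem : ∀ i, p i * p i = p i := by
    intro i
    by_cases hi : i ∈ s
    · rw [hp1 i hi]
      exact he'.idem _
    · rw [hp0 i hi, mul_zero]
  have horth : ∀ i j, i ≠ j → p j * p i = 0 := by
    intro i j hij
    by_cases hi : i ∈ s
    · by_cases hj : j ∈ s
      · rw [hp1 i hi, hp1 j hj]
        exact he'.ortho (fun h1 => hij (congrArg Subtype.val h1).symm)
      · rw [hp0 j hj, zero_mul]
    · rw [hp0 i hi, mul_zero]
  have hsum : ∑ i ∈ s, p i = 1 := by
    rw [← he'.complete, ← Finset.sum_coe_sort s p]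
    refine Finset.sum_congr rfl fun i _ => ?_
    rw [hp1 i.1 i.2]
  have hcoe : ∀ t : Finset ℤ, ((∑ i ∈ t, p i : K.zeroRing X) : End X) =
      ∑ i ∈ t, (show X ⟶ X from (p i : End X)) := by
    intro t
    induction t using Finset.induction_on with
    | empty => rfl
    | insert a t ha ih =>
      rw [Finset.sum_insert ha, Finset.sum_insert ha, ← ih]
      rfl
  refine ⟨CK.ofFinset s (fun i => (show X ⟶ X from (p i : End X))) ?_ ?_ ?_ ?_ ?_ ?_⟩
  · intro i hi
    rw [hp0 i hi]
    rfl
  · intro i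
    exact (p i).2
  · intro i
    exact congrArg (fun t : K.zeroRing X => (t : End X)) (hidem i)
  · intro i j hij
    exact congrArg (fun t : K.zeroRing X => (t : End X)) (horth i j hij)
  · rw [← hcoe, hsum]
    rfl
  · intro i j x hx
    by_cases hi : i ∈ s
    · have h1 : actZero K X (p i) x = ε ⟨i, hi⟩ x := by
        rw [hp1 i hi]
        exact LinearMap.congr_fun (congrFun hl ⟨i, hi⟩) x
      change actZero K X (p i) x = _
      rw [h1, hεx _ j x hx]
    · have h1 : actZero K X (p i) x = 0 := by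
        rw [hp0 i hi, map_zero]
        rfl
      change actZero K X (p i) x = _
      rw [h1]
      split_ifs with h2
      · exact (hs i hi x (h2 ▸ hx)).symm
      · rfl

/-- a Chow-Kuenneth decomposition gives the Kuenneth projectors -/
theorem kuenneth_of_ck {X : C} (e : CK K X) : Kuenneth K X := by
  have := K.additive
  obtain ⟨s, hs, -⟩ := e.exists_finset
  refine kuenneth_iff.2 ⟨⟨s, fun j hj x hx => ?_⟩,
    fun i => ⟨e.p i, e.mem i, fun j x hx => e.homology i j x hx⟩⟩
  rw [← e.homology_self hx, hs j hj, K.map_zero_apply]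

theorem murre_of_all {M : Mot K} (h : M.MurreAll) : M.Murre := by
  obtain ⟨⟨e⟩, hC, hBD⟩ := h
  exact ⟨hC, e, hBD e⟩

theorem NilOn.mono {X : C} {l : ℤ} {A A' : Set ℤ} (hA : A ⊆ A') (h : NilOn K X l A') :
    NilOn K X l A :=
  fun θ hθ h0 z hz hz0 => h θ hθ (fun j hj => h0 j fun hj' => hj (hA hj')) z hz hz0

/-- the piece of one weight -/
theorem NilOn.comp_eq_zero {X : C} {l i : ℤ} (h : NilOn K X l {i}) (e : CK K X) {z : 𝟙_ C ⟶ X}
    (hz : z ∈ CH K X l) (hz0 : K.H.map z = 0) : z ≫ e.p i = 0 := by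
  have := K.additive
  obtain ⟨N, hN⟩ := h (e.p i) (e.mem i)
    (fun j hj y hy => e.homology_ne (fun h1 => hj h1) hy) (z ≫ e.p i) (comp_mem0 hz (e.mem i))
    (show K.H.map (z ≫ e.p i) = 0 by rw [K.H.map_comp, hz0, Limits.zero_comp])
  rwa [comp_pow_idem (e.idem i) (by rw [Category.assoc, e.idem])] at hN

/-- the component `z ≫ p i`, `i ≠ 2l`, is homologically trivial -/
theorem hom_comp {X : C} (e : CK K X) {l i : ℤ} (hi : i ≠ 2 * l) {z : 𝟙_ C ⟶ X}
    (hz : z ∈ CH K X l) : K.H.map (z ≫ e.p i) = 0 := by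
  ext v
  change (K.H.map (z ≫ e.p i)).hom v = 0
  rw [K.map_comp_apply]
  exact e.homology_ne (Ne.symm hi) (cyc_gr hz v)

/-- (B) and (D) from the vanishing of the weights `≤ 0` -/
theorem murre_of_weight (h : ∀ w : ℤ, w ≤ 0 → WeightZero K w) {X : C} (e : CK K X) (l : ℤ) :
    e.MurreB l ∧ e.MurreD l := by
  constructor
  · intro x hx i hi
    have h1 := h (i - 2 * l) (by omega) X e l (x ≫ e.p i) (comp_mem0 hx (e.mem i))
      (hom_comp e (by omega) hx)
    rw [add_sub_cancel, Category.assoc, e.idem] at h1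
    exact h1
  · intro x hx h0
    have h1 := h 0 le_rfl X e l x hx h0
    rwa [add_zero] at h1

/-- the weights `≤ 0` from (B) and (D) -/
theorem weight_of_murre (h : ∀ (X : C) (e : CK K X) (l : ℤ), e.MurreB l ∧ e.MurreD l) (w : ℤ)
    (hw : w ≤ 0) : WeightZero K w := by
  intro X e l z hz hz0
  rcases lt_or_eq_of_le hw with h1 | rfl
  · exact (h X e l).1 z hz _ (by omega)
  · rw [add_zero]
    exact (h X e l).2 z hz hz0

/-- `F^ν = 0` from the vanishing of the weights `≥ ν` -/
theorem filZero_of_weight {ν : ℤ} (hν : 0 < ν) (h : ∀ w : ℤ, ν ≤ w → WeightZero K w) (X : C) :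
    FilZero K X ν := by
  have := K.additive
  intro e l x hx hx0
  have h0 : K.H.map x = 0 := by
    ext v
    change (K.H.map x).hom v = 0
    rw [← e.homology_self (cyc_gr hx v), ← K.map_comp_apply, hx0 _ (by omega), K.map_zero_apply]
  apply eq_zero_of_all e
  intro i
  rcases lt_or_ge i (2 * l + ν) with hi | hi
  · exact hx0 i hi
  · have h1 := h (i - 2 * l) (by omega) X e l x hx h0
    rwa [add_sub_cancel] at h1

theorem weight_of_filZero {ν : ℤ} (h : ∀ X : C, FilZero K X ν) (w : ℤ) (hw : ν ≤ w) :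
    WeightZero K w := by
  intro X e l z hz hz0
  refine h X e l _ (comp_mem0 hz (e.mem _)) fun i hi => ?_
  rw [Category.assoc, e.orth _ _ (by omega), Limits.comp_zero]

/-- local nilpotence from Murre's conjectures -/
theorem locNil_of_weights {X : C} {e : CK K X} (W : Weights e)
    (hB : ∀ l, e.MurreB l) (hD : ∀ l, e.MurreD l) (m : ℤ) :
    NilOn K X m (Set.Iic (2 * m)) := by
  have := K.additive
  intro θ hθ h0 x hx hx0
  obtain ⟨s, hs, -⟩ := e.exists_finset
  obtain ⟨b, hb⟩ : ∃ b : ℤ, ∀ i > b, e.p i = 0 := by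
    obtain ⟨M, hM⟩ := s.bddAbove
    refine ⟨M, fun i hi => hs i fun his => ?_⟩
    have := hM his
    omega
  refine ⟨(b - 2 * m).toNat, ?_⟩
  have hz : ∀ j : ℤ, 2 * m < j → e.p j ≫ θ ≫ e.p j = 0 := by
    intro j hj
    refine W.diag hθ j j (by ring) ?_
    ext y
    change (K.H.map (e.p j ≫ θ ≫ e.p j)).hom y = 0
    have h1 : (K.H.map θ).hom ((K.H.map (e.p j)).hom y) = 0 :=
      h0 j (fun h => absurd (show j ≤ 2 * m from h) (by omega)) _ (e.map_p_mem j y)
    rw [K.map_comp_apply, K.map_comp_apply, h1, map_zero]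
  have key : ∀ N : ℕ, ∀ i : ℤ, i ≤ 2 * m + N → (x ≫ pow θ N) ≫ e.p i = 0 := by
    intro N
    induction N with
    | zero =>
      intro i hi
      rw [LefCK.pow, Category.comp_id]
      rcases lt_or_eq_of_le hi with h | h
      · exact hB m x hx i (by push_cast at h; omega)
      · have h1 := hD m x hx hx0
        have h2 : i = 2 * m := by push_cast at h; omega
        rwa [h2]
    | succ N ih =>
      intro i hi
      have h1 : (x ≫ pow θ N) ≫ (θ ≫ e.p i) = 0 := by
        refine e.comp_eq_zero _ _ fun k => ?_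
        rcases le_or_gt k (2 * m + N) with hk | hk
        · rw [← Category.assoc, ih k hk, Limits.zero_comp]
        · push_cast at hi
          rcases lt_or_eq_of_le (show i ≤ k by omega) with h | rfl
          · rw [W.tri hθ i k (by omega), Limits.comp_zero]
          · rw [hz i (by omega), Limits.comp_zero]
      rw [LefCK.pow]
      simpa only [Category.assoc] using h1
  apply eq_zero_of_all e
  intro i
  rcases le_or_gt i (2 * m + (b - 2 * m).toNat) with hi | hi
  · exact key _ i hi
  · rw [hb i (by have := Int.self_le_toNat (b - 2 * m); omega), Limits.comp_zero]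

/-- local nilpotence implies the vanishing of the weights `≤ 0` -/
theorem weight_of_locNil (h : ∀ (X : C) (l : ℤ), NilOn K X l (Set.Iic (2 * l))) (w : ℤ)
    (hw : w ≤ 0) : WeightZero K w := by
  intro X e l z hz hz0
  refine NilOn.comp_eq_zero ((h X l).mono ?_) e hz hz0
  intro i hi
  rw [Set.mem_singleton_iff] at hi
  rw [Set.mem_Iic]
  omega

variable [MonoidalPreadditive C] {D : Divisors K}

theorem id_tensor_pow {X : C} (θ : X ⟶ X) (n : ℕ) :
    pow (𝟙 X ⊗ₘ θ) n = (𝟙 X ⊗ₘ pow θ n) := by
  induction n with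
  | zero =>
    change 𝟙 (X ⊗ X) = (𝟙 X ⊗ₘ 𝟙 X)
    rw [id_tensorHom_id]
  | succ n ih =>
    change pow (𝟙 X ⊗ₘ θ) n ≫ (𝟙 X ⊗ₘ θ) = (𝟙 X ⊗ₘ pow θ n ≫ θ)
    rw [ih, tensorHom_comp_tensorHom, Category.id_comp]

/-- `1 ⊗ θ` is homologically trivial if `θ` is -/
theorem id_tensor_hom {X : C} {θ : X ⟶ X} (h0 : K.H.map θ = 0) (v : K.H.obj (X ⊗ X)) :
    (K.H.map (𝟙 X ⊗ₘ θ)).hom v = 0 := by
  obtain ⟨v, rfl⟩ := (K.kunneth X X).surjective v
  induction v using TensorProduct.induction_on with
  | zero => rw [map_zero, map_zero]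
  | tmul x y =>
    rw [K.kunneth_map, h0]
    change K.kunneth X X (_ ⊗ₜ[F] (0 : K.H.obj X)) = 0
    rw [TensorProduct.tmul_zero, map_zero]
  | add x y hx hy => rw [map_add, map_add, hx, hy, add_zero]

theorem id_tensor_mem {X : C} {θ : X ⟶ X} (hθ : θ ∈ K.deg X X 0) :
    (𝟙 X ⊗ₘ θ) ∈ K.deg (X ⊗ X) (X ⊗ X) 0 := by
  have := K.tensor_mem (K.id_mem X) hθ
  rwa [add_zero] at this

/-- `θ` is nilpotent if `1 ⊗ θ` kills its class -/
theorem pow_succ_of_graph (T : Duality K D) {X : C} {θ : X ⟶ X} {N : ℕ}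
    (hN : T.graph θ ≫ pow (𝟙 X ⊗ₘ θ) N = 0) : pow θ (N + 1) = 0 := by
  apply T.graph_inj
  have h2 := T.graph_comp (𝟙 X) θ (pow θ N)
  rw [T.t_id, Category.id_comp, ← id_tensor_pow, hN] at h2
  have h3 : pow θ (N + 1) = θ ≫ pow θ N := (pow_comm θ N).symm
  rw [h3, h2]

/-- nilpotence of the homologically trivial correspondences -/
theorem nilHom_of_nilOn (T : Duality K D) {X : C} (h : NilOn K (X ⊗ X) (D.dim X) ∅) :
    NilHom K X := by
  intro θ hθ h0
  have hg := T.graph_mem hθ
  rw [sub_zero] at hg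
  obtain ⟨N, hN⟩ := h (𝟙 X ⊗ₘ θ) (id_tensor_mem hθ) (fun i _ v _ => id_tensor_hom h0 v)
    (T.graph θ) hg (T.graph_hom θ h0)
  exact ⟨N + 1, pow_succ_of_graph T hN⟩

/-- the weights of the correspondences -/
theorem weights_of_weight (T : Duality K D) (h : ∀ w : ℤ, w ≤ 0 → WeightZero K w) {X : C}
    (e : CK K X) : Weights e := by
  obtain ⟨q, h1, h2⟩ := T.exists_prod e e
  exact ⟨h1 fun l => (murre_of_weight h q l).1, h2 fun l => (murre_of_weight h q l).2⟩

/-- **Murre's conjectures for all motives** from the Kuenneth conjecture, nilpotence and the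
vanishing of the weights `≤ 0` -/
theorem murreAll_of_weight (T : Duality K D) (hK : ∀ X : C, Kuenneth K X)
    (hN : ∀ X : C, NilHom K X) (h : ∀ w : ℤ, w ≤ 0 → WeightZero K w) (M : Mot K) :
    M.MurreAll := by
  obtain ⟨e⟩ := exists_ck_of_kuenneth (hK M.X) (hN M.X)
  have W := weights_of_weight T h e
  have hg : Good e := ⟨fun l => (murre_of_weight h e l).1, fun l => (murre_of_weight h e l).2,
    fun f hf i j hij => W.tri hf i j (by omega), fun f hf j h0 => W.diag hf j j (by ring) h0⟩
  exact hg.murreAll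

/-- **the converse** -/
theorem of_murre (T : Duality K D) (h : ∀ M : Mot K, M.Murre) (X : C) :
    (∃ e : CK K X, Weights e ∧ ∀ l, e.MurreB l ∧ e.MurreD l) ∧ Kuenneth K X ∧
      ∀ l : ℤ, NilOn K X l (Set.Iic (2 * l)) := by
  obtain ⟨e⟩ := ck_of_murre (h (mot K X))
  have hBD := all_of_murre (h (mot K X)) e
  have W : Weights e := T.weights_of_murre (h (mot K (X ⊗ X))) e
  exact ⟨⟨e, W, hBD⟩, kuenneth_of_ck e, locNil_of_weights W (fun l => (hBD l).1)
    fun l => (hBD l).2⟩

theorem weight_of_allMurre (h : ∀ M : Mot K, M.Murre) (w : ℤ) (hw : w ≤ 0) : WeightZero K w :=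
  weight_of_murre (fun X e l => all_of_murre (h (mot K X)) e l) w hw

theorem nilHom_of_murre (T : Duality K D) (h : ∀ M : Mot K, M.Murre) (X : C) : NilHom K X :=
  nilHom_of_nilOn T (((of_murre T h (X ⊗ X)).2.2 (D.dim X)).mono (Set.empty_subset _))

end Pool.Agent.SprM
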