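import Pool.Agent.SprM.Gen
import Pool.Agent.SprM.All

/-!
# Characteristic `p`

Over an algebraic closure of a finite field the Kuenneth projectors are algebraic (Katz, Messing),
and the motive of a variety with nilpotent homologically trivial correspondences satisfies
`CH_l(M_j) = 0` for `j ≠ 2l` (Soule). With the transfer from a model this gives results over the
function fields in characteristic `p` without any conjecture.
-/

set_option autoImplicit false

open CategoryTheory MonoidalCategory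
open Pool.Agent.LefCK Pool.Agent.LckM

universe w v u

namespace Pool.Agent.SprM

section one

variable {C : Type u} [Category.{v} C] [Preadditive C] [Linear ℚ C]
  [MonoidalCategory C] {F : Type w} [Field F] {K : Correspondences C F}

private theorem froEval {X : C} (P : Polynomial ℚ) (φ : X ⟶ X) :
    evalAt P φ = Polynomial.aeval (A := End X) φ P := by
  rw [Polynomial.aeval_def, Polynomial.eval₂_eq_sum, evalAt, Polynomial.sum_def,
    Polynomial.sum_def]
  refine Finset.sum_congr rfl fun i _ => ?_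
  rw [← Algebra.smul_def, ← pow_eq (X := X) φ i]

private theorem froMul {X : C} (P Q : Polynomial ℚ) (φ : X ⟶ X) :
    evalAt (P * Q) φ = evalAt Q φ ≫ evalAt P φ := by
  rw [froEval, froEval, froEval, map_mul]
  rfl

private theorem froAdd {X : C} (P Q : Polynomial ℚ) (φ : X ⟶ X) :
    evalAt (P + Q) φ = evalAt P φ + evalAt Q φ := by
  rw [froEval, froEval, froEval, map_add]

private theorem froOne {X : C} (φ : X ⟶ X) : evalAt 1 φ = 𝟙 X := by
  rw [froEval, map_one]
  rfl

private theorem froMem {X : C} {φ : X ⟶ X} (hφ : φ ∈ K.deg X X 0) (P : Polynomial ℚ) :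
    evalAt P φ ∈ K.deg X X 0 := by
  rw [evalAt, Polynomial.sum_def]
  exact Submodule.sum_mem _ fun i _ => Submodule.smul_mem _ _ (pow_mem0 hφ i)

private theorem froCompPow {X : C} {φ : X ⟶ X} {w : 𝟙_ C ⟶ X} {c : ℚ} (h : w ≫ φ = c • w)
    (n : ℕ) : w ≫ pow φ n = c ^ n • w := by
  induction n with
  | zero =>
    change w ≫ 𝟙 X = _
    rw [Category.comp_id, pow_zero, one_smul]
  | succ n ih =>
    change w ≫ pow φ n ≫ φ = _
    rw [← Category.assoc, ih, Linear.smul_comp, h, smul_smul, pow_succ]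

private theorem froCompSum {X : C} {φ : X ⟶ X} {w : 𝟙_ C ⟶ X} {c : ℚ} (h : w ≫ φ = c • w)
    (P : Polynomial ℚ) : w ≫ evalAt P φ = P.eval c • w := by
  rw [evalAt, Polynomial.sum_def, Preadditive.comp_sum, Polynomial.eval_eq_sum,
    Polynomial.sum_def, Finset.sum_smul]
  refine Finset.sum_congr rfl fun i _ => ?_
  rw [sm, Linear.comp_smul, froCompPow h, smul_smul]

/-- **The theorem of Katz and Messing**: the Kuenneth projectors are algebraic -/
theorem Frobenius.kuenneth (hF : Frobenius K) (X : C) : Kuenneth K X := by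
  classical
  have := K.additive
  obtain ⟨s, hs'⟩ := hF.bounded X
  have hs : ∀ j, j ∉ s → ∀ x ∈ K.gr X j, x = 0 := fun j hj => null_iff.1 (hs' j hj)
  refine kuenneth_iff.2 ⟨⟨s, hs⟩, fun i => ?_⟩
  obtain ⟨q, φ, hq, hφ, -, -, hP⟩ := hF.exists_frobenius X 0 (𝟙 X) 0 (K.id_mem X)
    (Submodule.zero_mem _)
  choose P hroot hact using hP
  have hq1 : (1 : ℝ) < q := by exact_mod_cast hq
  by_cases hi : i ∈ s
  · have hco : IsCoprime (P i) (∏ j ∈ s.erase i, P j) := by
      refine IsCoprime.prod_right fun j hj => ?_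
      refine (Polynomial.isCoprime_iff_aeval_ne_zero_of_isAlgClosed ℚ ℂ (P i) (P j)).2 fun c => ?_
      by_contra h
      rw [not_or, not_not, not_not] at h
      have h1 := (hroot i c h.1).symm.trans (hroot j c h.2)
      exact Finset.ne_of_mem_erase hj
        ((zpow_right_injective₀ (by linarith) hq1.ne').eq_iff.1 h1).symm
    obtain ⟨a, b, hab⟩ := hco
    refine ⟨evalAt (b * ∏ j ∈ s.erase i, P j) φ, froMem hφ _, fun j x hx => ?_⟩
    split_ifs with hj
    · subst hj
      have h1 : evalAt (a * P j) φ + evalAt (b * ∏ k ∈ s.erase j, P k) φ = 𝟙 X := by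
        rw [← froAdd, hab, froOne]
      have h2 : (K.H.map (evalAt (a * P j) φ)).hom x = 0 := by
        rw [froMul, K.map_comp_apply]
        have h3 : (K.H.map (evalAt (P j) φ)).hom x = 0 := hact j x hx
        rw [h3, map_zero]
      have h3 : (K.H.map (evalAt (a * P j) φ + evalAt (b * ∏ k ∈ s.erase j, P k) φ)).hom x = x := by
        rw [h1, K.map_id_apply]
      rw [K.map_add_apply, h2, zero_add] at h3
      exact h3
    · by_cases hjs : j ∈ s
      · obtain ⟨Q, hQ⟩ := Finset.dvd_prod_of_mem P (Finset.mem_erase.2 ⟨hj, hjs⟩)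
        have h1 : b * ∏ k ∈ s.erase i, P k = (b * Q) * P j := by rw [hQ]; ring
        rw [h1, froMul, K.map_comp_apply]
        have h3 : (K.H.map (evalAt (P j) φ)).hom x = 0 := hact j x hx
        rw [h3, map_zero]
      · rw [hs j hjs x hx, map_zero]
  · refine ⟨0, Submodule.zero_mem _, fun j x hx => ?_⟩
    rw [K.map_zero_apply]
    split_ifs with hj
    · exact (hs i hi x (hj ▸ hx)).symm
    · rfl

/-- the Chow-Kuenneth decompositions -/
theorem Frobenius.exists_ck (hF : Frobenius K) {X : C} (hN : NilHom K X) : Nonempty (CK K X) :=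
  exists_ck_of_kuenneth (hF.kuenneth X) hN

/-- **The theorem of Soule**: `CH_l(M_j) = 0` for `j ≠ 2l` -/
theorem Frobenius.weight (hF : Frobenius K) {X : C} (e : CK K X) (hN : NilHom K X) {l j : ℤ}
    (hj : j ≠ 2 * l) : ∀ z ∈ CH K X l, z ≫ e.p j = 0 := by
  have := K.additive
  intro z hz
  obtain ⟨q, φ, hq, hφ, hc, hzφ, hP⟩ := hF.exists_frobenius X l (e.p j) z (e.mem j) hz
  obtain ⟨P, hroot, hact⟩ := hP j
  have hw : (z ≫ e.p j) ≫ φ = (q : ℚ) ^ l • (z ≫ e.p j) := by
    rw [Category.assoc, hc, ← Category.assoc, hzφ, sm, Linear.smul_comp]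
  have hψm : evalAt P φ ∈ K.deg X X 0 := froMem hφ P
  have hθ : e.p j ≫ evalAt P φ ∈ K.deg X X 0 := K.comp_mem' (e.mem j) hψm (add_zero 0)
  have hθ0 : K.H.map (e.p j ≫ evalAt P φ) = 0 := by
    ext x
    change (K.H.map (e.p j ≫ evalAt P φ)).hom x = 0
    rw [K.map_comp_apply]
    exact hact _ (e.map_p_mem j x)
  obtain ⟨N, hN⟩ := hN _ hθ hθ0
  have h1 : (z ≫ e.p j) ≫ (e.p j ≫ evalAt P φ) = P.eval ((q : ℚ) ^ l) • (z ≫ e.p j) := by
    rw [← Category.assoc, Category.assoc z, e.idem]
    exact froCompSum hw P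
  have h2 := froCompPow h1 N
  rw [hN, Limits.comp_zero] at h2
  rcases smul_eq_zero.1 h2.symm with h3 | h3
  · exfalso
    have h4 : P.eval ((q : ℚ) ^ l) = 0 := by
      by_contra h5
      exact pow_ne_zero N h5 h3
    have h5 : Polynomial.aeval (((q : ℚ) ^ l : ℚ) : ℂ) P = 0 := by
      have h6 := Polynomial.aeval_algebraMap_apply ℂ ((q : ℚ) ^ l) P
      rw [Polynomial.coe_aeval_eq_eval, h4, map_zero] at h6
      exact h6
    have h6 := hroot _ h5
    have hq1 : (1 : ℝ) < q := by exact_mod_cast hq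
    have h7 : ‖(((q : ℚ) ^ l : ℚ) : ℂ)‖ ^ 2 = (q : ℝ) ^ (2 * l) := by
      have h8 : (((q : ℚ) ^ l : ℚ) : ℂ) = (((q : ℝ) ^ l : ℝ) : ℂ) := by push_cast; rfl
      rw [h8, Complex.norm_real, Real.norm_eq_abs, sq_abs, mul_comm, zpow_mul]
      rfl
    rw [h7] at h6
    exact hj ((zpow_right_injective₀ (by linarith) hq1.ne').eq_iff.1 h6).symm
  · exact h3

/-- all weights except 0 vanish -/
theorem Frobenius.weightZero (hF : Frobenius K) (hN : ∀ X : C, NilHom K X) {w : ℤ}
    (hw : w ≠ 0) : WeightZero K w :=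
  fun X e _ z hz _ => hF.weight e (hN X) (by omega) z hz

end one

variable {F : Type w} [Field F] {S S' : Theory.{w, v, u} F} {s : ℕ}

/-- **One variety in characteristic `p`, without any conjecture**: (B) and `F^(s+1) = 0` for every
Chow-Kuenneth decomposition of `X`, and (D) if the homologically trivial cycles on the model are
rationally trivial. -/
theorem Frobenius.generic (hF : Frobenius S.K) {X : S'.C} (M : Model S.K S'.K s X)
    (hN : NilHom S.K M.Y) (hβ : M.Split) (c : CK S'.K X) (l : ℤ) {z : 𝟙_ S'.C ⟶ X}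
    (hz : z ∈ CH S'.K X l) :
    (∀ i : ℤ, i < 2 * l ∨ 2 * l + s < i → z ≫ c.p i = 0) ∧
    ((∀ y ∈ CH S.K M.Y (l + s), S.K.H.map y = 0 → y = 0) → S'.K.H.map z = 0 →
      z ≫ c.p (2 * l) = 0) := by
  obtain ⟨e⟩ := hF.exists_ck hN
  exact M.pure e hN hβ (fun m j hj => hF.weight e hN hj) c l hz

end Pool.Agent.SprM
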