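import Pool.Agent.SprM.MotB
import Pool.Agent.SprM.Frob

/-!
# Murre's conjectures for one variety, from its models
-/

set_option autoImplicit false

open CategoryTheory MonoidalCategory
open Pool.Agent.LefCK Pool.Agent.LckM

universe w v u

namespace Pool.Agent.SprM

variable {F : Type w} [Field F] {S S' : Theory.{w, v, u} F} {s : ℕ}

theorem Model.FineD.fine {X : S'.C} {M : Model S.K S'.K s X} (h : M.FineD) : M.Fine := by
  obtain ⟨h1, h2, e, h3⟩ := h
  exact ⟨h1, h2, e, fun l => (h3 l).1⟩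

theorem Model.Fine.murreB {X : S'.C} {M : Model S.K S'.K s X} (h : M.Fine) (c : CK S'.K X) (l : ℤ) :
    c.MurreB l := by
  obtain ⟨hβ, hN, e, hB⟩ := h
  intro z hz i hi
  have h2 := M.ck e hN hβ (l := l) (i := i) (Or.inl (le_of_lt hi)) (fun j h3 h4 y hy _ =>
    hB (l + s) y hy j (by omega)) c (comp_mem0 hz (c.mem i)) (hom_comp c (by omega) hz)
  rwa [Category.assoc, c.idem] at h2

theorem Model.FineD.murreD {X : S'.C} {M : Model S.K S'.K s X} (h : M.FineD) (c : CK S'.K X) (l : ℤ) :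
    c.MurreD l := by
  obtain ⟨hβ, hN, e, hBD⟩ := h
  intro z hz hz0
  refine M.ck e hN hβ (l := l) (i := 2 * l) (Or.inl le_rfl) (fun j h3 h4 y hy hy0 => ?_) c hz hz0
  rcases lt_or_eq_of_le (show j ≤ 2 * (l + s) by omega) with h | rfl
  · exact (hBD (l + s)).1 y hy j h
  · exact (hBD (l + s)).2 y hy hy0

/-- **Murre's conjectures for the motives `(X, f, r)`** -/
theorem Model.murre {X : S'.C} (hK : Kuenneth S'.K X) (M : Model S.K S'.K s X)
    (M' : Model S.K S'.K s (X ⊗ X)) (h : M.Fine) (h' : M'.Fine) :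
    NilHom S'.K X ∧ ∀ N : Mot S'.K, N.X = X →
      MurreABC N ∧ (M.FineD → M'.FineD → N.MurreAll) := by
  have hN := M'.nilHom h'.2.1 h'.1
  refine ⟨hN, ?_⟩
  rintro N rfl
  obtain ⟨e⟩ := exists_ck_of_kuenneth hK hN
  obtain ⟨q, h1, h2⟩ := S'.T.exists_prod e e
  have hg : GoodB e := ⟨fun l => h.murreB e l,
    fun f hf i j hij => h1 (fun l => h'.murreB q l) hf i j (by omega), hN⟩
  refine ⟨hg.murreABC, fun hD hD' => ?_⟩
  have hg' : Good e := ⟨fun l => h.murreB e l, fun l => hD.murreD e l, hg.tri,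
    fun f hf j h0 => h2 (fun l => hD'.murreD q l) hf j j (by ring) h0⟩
  exact hg'.murreAll

theorem oneVariety (S S' : Theory.{w, v, u} F) : OneVariety S.K S'.K :=
  fun _ _ hK M M' h h' => M.murre hK M' h h'

/-- a piece of one weight of a motive -/
theorem NilOn.mot {K : Correspondences.{w, v, u} S.C F} {N : Mot K} {m j : ℤ}
    (h : NilOn K N.X m {j}) (e : N.CK) {i : ℤ} (hij : i = j + 2 * N.r) {y : 𝟙_ S.C ⟶ N.X}
    (hy : y ∈ CH K N.X m) (hy0 : K.H.map y = 0) : y ≫ e.p i = 0 := by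
  have := K.additive
  obtain ⟨n, hn⟩ := h (e.p i) (e.mem i) (fun k hk x hx => by
    have h1 := e.homology i (k + 2 * N.r) x (by rwa [add_sub_cancel_right])
    rwa [if_neg (fun h2 => hk (by
      rw [Set.mem_singleton_iff]
      omega))] at h1) (y ≫ e.p i) (comp_mem0 hy (e.mem i))
    (by
      show K.H.map (y ≫ e.p i) = 0
      rw [K.H.map_comp, hy0, Limits.zero_comp])
  rwa [comp_pow_idem (e.idem i) (by rw [Category.assoc, e.idem])] at hn

/-- the components of weight different from `2l` are homologically trivial -/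
theorem mot_hom_comp {K : Correspondences.{w, v, u} S.C F} {N : Mot K} (e : N.CK) {l i : ℤ}
    (hi : i ≠ 2 * l) {z : 𝟙_ S.C ⟶ N.X} (hz : z ∈ N.CH l) : K.H.map (z ≫ e.p i) = 0 := by
  ext v
  change (K.H.map (z ≫ e.p i)).hom v = 0
  rw [K.map_comp_apply]
  have h1 := e.homology i (2 * l) _ (by
    have h2 := cyc_gr hz.1 v
    have h3 : 2 * (l - N.r) = 2 * l - 2 * N.r := by ring
    rwa [h3] at h2)
  rwa [if_neg (Ne.symm hi)] at h1

theorem transfer_all (S S' : Theory.{w, v, u} F) : Transfer S.K S'.K := by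
  intro s X M hβ hN e l A hA hY
  have h := M.nilOn e hN hβ hA hY
  refine ⟨h, ?_⟩
  rintro N rfl c i hi y hy hy0
  exact (h.mono (Set.singleton_subset_iff.2 hi)).mot c rfl hy hy0

/-- **Characteristic `p`** -/
theorem oneFrobenius {S S' : Theory.{w, v, u} F} (hF : Frobenius S.K) :
    OneFrobenius S.K S'.K := by
  intro s X M hβ hN
  obtain ⟨e⟩ := hF.exists_ck hN
  have hB : ∀ l, e.MurreB l := fun l y hy j hj => hF.weight e hN (by omega) y hy
  have hfine : M.Fine := ⟨hβ, hN, e, hB⟩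
  have hnil : ∀ m j : ℤ, (j < 2 * m ∨ 2 * m + s < j) → NilOn S'.K X m {j} := by
    intro m j hj
    refine M.nilOn e hN hβ ?_ ?_
    · rintro i rfl
      omega
    · rintro i rfl k h1 h2 y hy -
      exact hF.weight e hN (by omega) y hy
  refine ⟨hfine, ?_, fun h => ?_⟩
  · rintro N rfl c
    have hz : ∀ (l i : ℤ), (i < 2 * l ∨ 2 * l + s < i) → ∀ x ∈ N.CH l, x ≫ c.p i = 0 := by
      intro l i hi x hx
      have h1 := (hnil (l - N.r) (i - 2 * N.r) (by omega)).mot c (i := i) (by ring)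
        (comp_mem0 hx.1 (c.mem i)) (mot_hom_comp c (by omega) hx)
      rwa [Category.assoc, c.idem] at h1
    refine ⟨fun l x hx i hi => hz l i (Or.inl hi) x hx, fun l x hx => ?_⟩
    have h1 : x ≫ 𝟙 N.X = 0 := c.comp_eq_zero hx.1.2 (𝟙 N.X) fun i => by
      rw [Category.comp_id]
      rcases lt_or_ge i (2 * l + (s + 1)) with hi | hi
      · exact hx.2 i hi
      · exact hz l i (by omega) x hx.1
    rwa [Category.comp_id] at h1
  · have hD : M.FineD := ⟨hβ, hN, e, fun l => ⟨hB l, fun y hy hy0 => by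
      rw [h l y hy hy0, Limits.zero_comp]⟩⟩
    refine ⟨hD, ?_⟩
    rintro N rfl c l x hx hx0
    have h1 : NilOn S'.K N.X (l - N.r) {2 * (l - N.r)} := by
      refine M.nilOn e hN hβ ?_ ?_
      · rintro i rfl
        exact Or.inl le_rfl
      · rintro i rfl k _ _ y hy hy0
        rw [h _ y hy hy0, Limits.zero_comp]
    exact h1.mot c (by ring) hx.1 hx0

end Pool.Agent.SprM
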