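import Pool.Agent.SprM.ZeroD
import Pool.Agent.SprM.MainB

/-!
# The Kuenneth conjecture over all fields of characteristic 0 implies the conjecture D over `k₀`
-/

set_option autoImplicit false

open CategoryTheory MonoidalCategory TensorProduct
open Pool.Agent.LefCK Pool.Agent.LckM
open Pool.Agent.Helper29.CPB (IsGrading IsCorr HardLefschetz Variety SelfProduct IsKunneth
  IsCorrProduct GenericSection SectionMaps WeakLefschetz Incidence IsTensor IsTensorMap parity)

universe w v u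

namespace Pool.Agent.SprM

section one

variable {C : Type u} [Category.{v} C] [Preadditive C] [Linear ℚ C]
  [MonoidalCategory C] {F : Type w} [Field F] {K : Correspondences C F} [CharZero F]

theorem mkVar_cplus {D : Divisors K} (Q : Classical K D) {X : C} {n : ℕ} (hn : D.dim X = n)
    {L : X ⟶ X} (hL : Deg K 1 L) (hh : Hard K n L) (hK : Kuenneth K X) :
    (mkVar Q X n hn L hL hh).CPlus := by
  have h : ∀ i : ℤ, IsAlg K X 0 (cpr K X n i) := by
    intro i
    obtain ⟨π, hπ, hP⟩ := (kuenneth_iff.1 hK).2 (2 * n - i)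
    refine ⟨π, hπ, ?_⟩
    apply op_ext
    intro j x hx
    rw [hP j x hx]
    by_cases hj : j = 2 * (n : ℤ) - i
    · rw [if_pos hj]
      exact (cpr_eq.2 (hj ▸ hx)).symm
    · rw [if_neg hj]
      exact (prj_ne hj hx).symm
  have hc := isCorr (n := n) (fun j hj => Q.range X j (by rwa [hn])) (Q.trace X)
  change IsAlg K X 0 (∑ i ∈ (Finset.Icc (0 : ℤ) (2 * n)).filter Even, cpr K X n i)
  exact Finset.sum_induction _ (IsAlg K X 0) (fun f g hf hg => hc.add 0 f g hf hg) (hc.zero 0)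
    fun i _ => h i

theorem lef_of_mkVar {D : Divisors K} (Q : Classical K D) {X : C} {n : ℕ} (hn : D.dim X = n)
    {L : X ⟶ X} (hL : Deg K 1 L) (hh : Hard K n L)
    (h : (mkVar Q X n hn L hL hh).Lefschetz) : Lef K n L := by
  intro s
  by_cases hs : s ≤ n
  · obtain ⟨_, ⟨Λ, hΛ, rfl⟩, h1⟩ := h (n - s) (Nat.sub_le n s)
    have e1 : ((n - s : ℕ) : ℤ) - n = -(s : ℤ) := by
      push_cast [hs]
      ring
    refine ⟨Λ, e1 ▸ hΛ, fun x hx => ?_⟩
    have h2 := h1 x (cpr_eq.2 (by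
      rwa [show 2 * (n : ℤ) - ((n - s : ℕ) : ℤ) = (n : ℤ) + s by push_cast [hs]; ring]))
    have h3 : n - (n - s) = s := by omega
    change (K.H.map Λ).hom (((K.H.map L).hom ^ (n - (n - s))) x) = x at h2
    rw [h3, act_pow] at h2
    exact ((K.map_comp_apply _ _ _).trans h2).trans (one_smul F x).symm
  · refine ⟨0, (K.deg X X _).zero_mem, fun x hx => ?_⟩
    have h1 : x = 0 := null_iff.1 (Q.range X _ (by rw [hn]; omega)) x hx
    rw [h1, smul_zero]
    exact map_zero _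

theorem lef_zero {D : Divisors K} (Q : Classical K D) {X : C} (hn : D.dim X = 0) (L : X ⟶ X) :
    Lef K 0 L := by
  intro s
  rcases Nat.eq_zero_or_pos s with rfl | hs
  · refine ⟨𝟙 X, K.id_mem X, fun x _ => ?_⟩
    have h : pow L 0 ≫ 𝟙 X = 𝟙 X := Category.comp_id _
    rw [h, one_smul]
    exact K.map_id_apply x
  · refine ⟨0, (K.deg X X _).zero_mem, fun x hx => ?_⟩
    have h1 : x = 0 := null_iff.1 (Q.range X _ (by rw [hn]; omega)) x hx
    rw [h1, smul_zero]
    exact map_zero _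

end one

variable {F : Type w} [Field F] {G : Spreading.{w, v, u} F}

/-- C over all fields implies B over all fields. -/
theorem lefAll_of_kuenneth (Q : G.Sections) (h : ∀ K : G.Fld, G.COver K) (k : G.Fld) :
    LefAll (Q.facts k) := by
  have := Q.charZero
  rintro X L ⟨hX, hL⟩
  obtain ⟨n, hn⟩ := Int.eq_ofNat_of_zero_le ((Q.facts k).dim_nonneg X hX)
  have hLd := (Q.facts k).ample_deg hL
  have hh := (Q.facts k).hard hL
  rw [hn] at hh ⊢
  rcases Nat.eq_zero_or_pos n with rfl | hpos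
  · exact lef_zero (Q.facts k) hn L
  obtain ⟨K, hKP⟩ := Q.generic k X L ⟨hX, hL⟩
  obtain ⟨P⟩ := hKP (by rw [hn]; exact_mod_cast hpos)
  obtain ⟨m, rfl⟩ : ∃ m : ℕ, n = m + 1 := ⟨n - 1, by omega⟩
  have hLZ := (Q.facts k).ample_sq hL
  have hdZ : (G.th k).D.dim (X ⊗ X) = ((2 * (m + 1) : ℕ) : ℤ) := by
    rw [(Q.facts k).dim_sq, hn]
    push_cast
    ring
  have hhZ := (Q.facts k).hard hLZ
  rw [hdZ] at hhZ
  have hS : (G.th K).D.dim P.S = ((2 * m + 1 : ℕ) : ℤ) := by
    rw [P.dim, hn]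
    push_cast
    ring
  obtain ⟨LS, hLS⟩ := (Q.facts K).exists_ample P.S
  have hhS := (Q.facts K).hard hLS
  rw [hS] at hhS
  have hself := selfProduct (Q.facts k) X (m + 1) (2 * (m + 1)) hn hdZ rfl L hLd hh
    ((Q.facts k).ample_deg hLZ) hhZ
  have hd : 2 * (G.th k).D.dim X - 1 = ((2 * m + 1 : ℕ) : ℤ) := by
    rw [hn]
    push_cast
    ring
  have hGS : GenericSection (mkVar (Q.facts k) (X ⊗ X) (2 * (m + 1)) hdZ
      (square L) ((Q.facts k).ample_deg hLZ) hhZ)
      (mkVar (Q.facts K) P.S (2 * m + 1) hS LS ((Q.facts K).ample_deg hLS) hhS) 1 :=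
    { dim := by
        change 2 * m + 1 + 1 = 2 * (m + 1)
        ring
      up := P.up
      dn := P.dn
      m := P.m
      m_pos := P.pos
      maps := P.sectionMaps (by ring)
      weak := P.weak (by ring) hd hhZ
      incidence := P.incidence }
  have hfin := (Pool.Agent.Helper94.CPB.final.2.1 _ _ _ _ hself
    (show 1 ≤ m + 1 by omega) hGS).mpr
    (mkVar_cplus (Q.facts K) hS ((Q.facts K).ample_deg hLS) hhS (h K P.S))
  exact lef_of_mkVar (Q.facts k) hn hLd hh hfin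

/-- C over all fields implies D over all fields, in characteristic 0. -/
theorem homNum_of_kuenneth {Q : G.Sections} (hQ : Kleiman Q)
    (h : ∀ K : G.Fld, G.COver K) : ∀ K : G.Fld, G.HomNum K :=
  hQ (lefAll_of_kuenneth Q h)

theorem Spreading.MurreOver.c {K : G.Fld} (h : G.MurreOver K) : G.COver K :=
  fun X => (of_murre (G.th K).T h X).2.1

/-- the three forms of Murre's conjectures over `k₀` and over all fields, with D -/
theorem base_tfae' (hD : G.HomNum G.k₀) :
    List.TFAE [G.MurreOver G.k₀, ∀ K : G.Fld, G.MurreAllOver K, G.LocNilOver G.k₀] := by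
  have h := base_tfae (semisimple_of_homNum (G.int G.k₀) hD)
  have e : G.LocNilOver G.k₀ ↔ ∀ X : (G.th G.k₀).C, Kuenneth (G.th G.k₀).K X ∧
      ∀ l : ℤ, NilOn (G.th G.k₀).K X l (Set.Iic (2 * l)) :=
    ⟨fun h X => ⟨h.1 X, h.2 X⟩, fun h => ⟨fun X => (h X).1, fun X => (h X).2⟩⟩
  rw [e]
  exact h

/-- **Murre's conjectures over all fields of characteristic 0** -/
theorem zero_tfae {Q : G.Sections} (hQ : Kleiman Q) : List.TFAE [
    ∀ K : G.Fld, G.MurreOver K,
    ∀ K : G.Fld, G.MurreAllOver K ∧ LefAll (Q.facts K) ∧ G.HomNum K,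
    (∀ K : G.Fld, G.COver K) ∧ G.MurreOver G.k₀,
    G.HomNum G.k₀ ∧ G.MurreOver G.k₀,
    G.HomNum G.k₀ ∧ G.LocNilOver G.k₀] := by
  tfae_have 1 → 3 := fun h => ⟨fun K => (h K).c, h G.k₀⟩
  tfae_have 3 → 4 := fun h => ⟨homNum_of_kuenneth hQ h.1 G.k₀, h.2⟩
  tfae_have 4 → 1 := fun h K M => murre_of_all
    (all_of_base (semisimple_of_homNum (G.int G.k₀) h.1) h.2 K M)
  tfae_have 2 → 1 := fun h K M => murre_of_all ((h K).1 M)
  tfae_have 1 → 2 := fun h K => by
    have hD := homNum_of_kuenneth hQ fun K => (h K).c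
    exact ⟨all_of_base (semisimple_of_homNum (G.int G.k₀) (hD G.k₀)) (h G.k₀) K,
      lefAll_of_kuenneth Q (fun K => (h K).c) K, hD K⟩
  tfae_have 4 ↔ 5 := and_congr_right fun h => (base_tfae' h).out 0 2
  tfae_finish

/-- **(A), (B), (C) and N over all fields of characteristic 0** -/
theorem zero_part {Q : G.Sections} (hQ : Kleiman Q) :
    (∀ K : G.Fld, G.PartOver K) ↔ G.HomNum G.k₀ ∧ G.PartOver G.k₀ :=
  ⟨fun h => ⟨homNum_of_kuenneth hQ (fun K X => (h K).kuenneth X) G.k₀, h G.k₀⟩,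
    fun h K => part_of_base (semisimple_of_homNum (G.int G.k₀) h.1) h.2 K⟩

theorem Spreading.Bounded.homNum {Q : G.Sections} (hQ : Kleiman Q) {ν : ℕ}
    (h : G.Bounded G.MurreAllOver ν) : G.HomNum G.k₀ :=
  homNum_of_kuenneth hQ
    (fun K => Spreading.MurreOver.c fun M => murre_of_all (h.1 K M)) G.k₀

theorem abelJacobi_iff' (hD : G.HomNum G.k₀) :
    G.AbelJacobiOver G.k₀ ↔ G.Bounded G.MurreAllOver 2 := by
  rw [← abelJacobi_iff (semisimple_of_homNum (G.int G.k₀) hD)]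
  exact ⟨fun h X => ⟨h.1 X, h.2 X⟩, fun h => ⟨fun X => (h X).1, fun X => (h X).2⟩⟩

/-- **injectivity of the Abel-Jacobi map, characteristic 0** -/
theorem zero_abelJacobi {Q : G.Sections} (hQ : Kleiman Q) :
    G.Bounded G.MurreAllOver 2 ↔ G.HomNum G.k₀ ∧ G.AbelJacobiOver G.k₀ :=
  ⟨fun h => ⟨h.homNum hQ, (abelJacobi_iff' (h.homNum hQ)).2 h⟩,
    fun h => (abelJacobi_iff' h.1).1 h.2⟩

end Pool.Agent.SprM
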