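import Pool.Agent.SprM.Core

/-!
# Spreading out: from the finitely generated fields to the arbitrary fields
-/

set_option autoImplicit false

open CategoryTheory MonoidalCategory
open Pool.Agent.LefCK Pool.Agent.LckM

universe w v u

namespace Pool.Agent.SprM

variable {F : Type w} [Field F]

section base

variable {S S' : Theory.{w, v, u} F} (B : BaseChange S.K S'.K)

/-- the isomorphism of the homology reflects the gradings -/
private theorem arb_gr {X : S.C} {j : ℤ} {x : S.K.H.obj X} (hx : B.H X x ∈ S'.K.gr (B.Φ.obj X) j) :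
    x ∈ S.K.gr X j := by
  have hind := (S'.K.isInternal (B.Φ.obj X)).submodule_iSupIndep j
  have hle : (⨆ i, S.K.gr X i) ≤ S.K.gr X j ⊔ ⨆ (i : ℤ) (_ : i ≠ j), S.K.gr X i := by
    refine iSup_le fun i => ?_
    by_cases h : i = j
    · rw [h]
      exact le_sup_left
    · exact le_sup_of_le_right (le_iSup₂ (f := fun (i : ℤ) (_ : i ≠ j) => S.K.gr X i) i h)
  have h1 : x ∈ S.K.gr X j ⊔ ⨆ (i : ℤ) (_ : i ≠ j), S.K.gr X i := by
    refine hle ?_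
    rw [(S.K.isInternal X).submodule_iSup_eq_top]
    trivial
  obtain ⟨a, ha, b, hb, rfl⟩ := Submodule.mem_sup.1 h1
  have h2 : (⨆ (i : ℤ) (_ : i ≠ j), S.K.gr X i) ≤
      (⨆ (i : ℤ) (_ : i ≠ j), S'.K.gr (B.Φ.obj X) i).comap (B.H X).toLinearMap := by
    refine iSup₂_le fun i hi y hy => ?_
    exact Submodule.mem_comap.2 ((le_iSup₂ (f := fun (i : ℤ) (_ : i ≠ j) => S'.K.gr (B.Φ.obj X) i) i hi)
      (B.H_gr X i y hy))
  have h3 : B.H X b ∈ ⨆ (i : ℤ) (_ : i ≠ j), S'.K.gr (B.Φ.obj X) i := h2 hb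
  have h4 : B.H X b ∈ S'.K.gr (B.Φ.obj X) j := by
    have h5 := Submodule.sub_mem _ hx (B.H_gr X j a ha)
    rwa [map_add, add_sub_cancel_left] at h5
  have h6 : B.H X b = 0 := Submodule.disjoint_def.1 hind _ h4 h3
  have h7 : b = 0 := (LinearEquiv.map_eq_zero_iff _).1 h6
  rw [h7, add_zero]
  exact ha

/-- an element of the homology over the extension comes from below -/
private theorem arb_lift {X : S.C} {j : ℤ} {y : S'.K.H.obj (B.Φ.obj X)} (hy : y ∈ S'.K.gr (B.Φ.obj X) j) :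
    ∃ x ∈ S.K.gr X j, B.H X x = y := by
  refine ⟨(B.H X).symm y, arb_gr B ?_, LinearEquiv.apply_symm_apply _ _⟩
  rw [LinearEquiv.apply_symm_apply]
  exact hy

end base

section two

variable {S S₁ S' : Theory.{w, v, u} F} (B : BaseChange S.K S'.K) (B₁ : BaseChange S₁.K S'.K)
  {X : S.C} {X₁ : S₁.C} (i : B.Φ.obj X ≅ B₁.Φ.obj X₁)

private theorem arb_inv_hom (y : S'.K.H.obj (B₁.Φ.obj X₁)) :
    (S'.K.H.map i.hom).hom ((S'.K.H.map i.inv).hom y) = y := by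
  rw [← S'.K.map_comp_apply, i.inv_hom_id, S'.K.map_id_apply]

private theorem arb_hom_inv (y : S'.K.H.obj (B.Φ.obj X)) :
    (S'.K.H.map i.inv).hom ((S'.K.H.map i.hom).hom y) = y := by
  rw [← S'.K.map_comp_apply, i.hom_inv_id, S'.K.map_id_apply]

private theorem arb_pow {θ : X ⟶ X} {θ₁ : X₁ ⟶ X₁} (e : B.Φ.map θ ≫ i.hom = i.hom ≫ B₁.Φ.map θ₁) (n : ℕ) :
    B.Φ.map (pow θ n) ≫ i.hom = i.hom ≫ B₁.Φ.map (pow θ₁ n) := by
  induction n with
  | zero =>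
    change B.Φ.map (𝟙 X) ≫ i.hom = i.hom ≫ B₁.Φ.map (𝟙 X₁)
    rw [CategoryTheory.Functor.map_id, CategoryTheory.Functor.map_id, Category.id_comp, Category.comp_id]
  | succ n ih =>
    change B.Φ.map (pow θ n ≫ θ) ≫ i.hom = i.hom ≫ B₁.Φ.map (pow θ₁ n ≫ θ₁)
    rw [Functor.map_comp, Functor.map_comp, Category.assoc, e, ← Category.assoc, ih, Category.assoc]

/-- `θ₁` acts as zero where `θ` acts as zero -/
private theorem arb_act {θ : X ⟶ X} {θ₁ : X₁ ⟶ X₁} (hi' : i.inv ∈ S'.K.deg _ _ 0)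
    (e : B.Φ.map θ ≫ i.hom = i.hom ≫ B₁.Φ.map θ₁) {j : ℤ}
    (h0 : ∀ h ∈ S.K.gr X j, (S.K.H.map θ).hom h = 0) :
    ∀ h ∈ S₁.K.gr X₁ j, (S₁.K.H.map θ₁).hom h = 0 := by
  intro h hh
  obtain ⟨x, hx, hxe⟩ := arb_lift B (gr_map0 hi' (B₁.H_gr X₁ j h hh))
  have h1 : (S'.K.H.map (B.Φ.map θ)).hom ((S'.K.H.map i.inv).hom (B₁.H X₁ h)) = 0 := by
    rw [← hxe, B.H_map, h0 x hx, map_zero]
  have h2 : (S'.K.H.map (B₁.Φ.map θ₁)).hom (B₁.H X₁ h) = 0 := by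
    have h3 := arb_inv_hom B B₁ i (B₁.H X₁ h)
    rw [← h3, ← S'.K.map_comp_apply, ← e, S'.K.map_comp_apply, h1, map_zero]
  rw [B₁.H_map] at h2
  exact (LinearEquiv.map_eq_zero_iff _).1 h2

/-- `z₁` is homologically trivial -/
private theorem arb_hom {z : 𝟙_ S.C ⟶ X} {z₁ : 𝟙_ S₁.C ⟶ X₁} (e : B.cyc z ≫ i.hom = B₁.cyc z₁)
    (hz : S.K.H.map z = 0) : S₁.K.H.map z₁ = 0 := by
  have h1 : B₁.Φ.map z₁ = B₁.unit.inv ≫ B.unit.hom ≫ B.Φ.map z ≫ i.hom := by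
    have h2 : B₁.unit.inv ≫ B₁.cyc z₁ = B₁.Φ.map z₁ := by
      unfold BaseChange.cyc
      rw [Iso.inv_hom_id_assoc]
    rw [← h2, ← e]
    unfold BaseChange.cyc
    simp only [Category.assoc]
  have h3 : ∀ y : S'.K.H.obj (B.Φ.obj (𝟙_ S.C)), (S'.K.H.map (B.Φ.map z)).hom y = 0 := by
    intro y
    have h4 : y = B.H _ ((B.H _).symm y) := (LinearEquiv.apply_symm_apply _ _).symm
    rw [h4, B.H_map, hz]
    exact map_zero _
  ext v
  have h5 : B₁.H X₁ ((S₁.K.H.map z₁).hom v) = 0 := by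
    rw [← B₁.H_map, h1, S'.K.map_comp_apply, S'.K.map_comp_apply, S'.K.map_comp_apply, h3, map_zero]
  exact (LinearEquiv.map_eq_zero_iff _).1 h5

private theorem arb_cyc {z : 𝟙_ S.C ⟶ X} {z₁ : 𝟙_ S₁.C ⟶ X₁} (e : B.cyc z ≫ i.hom = B₁.cyc z₁)
    {θ : X ⟶ X} {θ₁ : X₁ ⟶ X₁} (e' : B.Φ.map θ ≫ i.hom = i.hom ≫ B₁.Φ.map θ₁) {n : ℕ}
    (h : z₁ ≫ pow θ₁ n = 0) : z ≫ pow θ n = 0 := by
  have := B₁.additive
  refine B.faithful _ ?_
  have h1 : B.unit.hom ≫ B.Φ.map (z ≫ pow θ n) ≫ i.hom = 0 := by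
    rw [Functor.map_comp, Category.assoc, arb_pow B B₁ i e' n, ← Category.assoc (B.Φ.map z),
      ← Category.assoc B.unit.hom]
    have h2 : B.unit.hom ≫ B.Φ.map z ≫ i.hom = B₁.unit.hom ≫ B₁.Φ.map z₁ := by
      have h3 := e
      unfold BaseChange.cyc at h3
      rwa [Category.assoc] at h3
    rw [h2, Category.assoc, ← Functor.map_comp, h, Functor.map_zero, Limits.comp_zero]
  have h4 : B.Φ.map (z ≫ pow θ n) = B.unit.inv ≫ (B.unit.hom ≫ B.Φ.map (z ≫ pow θ n) ≫ i.hom) ≫ i.inv := by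
    rw [Category.assoc, Category.assoc, i.hom_inv_id, Category.comp_id, Iso.inv_hom_id_assoc]
  rw [h4, h1, Limits.zero_comp, Limits.comp_zero]

end two

/-- **local nilpotence over an arbitrary field** from the finitely generated fields of not larger
transcendence degree -/
theorem nilOn_of_fg (G : Spreading.{w, v, u} F) (K : G.Fld) (l : ℤ) (A : Set ℤ)
    (h : ∀ (K₁ : G.Fld) (s : ℕ), G.FG K₁ s → (∀ d : ℕ, G.TrDeg K d → s ≤ d) →
      ∀ X : (G.th K₁).C, NilOn (G.th K₁).K X l A) (X : (G.th K).C) :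
    NilOn (G.th K).K X l A := by
  intro θ hθ h0 z hz hz0
  obtain ⟨K', B, hB⟩ := G.arbitrary K
  obtain ⟨K₁, s, B₁, X₁, i, hFG, hs, hi, hi', θ₁, hθ₁, z₁, hz₁, e1, e2⟩ := hB X l θ hθ z hz
  obtain ⟨N, hN⟩ := h K₁ s hFG hs X₁ θ₁ hθ₁
    (fun j hj => arb_act B.toBaseChange B₁ i hi' e1 (h0 j hj)) z₁ hz₁ (arb_hom B.toBaseChange B₁ i e2 hz0)
  exact ⟨N, arb_cyc B.toBaseChange B₁ i e2 e1 hN⟩

/-- nilpotence over an arbitrary field from the finitely generated fields -/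
theorem nilHom_of_fg (G : Spreading.{w, v, u} F)
    (h : ∀ (K : G.Fld) (s : ℕ), G.FG K s → ∀ X : (G.th K).C, NilHom (G.th K).K X) (K : G.Fld)
    (X : (G.th K).C) : NilHom (G.th K).K X := by
  intro θ hθ h0
  obtain ⟨K', B, hB⟩ := G.arbitrary K
  obtain ⟨K₁, s, B₁, X₁, i, hFG, -, hi, hi', θ₁, hθ₁, -, -, e1, -⟩ := hB X 0 θ hθ 0
    (Submodule.zero_mem _)
  have := B₁.additive
  obtain ⟨N, hN⟩ := h K₁ s hFG X₁ θ₁ hθ₁ (by
    ext v
    change ((G.th K₁).K.H.map θ₁).hom v = 0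
    induction v using (G.th K₁).K.gr_induction with
    | zero => rw [map_zero]
    | mem m v hv =>
      exact arb_act B.toBaseChange B₁ i hi' e1 (j := m) (fun x _ => by rw [h0]; rfl) v hv
    | add x y hx hy => rw [map_add, hx, hy, add_zero])
  refine ⟨N, B.faithful _ ?_⟩
  have h1 := arb_pow B.toBaseChange B₁ i e1 N
  rw [hN, Functor.map_zero, Limits.comp_zero] at h1
  have h2 : B.Φ.map (pow θ N) = (B.Φ.map (pow θ N) ≫ i.hom) ≫ i.inv := by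
    rw [Category.assoc, i.hom_inv_id, Category.comp_id]
  rw [h2, h1, Limits.zero_comp]

theorem kuenneth_of_fg (G : Spreading.{w, v, u} F)
    (h : ∀ (K : G.Fld) (s : ℕ), G.FG K s → ∀ X : (G.th K).C, Kuenneth (G.th K).K X) (K : G.Fld)
    (X : (G.th K).C) : Kuenneth (G.th K).K X := by
  obtain ⟨K', B, hB⟩ := G.arbitrary K
  obtain ⟨K₁, s, B₁, X₁, i, hFG, -, hi, hi', -⟩ := hB X 0 (𝟙 X) ((G.th K).K.id_mem X) 0
    (Submodule.zero_mem _)
  obtain ⟨⟨t, ht⟩, hπ⟩ := kuenneth_iff.1 (h K₁ s hFG X₁)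
  refine kuenneth_iff.2 ⟨⟨t, fun j hj x hx => ?_⟩, fun k => ?_⟩
  · obtain ⟨x₁, hx₁, he⟩ := arb_lift B₁ (gr_map0 hi (B.H_gr X j x hx))
    rw [ht j hj x₁ hx₁, map_zero] at he
    have h1 := arb_hom_inv B.toBaseChange B₁ i (B.H X x)
    rw [← he, map_zero] at h1
    exact (LinearEquiv.map_eq_zero_iff _).1 h1.symm
  · obtain ⟨π₁, hπ₁, hact⟩ := hπ k
    obtain ⟨π', hπ', hact'⟩ := B.descent X (i.hom ≫ B₁.Φ.map π₁ ≫ i.inv)
      ((G.th K').K.comp_mem' hi ((G.th K').K.comp_mem' (B₁.mem hπ₁) hi' (add_zero 0)) (add_zero 0))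
      (fun j => if j = k then 1 else 0) (fun j y hy => by
        obtain ⟨x₁, hx₁, he⟩ := arb_lift B₁ (gr_map0 hi hy)
        rw [(G.th K').K.map_comp_apply, (G.th K').K.map_comp_apply, ← he, B₁.H_map, hact j x₁ hx₁]
        split_ifs with hjk
        · rw [he, arb_hom_inv B.toBaseChange B₁ i, one_smul]
        · rw [map_zero, map_zero, zero_smul])
    refine ⟨π', hπ', fun j x hx => ?_⟩
    rw [hact' j x hx]
    split_ifs
    · rw [one_smul]
    · rw [zero_smul]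

end Pool.Agent.SprM
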