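import Pool.Agent.SprM.Defs
import Pool.Agent.LckM.Compat

/-!
# The fields of the structures in `Defs.lean` in unfolded form
-/

set_option autoImplicit false

open CategoryTheory MonoidalCategory
open Pool.Agent.LefCK Pool.Agent.LckM

universe w v u

namespace Pool.Agent.SprM

section one

variable {C : Type u} [Category.{v} C] [Preadditive C] [Linear ℚ C]
  [MonoidalCategory C] {F : Type w} [Field F]

theorem null_iff {K : Correspondences C F} {X : C} {j : ℤ} :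
    Null K X j ↔ ∀ x ∈ K.gr X j, x = 0 :=
  ⟨fun h x hx => h (show x ∈ homol K X j from hx) (show (0 : K.H.obj X) ∈ homol K X j from
    (K.gr X j).zero_mem), fun h x hx y hy => (h x hx).trans (h y hy).symm⟩

theorem proj_iff {K : Correspondences C F} {X : C} {i : ℤ} {π : X ⟶ X} :
    Proj K i π ↔ ∀ j : ℤ, ∀ x ∈ K.gr X j, (K.H.map π).hom x = if j = i then x else 0 := by
  have e : ∀ (j : ℤ) (x : K.H.obj X),
      (if j = i then (1 : F) else 0) • x = if j = i then x else 0 := by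
    intro j x
    split_ifs
    · rw [one_smul]
    · rw [zero_smul]
  exact ⟨fun h j x hx => (h j x hx).trans (e j x), fun h j x hx => (h j x hx).trans (e j x).symm⟩

theorem kuenneth_iff {K : Correspondences C F} {X : C} : Kuenneth K X ↔
    (∃ s : Finset ℤ, ∀ j, j ∉ s → ∀ x ∈ K.gr X j, x = 0) ∧
      ∀ i : ℤ, ∃ π : X ⟶ X, π ∈ K.deg X X 0 ∧ ∀ j : ℤ, ∀ x ∈ K.gr X j,
        (K.H.map π).hom x = if j = i then x else 0 :=
  and_congr (exists_congr fun _ => forall_congr' fun _ => imp_congr_right fun _ => null_iff)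
    (forall_congr' fun _ => exists_congr fun _ => and_congr_right fun _ => proj_iff)

/-- The homological motives are semisimple: every homogeneous correspondence `f` has a
quasi-inverse `g`, that is `f g f = f` up to homological equivalence. -/
def Semisimple (K : Correspondences C F) : Prop :=
  ∀ (X Y : C) (d : ℤ), ∀ f ∈ K.deg X Y d, ∃ g ∈ K.deg Y X (-d),
    K.H.map (f ≫ g ≫ f) = K.H.map f

/-- The motive `h(X)`. -/
def mot (K : Correspondences C F) (X : C) : Mot K :=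
  ⟨X, 𝟙 X, 0, K.id_mem X, Category.id_comp _⟩

namespace Intersection

variable {K : Correspondences C F} (I : Intersection K)

/-- the intersection number with the diagonal as a linear map -/
def tr {X : C} : (X ⟶ X) →ₗ[ℚ] ℚ := (AddMonoidHom.mk' I.num I.num_add).toRatLinearMap

theorem comm {X Y : C} (f : X ⟶ Y) (g : Y ⟶ X) : I.tr (f ≫ g) = I.tr (g ≫ f) := I.num_comm f g

theorem nilpotent {X : C} : ∀ f ∈ K.deg X X 0, (∃ n : ℕ, K.H.map (pow f n) = 0) → I.tr f = 0 :=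
  I.num_nil

theorem finite (X Y : C) (d : ℤ) : ∃ (n : ℕ) (g : Fin n → (Y ⟶ X)),
    (∀ i, g i ∈ K.deg Y X (-d)) ∧
    ∀ f ∈ K.deg X Y d, (∀ i, I.tr (f ≫ g i) = 0) → ∀ h ∈ K.deg Y X (-d), I.tr (f ≫ h) = 0 :=
  I.num_fin X Y d

end Intersection

end one

section two

variable {C : Type u} [Category.{v} C] [Preadditive C] [Linear ℚ C] [MonoidalCategory C]
  {C' : Type u} [Category.{v} C'] [Preadditive C'] [Linear ℚ C'] [MonoidalCategory C']
  {F : Type w} [Field F] {K : Correspondences C F} {K' : Correspondences C' F} {s : ℕ}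

namespace Model

variable {X : C'} (M : Model K K' s X)

/-- the restriction to the generic fibre as a linear map -/
def res : (𝟙_ C ⟶ M.Y) →ₗ[ℚ] (𝟙_ C' ⟶ X) := (AddMonoidHom.mk' M.rs M.rs_add).toRatLinearMap

/-- the Leray filtration -/
def leray (a j : ℤ) : Set (K.H.obj M.Y) := {v | M.ler a j v}

theorem res_mem (l : ℤ) : ∀ Z ∈ CH K M.Y (l + s), M.res Z ∈ CH K' X l := M.rs_mem l

theorem res_surj (l : ℤ) : ∀ z ∈ CH K' X l, ∃ Z ∈ CH K M.Y (l + s), M.res Z = z := M.rs_surj l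

theorem leray_top (j : ℤ) {v : K.H.obj M.Y} (hv : v ∈ K.gr M.Y j) : v ∈ M.leray (2 * s) j :=
  M.ler_top j v hv

theorem hom (l : ℤ) : ∀ Z ∈ CH K M.Y (l + s), K'.H.map (M.res Z) = 0 → ∀ v : K.H.obj (𝟙_ C),
    (K.H.map Z).hom v ∈ M.leray (2 * s - 1) (2 * (l + s)) := M.ler_hom l

theorem lift : ∀ θ ∈ K'.deg X X 0, ∃ Θ ∈ K.deg M.Y M.Y 0,
    (∀ Z : 𝟙_ C ⟶ M.Y, M.res (Z ≫ Θ) = M.res Z ≫ θ) ∧
    ∀ a j : ℤ, (∀ h ∈ K'.gr X (j - a), (K'.H.map θ).hom h = 0) →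
      ∀ v ∈ M.leray a j, (K.H.map Θ).hom v ∈ M.leray (a - 1) j := M.ext

theorem res_β : ∀ W : 𝟙_ C ⟶ M.D, M.res (W ≫ M.β) = 0 := M.rs_β

theorem boundary (j : ℤ) : ∀ v ∈ M.leray (s - 1) j, ∃ w : K.H.obj M.D,
    (K.H.map M.β).hom w = v := M.ler_bd j

end Model

namespace Fibre

variable {D : Divisors K} {D' : Divisors K'} {T : Duality K D} {T' : Duality K' D'} {X : C'}
  (B : Fibre T T' s X)

theorem invariant : ∀ κ ∈ K.deg B.X₀ B.X₀ 0, ∀ c : ℤ → F,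
    (∀ j : ℤ, ∀ x ∈ K.gr B.X₀ j, (K.H.map κ).hom x = c j • x) →
    ∀ v : K.H.obj (𝟙_ C), ∃ w : K.H.obj B.M.Y,
      (K.H.map B.fib).hom w = (K.H.map (T.graph κ)).hom v := B.fixed

theorem cor : ∀ Z ∈ CH K B.M.Y (D.dim B.X₀ + s), ∀ κ ∈ K.deg B.X₀ B.X₀ 0,
    K.H.map (Z ≫ B.fib) = K.H.map (T.graph κ) →
    ∃ π ∈ K'.deg X X 0, T'.graph π = B.M.res Z ∧
      ∀ x : K'.H.obj X, B.sp ((K'.H.map π).hom x) = (K.H.map κ).hom (B.sp x) := B.spec

end Fibre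

theorem Closure.descent (B : Closure K K') : ∀ (X : C), ∀ π ∈ K'.deg (B.Φ.obj X) (B.Φ.obj X) 0,
    ∀ c : ℤ → F, (∀ j : ℤ, ∀ x ∈ K'.gr (B.Φ.obj X) j, (K'.H.map π).hom x = c j • x) →
    ∃ π' ∈ K.deg X X 0, ∀ j : ℤ, ∀ x ∈ K.gr X j, (K.H.map π').hom x = c j • x := B.galois

end two

theorem Spreading.arbitrary {F : Type w} [Field F] (G : Spreading.{w, v, u} F) (K : G.Fld) :
    ∃ (K' : G.Fld) (B : Closure (G.th K).K (G.th K').K),
    ∀ (X : (G.th K).C) (l : ℤ), ∀ θ ∈ (G.th K).K.deg X X 0, ∀ z ∈ CH (G.th K).K X l,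
    ∃ (K₁ : G.Fld) (s : ℕ) (B₁ : BaseChange (G.th K₁).K (G.th K').K) (X₁ : (G.th K₁).C)
      (i : B.Φ.obj X ≅ B₁.Φ.obj X₁), G.FG K₁ s ∧ (∀ d : ℕ, G.TrDeg K d → s ≤ d) ∧
      i.hom ∈ (G.th K').K.deg _ _ 0 ∧ i.inv ∈ (G.th K').K.deg _ _ 0 ∧
      ∃ θ₁ ∈ (G.th K₁).K.deg X₁ X₁ 0, ∃ z₁ ∈ CH (G.th K₁).K X₁ l,
        B.Φ.map θ ≫ i.hom = i.hom ≫ B₁.Φ.map θ₁ ∧ B.cyc z ≫ i.hom = B₁.cyc z₁ := by
  obtain ⟨K', B, hB⟩ := G.defined K
  refine ⟨K', B, fun X l θ hθ z hz => ?_⟩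
  obtain ⟨K₁, s, B₁, h1, h2, X₁, θ₁, z₁, hθ₁, hz₁, i, hi, hi', e1, e2⟩ := hB X l θ hθ z hz
  exact ⟨K₁, s, B₁, X₁, i, h1, h2, hi, hi', θ₁, hθ₁, z₁, hz₁, e1, e2⟩

end Pool.Agent.SprM
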