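import Pool.Agent.SprM.Compat
import Pool.Agent.LckM.FromMurre

/-!
# Spreading out: the main step
-/

set_option autoImplicit false

open CategoryTheory MonoidalCategory
open Pool.Agent.LefCK Pool.Agent.LckM

universe w v u

namespace Pool.Agent.SprM

section pow

variable {C : Type u} [Category.{v} C] [Preadditive C] [Linear ℚ C]
  [MonoidalCategory C] {F : Type w} [Field F] {K : Correspondences C F}

/-- If the correspondence `θ : X → X` of degree 0 acts as zero on `H_i(X)` for `i < 2l + ν`, then it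
is locally nilpotent on `CH_l(X)`. -/
def FilNil (K : Correspondences C F) (X : C) (ν : ℤ) : Prop :=
  ∀ l : ℤ, ∀ θ ∈ K.deg X X 0,
    (∀ i : ℤ, i < 2 * l + ν → ∀ h ∈ K.gr X i, (K.H.map θ).hom h = 0) →
    ∀ z ∈ CH K X l, ∃ N : ℕ, z ≫ pow θ N = 0

theorem pow_pow {X : C} (θ : X ⟶ X) (a b : ℕ) : pow (pow θ a) b = pow θ (a * b) := by
  induction b with
  | zero => rfl
  | succ b ih =>
    change pow (pow θ a) b ≫ pow θ a = _
    rw [ih, Nat.mul_succ, ← pow_add' θ]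

theorem FilNil.filZero {X : C} {ν : ℤ} (h : FilNil K X ν) : FilZero K X ν := by
  classical
  have := K.additive
  intro c l x hx hx0
  obtain ⟨t, ht0, ht1⟩ := c.exists_finset
  obtain ⟨θ, hθd⟩ : ∃ θ : X ⟶ X, θ = ∑ i ∈ t with 2 * l + ν ≤ i, c.p i := ⟨_, rfl⟩
  have hθ : θ ∈ K.deg X X 0 := by
    rw [hθd]
    exact Submodule.sum_mem _ fun i _ => c.mem i
  have hxθ : x ≫ θ = x := by
    have h1 : x ≫ 𝟙 X = x := Category.comp_id x
    rw [← ht1, ← Finset.sum_filter_add_sum_filter_not t (fun i => 2 * l + ν ≤ i),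
      ← hθd, Preadditive.comp_add, Preadditive.comp_sum] at h1
    rw [Finset.sum_eq_zero (s := t.filter fun i => ¬ 2 * l + ν ≤ i) (fun i hi => by
      rw [Finset.mem_filter] at hi
      exact hx0 i (by omega)), add_zero] at h1
    exact h1
  obtain ⟨N, hN⟩ := h l θ hθ (by
    intro i hi h hh
    rw [hθd, K.map_sum_apply]
    refine Finset.sum_eq_zero fun k hk => ?_
    rw [Finset.mem_filter] at hk
    exact c.homology_ne (by omega) hh) x hx
  have h6 : ∀ n : ℕ, x ≫ pow θ n = x := by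
    intro n
    induction n with
    | zero => exact Category.comp_id _
    | succ n ih =>
      change x ≫ pow θ n ≫ θ = _
      rw [← Category.assoc, ih, hxθ]
  rwa [h6] at hN

theorem pow_mem0 {X : C} {θ : X ⟶ X} (hθ : θ ∈ K.deg X X 0) (n : ℕ) : pow θ n ∈ K.deg X X 0 := by
  induction n with
  | zero => exact K.id_mem X
  | succ n ih => exact K.comp_mem' ih hθ (add_zero 0)

theorem comp_mem0 {X Y : C} {l : ℤ} {z : 𝟙_ C ⟶ X} (hz : z ∈ CH K X l) {θ : X ⟶ Y}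
    (hθ : θ ∈ K.deg X Y 0) : z ≫ θ ∈ CH K Y l := K.comp_mem' hz hθ (add_zero _)

/-- the class of a cycle of dimension `l` lies in `H_2l` -/
theorem cyc_gr {X : C} {l : ℤ} {z : 𝟙_ C ⟶ X} (hz : z ∈ CH K X l) (v : K.H.obj (𝟙_ C)) :
    (K.H.map z).hom v ∈ K.gr X (2 * l) := by
  have h1 := K.map_gr hz 0 v (K.unit_gr v)
  have h2 : (0 : ℤ) - 2 * -l = 2 * l := by ring
  rwa [h2] at h1

theorem gr_map0 {X Y : C} {f : X ⟶ Y} (hf : f ∈ K.deg X Y 0) {j : ℤ} {x : K.H.obj X}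
    (hx : x ∈ K.gr X j) : (K.H.map f).hom x ∈ K.gr Y j := by
  have h1 := K.map_gr hf j x hx
  have h2 : j - 2 * 0 = j := by ring
  rwa [h2] at h1

end pow

variable {F : Type w} [Field F] {S S' : Theory.{w, v, u} F} {s : ℕ} {X : S'.C}
  {M : Model S.K S'.K s X}

theorem split_of_semisimple (hss : Semisimple S.K) (M : Model S.K S'.K s X) : M.Split := by
  obtain ⟨g, hg, h1⟩ := hss M.D M.Y 0 M.β M.β_mem
  rw [neg_zero] at hg
  exact ⟨g, hg, h1⟩

/-- the projector onto the boundary -/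
theorem exists_proj (hβ : M.Split) : ∃ c ∈ S.K.deg M.Y M.Y 0,
    (∀ W : 𝟙_ S.C ⟶ M.Y, M.res (W ≫ c) = 0) ∧
    ∀ j : ℤ, ∀ v ∈ M.leray (s - 1) j, (S.K.H.map c).hom v = v := by
  obtain ⟨g, hg, h1⟩ := hβ
  refine ⟨g ≫ M.β, S.K.comp_mem' hg M.β_mem (add_zero 0), fun W => ?_, fun j v hv => ?_⟩
  · rw [← Category.assoc]
    exact M.res_β _
  · obtain ⟨w, rfl⟩ := M.boundary j v hv
    rw [← S.K.map_comp_apply, h1]

theorem res_pow {Θ : M.Y ⟶ M.Y} {θ : X ⟶ X}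
    (hres : ∀ Z : 𝟙_ S.C ⟶ M.Y, M.res (Z ≫ Θ) = M.res Z ≫ θ) (n : ℕ) (Z : 𝟙_ S.C ⟶ M.Y) :
    M.res (Z ≫ pow Θ n) = M.res Z ≫ pow θ n := by
  induction n with
  | zero =>
    change M.res (Z ≫ 𝟙 M.Y) = M.res Z ≫ 𝟙 X
    rw [Category.comp_id, Category.comp_id]
  | succ n ih =>
    change M.res (Z ≫ pow Θ n ≫ Θ) = M.res Z ≫ pow θ n ≫ θ
    rw [← Category.assoc, hres, ih, Category.assoc]

/-- the powers of `Θ` lower the Leray filtration -/
theorem lower {Θ : M.Y ⟶ M.Y} {θ : X ⟶ X}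
    (hΘ : ∀ a j : ℤ, (∀ h ∈ S'.K.gr X (j - a), (S'.K.H.map θ).hom h = 0) →
      ∀ v ∈ M.leray a j, (S.K.H.map Θ).hom v ∈ M.leray (a - 1) j)
    {a j : ℤ} (n : ℕ) (h0 : ∀ i : ℤ, j - a ≤ i → i < j - a + n → ∀ h ∈ S'.K.gr X i,
      (S'.K.H.map θ).hom h = 0) {v : S.K.H.obj M.Y} (hv : v ∈ M.leray a j) :
    (S.K.H.map (pow Θ n)).hom v ∈ M.leray (a - n) j := by
  induction n with
  | zero =>
    change (S.K.H.map (𝟙 M.Y)).hom v ∈ _
    rw [S.K.map_id_apply]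
    simpa using hv
  | succ n ih =>
    have h1 := ih fun i h2 h3 => h0 i h2 (by push_cast; omega)
    have h2 := hΘ (a - n) j (h0 _ (by omega) (by push_cast; omega)) _ h1
    change (S.K.H.map (pow Θ n ≫ Θ)).hom v ∈ _
    rw [S.K.map_comp_apply]
    have h3 : a - ((n + 1 : ℕ) : ℤ) = a - n - 1 := by push_cast; ring
    rw [h3]
    exact h2

end Pool.Agent.SprM
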