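import Pool.Agent.LckM.Defs

/-!
# Spreading out Murre's conjectures

Definitions for the result `MP_38de51_ag.Spreading`. The setting: the algebraic closure `k₀` of a
prime field, the finitely generated extension fields `K` of `k₀`, and the arbitrary fields of the
same characteristic; the correspondences between the smooth projective varieties over these fields,
with `l`-adic homology.
-/

set_option autoImplicit false

open CategoryTheory MonoidalCategory
open Pool.Agent.LefCK Pool.Agent.LckM

universe w v u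

namespace Pool.Agent.SprM

section one

variable {C : Type u} [Category.{v} C] [Preadditive C] [Linear ℚ C]
  [MonoidalCategory C] {F : Type w} [Field F]

/-- `H_j(X)` -/
def homol (K : Correspondences C F) (X : C) (j : ℤ) : Set (K.H.obj X) := {x | Wt K j x}

/-- `f` acts as zero on `H_j(X)`. -/
abbrev Van (K : Correspondences C F) (j : ℤ) {X Y : C} (f : X ⟶ Y) : Prop :=
  ∀ h, Wt K j h → act K f h = 0

/-- `H_j(X) = 0` -/
def Null (K : Correspondences C F) (X : C) (j : ℤ) : Prop := (homol K X j).Subsingleton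

/-- `π` acts on the homology of `X` as the projector onto `H_i(X)`. -/
def Proj (K : Correspondences C F) {X : C} (i : ℤ) (π : X ⟶ X) : Prop :=
  ∀ j : ℤ, Mult K j π (if j = i then 1 else 0)

/-- `f` and `g` are homologically equivalent. -/
abbrev Same (K : Correspondences C F) {X Y : C} (f g : X ⟶ Y) : Prop := K.H.map f = K.H.map g

/-- The Kuenneth projectors of `X` are algebraic (the standard conjecture `C(X)`). -/
def Kuenneth (K : Correspondences C F) (X : C) : Prop :=
  (∃ s : Finset ℤ, ∀ j, j ∉ s → Null K X j) ∧ ∀ i : ℤ, ∃ π : X ⟶ X, Deg K 0 π ∧ Proj K i π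

/-- If the correspondence `θ : X → X` of degree 0 acts as zero on `H_j(X)` for all `j` which are not
in `A`, then it is locally nilpotent on `CH_l(X)_hom`. -/
def NilOn (K : Correspondences C F) (X : C) (l : ℤ) (A : Set ℤ) : Prop :=
  ∀ θ : X ⟶ X, Deg K 0 θ → (∀ j : ℤ, j ∉ A → Van K j θ) →
    ∀ z, Cyc K l z → Triv K z → ∃ N : ℕ, z ≫ pow θ N = 0

/-- `CH_l(M_(2l+w))_hom = 0` for all varieties `X`, all `l` and every Chow-Kuenneth decomposition
`h(X) = ⊕ M_i`. -/
def WeightZero (K : Correspondences C F) (w : ℤ) : Prop :=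
  ∀ (X : C) (e : CK K X) (l : ℤ), ∀ z, Cyc K l z → Triv K z → z ≫ e.p (2 * l + w) = 0

/-- A consequence of the injectivity of the Abel-Jacobi map `CH_l(X)_hom → J_l(X)` with rational
coefficients: a correspondence `θ : X → X` of degree 0 which acts as zero on `H_(2l+1)(X)` acts as
zero on `CH_l(X)_hom`. -/
def AbelJacobi (K : Correspondences C F) (X : C) : Prop :=
  ∀ l : ℤ, ∀ θ : X ⟶ X, Deg K 0 θ → Van K (2 * l + 1) θ → ∀ z, Cyc K l z → Triv K z → z ≫ θ = 0

/-- `F^ν CH_l(X) = 0` for all `l` and every Chow-Kuenneth decomposition of `X`. -/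
def FilZero (K : Correspondences C F) (X : C) (ν : ℤ) : Prop :=
  ∀ (e : CK K X) (l : ℤ), ∀ x, Cyc K l x → (∀ i : ℤ, i < 2 * l + ν → x ≫ e.p i = 0) → x = 0

/-- Intersection numbers. -/
structure Intersection (K : Correspondences C F) where
  /-- the intersection number of (the component of degree 0 of) a correspondence `X → X` with the
  diagonal, so that `num (f ≫ g)` is the intersection number of `f` and the transpose of `g` -/
  num : ∀ {X : C}, (X ⟶ X) → ℚ
  num_add : ∀ {X : C} (f g : X ⟶ X), num (f + g) = num f + num g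
  num_comm : ∀ {X Y : C} (f : X ⟶ Y) (g : Y ⟶ X), num (f ≫ g) = num (g ≫ f)
  /-- the trace formula, for correspondences which act nilpotently on the homology -/
  num_nil : ∀ {X : C}, ∀ f : X ⟶ X, Deg K 0 f → (∃ n : ℕ, Triv K (pow f n)) → num f = 0
  /-- the groups of cycles modulo numerical equivalence are finite dimensional -/
  num_fin : ∀ (X Y : C) (d : ℤ), ∃ (n : ℕ) (g : Fin n → (Y ⟶ X)), (∀ i, Deg K (-d) (g i)) ∧
    ∀ f : X ⟶ Y, Deg K d f → (∀ i, num (f ≫ g i) = 0) →
      ∀ h : Y ⟶ X, Deg K (-d) h → num (f ≫ h) = 0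

/-- `f` (of degree `d`) is numerically trivial. -/
def Intersection.Num {K : Correspondences C F} (I : Intersection K) (d : ℤ) {X Y : C}
    (f : X ⟶ Y) : Prop := ∀ h : Y ⟶ X, Deg K (-d) h → I.num (f ≫ h) = 0

/-- Homological and numerical equivalence agree (the standard conjecture D). -/
def Intersection.HomNum {K : Correspondences C F} (I : Intersection K) : Prop :=
  ∀ (X Y : C) (d : ℤ) (f : X ⟶ Y), Deg K d f → I.Num d f → Triv K f

/-- Rational (with rational coefficients) and numerical equivalence agree. -/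
def Intersection.RatNum {K : Correspondences C F} (I : Intersection K) : Prop :=
  ∀ (X Y : C) (d : ℤ) (f : X ⟶ Y), Deg K d f → I.Num d f → f = 0

/-- `P(φ)` -/
noncomputable def evalAt {X : C} (P : Polynomial ℚ) (φ : X ⟶ X) : X ⟶ X :=
  P.sum fun i a => sm a (pow φ i)

/-- For the varieties over an algebraic closure of a finite field: a correspondence `p : X → X` and
a cycle `z` of dimension `l` on `X` are defined over a finite field with `q` elements, so they are
compatible with the Frobenius endomorphism `φ : X → X`, and the characteristic polynomial `P` of `φ`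
on `H_j(X)` has rational coefficients and roots of absolute value `q^(j/2)` (Deligne). -/
structure Frobenius (K : Correspondences C F) : Prop where
  /-- `H_j(X) = 0` for almost all `j` -/
  bounded : ∀ X : C, ∃ s : Finset ℤ, ∀ j, j ∉ s → Null K X j
  exists_frobenius : ∀ (X : C) (l : ℤ) (p : X ⟶ X) (z : 𝟙_ C ⟶ X), Deg K 0 p → Cyc K l z →
    ∃ (q : ℕ) (φ : X ⟶ X), 1 < q ∧ Deg K 0 φ ∧ p ≫ φ = φ ≫ p ∧ z ≫ φ = sm ((q : ℚ) ^ l) z ∧
      ∀ j : ℤ, ∃ P : Polynomial ℚ, (∀ c : ℂ, Polynomial.aeval c P = 0 → ‖c‖ ^ 2 = (q : ℝ) ^ j) ∧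
        Van K j (evalAt P φ)

/-- Murre's conjectures (A), (B), (C) for the motive `M`, with (B) for every Chow-Kuenneth
decomposition. -/
def MurreABC {K : Correspondences C F} (M : Mot K) : Prop :=
  Nonempty M.CK ∧ M.MurreC ∧ ∀ e : M.CK, e.B

end one

section two

variable {C : Type u} [Category.{v} C] [Preadditive C] [Linear ℚ C] [MonoidalCategory C]
  {C' : Type u} [Category.{v} C'] [Preadditive C'] [Linear ℚ C'] [MonoidalCategory C']
  {C₁ : Type u} [Category.{v} C₁] [Preadditive C₁] [Linear ℚ C₁] [MonoidalCategory C₁]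
  {F : Type w} [Field F]

/-- `K`: the varieties over an algebraically closed field `k₀`, `K'`: the varieties over an extension
field of `k₀` of transcendence degree `s`. A variety `X` over the extension field is the generic
fibre of a smooth projective family `𝒳` over a smooth affine variety `U` of dimension `s`; let `Y` be
a smooth projective variety over `k₀` which is a compactification of `𝒳`, or in positive
characteristic an alteration `φ : Y → 𝒳'` of a compactification `𝒳'` of `𝒳`. Let `ler a j` be the
classes in `H_j(Y)` whose image (under `φ_*` and the restriction) in the Borel-Moore homology of `𝒳`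
lies in the step `a` of the Leray filtration (with graded pieces `H_a(U, H_(j-a)(fibres))`). -/
structure Model (K : Correspondences C F) (K' : Correspondences C' F) (s : ℕ) (X : C') where
  /-- the variety `Y` over `k₀` -/
  Y : C
  /-- `φ_*`, followed by the restriction to the generic fibre, `CH_(l+s)(Y) → CH_l(X)` -/
  rs : (𝟙_ C ⟶ Y) → (𝟙_ C' ⟶ X)
  rs_add : ∀ Z W : 𝟙_ C ⟶ Y, rs (Z + W) = rs Z + rs W
  rs_mem : ∀ (l : ℤ) (Z : 𝟙_ C ⟶ Y), Cyc K (l + s) Z → Cyc K' l (rs Z)
  rs_surj : ∀ (l : ℤ) (z : 𝟙_ C' ⟶ X), Cyc K' l z → ∃ Z : 𝟙_ C ⟶ Y, Cyc K (l + s) Z ∧ rs Z = z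
  /-- the Leray filtration -/
  ler : ℤ → ℤ → K.H.obj Y → Prop
  ler_top : ∀ (j : ℤ) (v : K.H.obj Y), Wt K j v → ler (2 * s) j v
  /-- if `Z` is homologically trivial on the generic fibre, its class is zero in
  `H_2s(U, H_2l(fibres))` -/
  ler_hom : ∀ (l : ℤ) (Z : 𝟙_ C ⟶ Y), Cyc K (l + s) Z → Triv K' (rs Z) → ∀ v,
    ler (2 * s - 1) (2 * (l + s)) (act K Z v)
  /-- the correspondences `θ : X → X` extend, and act on the graded pieces of the Leray filtration
  through their action on the homology of `X` -/
  ext : ∀ θ : X ⟶ X, Deg K' 0 θ → ∃ Θ : Y ⟶ Y, Deg K 0 Θ ∧ (∀ Z, rs (Z ≫ Θ) = rs Z ≫ θ) ∧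
    ∀ a j : ℤ, Van K' (j - a) θ → ∀ v, ler a j v → ler (a - 1) j (act K Θ v)
  /-- a smooth projective variety `D` which dominates the complement of (the inverse image of) `𝒳`
  in `Y`, together with a copy of `Y` if `φ` is only an alteration (all varieties are
  equidimensional: multiply the components of the boundary by projective spaces) -/
  D : C
  /-- the push-forward along `D → Y` (and `1 - φ^*φ_*/deg φ` on the copy of `Y`) -/
  β : D ⟶ Y
  β_mem : Deg K 0 β
  rs_β : ∀ W : 𝟙_ C ⟶ D, rs (W ≫ β) = 0
  /-- the homology of the affine variety `U` vanishes in degrees `< s` (Artin), and the classes which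
  vanish on `𝒳` come from `D` (Deligne) -/
  ler_bd : ∀ (j : ℤ) (v : K.H.obj Y), ler (s - 1) j v → ∃ w : K.H.obj D, act K β w = v

/-- the push-forward from the boundary has a quasi-inverse on the homology -/
def Model.Split {K : Correspondences C F} {K' : Correspondences C' F} {s : ℕ} {X : C'}
    (M : Model K K' s X) : Prop := ∃ g : M.Y ⟶ M.D, Deg K 0 g ∧ Same K (M.β ≫ g ≫ M.β) M.β

/-- The homologically trivial correspondences on the model `Y` are nilpotent, the push-forward from
the boundary has a quasi-inverse on the homology, and a Chow-Kuenneth decomposition of `h(Y)`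
satisfies (B). -/
def Model.Fine {K : Correspondences C F} {K' : Correspondences C' F} {s : ℕ} {X : C'}
    (M : Model K K' s X) : Prop :=
  M.Split ∧ NilHom K M.Y ∧ ∃ e : CK K M.Y, ∀ l, e.MurreB l

/-- The same with (B) and (D). -/
def Model.FineD {K : Correspondences C F} {K' : Correspondences C' F} {s : ℕ} {X : C'}
    (M : Model K K' s X) : Prop :=
  M.Split ∧ NilHom K M.Y ∧ ∃ e : CK K M.Y, ∀ l, e.MurreB l ∧ e.MurreD l

/-- The fibre `X₀` over a closed point of `U` of the smooth projective family with the generic fibre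
`X`, and a model `M` of `X × X`. -/
structure Fibre {K : Correspondences C F} {K' : Correspondences C' F} {D : Divisors K}
    {D' : Divisors K'} (T : Duality K D) (T' : Duality K' D') (s : ℕ) (X : C') where
  M : Model K K' s (X ⊗ X)
  X₀ : C
  /-- the specialisation of the homology (an isomorphism) -/
  sp : K'.H.obj X → K.H.obj X₀
  sp_inj : Function.Injective sp
  sp_zero : sp 0 = 0
  sp_gr : ∀ (j : ℤ) (x : K'.H.obj X), Wt K' j x → Wt K j (sp x)
  /-- the pull-back to the fibre `X₀ × X₀` -/
  fib : M.Y ⟶ X₀ ⊗ X₀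
  fib_mem : Deg K s fib
  /-- Let `κ : X₀ → X₀` act as a scalar on each `H_j(X₀)`. Then its class in the homology of
  `X₀ × X₀` is invariant under the monodromy, so it is the image of a class on `M.Y` (theorem of
  the fixed part, Deligne). -/
  fixed : ∀ κ : X₀ ⟶ X₀, Deg K 0 κ → ∀ c : ℤ → F, (∀ j : ℤ, Mult K j κ (c j)) → ∀ v,
    ∃ w : K.H.obj M.Y, act K fib w = act K (T.graph κ) v
  /-- the specialisation of a correspondence `X → X`, given by a cycle `Z` on `M.Y`, acts on the
  homology in the same way -/
  spec : ∀ Z : 𝟙_ C ⟶ M.Y, Cyc K (D.dim X₀ + s) Z → ∀ κ : X₀ ⟶ X₀, Deg K 0 κ →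
    Same K (Z ≫ fib) (T.graph κ) → ∃ π : X ⟶ X, Deg K' 0 π ∧ T'.graph π = M.rs Z ∧
      ∀ x, sp (act K' π x) = act K κ (sp x)

/-- `K`: the varieties over a field, `K'`: the varieties over an algebraic closure. -/
structure Closure (K : Correspondences C F) (K' : Correspondences C' F) extends
    BaseChange K K' where
  /-- Galois descent: take the average of the conjugates of `π` -/
  galois : ∀ (X : C) (π : Φ.obj X ⟶ Φ.obj X), Deg K' 0 π → ∀ c : ℤ → F,
    (∀ j : ℤ, Mult K' j π (c j)) → ∃ π' : X ⟶ X, Deg K 0 π' ∧ ∀ j : ℤ, Mult K j π' (c j)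

/-- An isomorphism of varieties `X ≅ Y` maps `θ : X → X` and the cycle `z` on `X` to `θ' : Y → Y` and
`z'`. -/
def Transport (K' : Correspondences C' F) {X Y : C'} (θ : X ⟶ X) (z : 𝟙_ C' ⟶ X) (θ' : Y ⟶ Y)
    (z' : 𝟙_ C' ⟶ Y) : Prop :=
  ∃ i : X ≅ Y, Deg K' 0 i.hom ∧ Deg K' 0 i.inv ∧ θ ≫ i.hom = i.hom ≫ θ' ∧ z ≫ i.hom = z'

/-- The variety `X`, `θ : X → X` and the cycle `z` on `X` are defined over `K₁`, after base change to
`K'`. -/
def Defined {K : Correspondences C F} {K' : Correspondences C' F} {K₁ : Correspondences C₁ F}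
    (B : BaseChange K K') (B₁ : BaseChange K₁ K') {X : C} (l : ℤ) (θ : X ⟶ X) (z : 𝟙_ C ⟶ X) :
    Prop :=
  ∃ (X₁ : C₁) (θ₁ : X₁ ⟶ X₁) (z₁ : 𝟙_ C₁ ⟶ X₁), Deg K₁ 0 θ₁ ∧ Cyc K₁ l z₁ ∧
    Transport K' (B.Φ.map θ) (B.cyc z) (B₁.Φ.map θ₁) (B₁.cyc z₁)

/-- Transfer of weights from a model `Y` of `X` to `X`. Let `A` be a set of integers `i` with `i ≤ 2l` or
`i > 2l + s`. If the homologically trivial correspondences `Y → Y` are nilpotent, the push-forward
from the boundary has a quasi-inverse, and `CH_(l+s)(M_j(Y))_hom = 0` for `i + s ≤ j ≤ i + 2s`,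
`i ∈ A`, for a Chow-Kuenneth decomposition of `h(Y)`, then the correspondences `θ : X → X` of degree 0
which act as zero on `H_j(X)` for `j ∉ A` are locally nilpotent on `CH_l(X)_hom`, and
`CH_(l+r)(N_(i+2r))_hom = 0` for `i ∈ A` and every Chow-Kuenneth decomposition of every motive
`N = (X, f, r)`. -/
def Transfer (K : Correspondences C F) (K' : Correspondences C' F) : Prop :=
  ∀ (s : ℕ) (X : C') (M : Model K K' s X), M.Split → NilHom K M.Y →
    ∀ (e : CK K M.Y) (l : ℤ) (A : Set ℤ), (∀ i ∈ A, i ≤ 2 * l ∨ 2 * l + s < i) →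
      (∀ i ∈ A, ∀ j : ℤ, i + s ≤ j → j ≤ i + 2 * s →
        ∀ z, Cyc K (l + s) z → Triv K z → z ≫ e.p j = 0) → NilOn K' X l A ∧
      ∀ N : Mot K', N.X = X → ∀ (c : N.CK) (i : ℤ), i ∈ A →
        ∀ y, Cyc K' l y → Triv K' y → y ≫ c.p (i + 2 * N.r) = 0

/-- Transfer of Murre's conjectures to one variety `X` from models of `X` and `X × X`: (B) for the
models (for one Chow-Kuenneth decomposition) gives (A), (B), (C) for all motives `(X, f, r)`, with
(B) for every Chow-Kuenneth decomposition, and nilpotence; (B) and (D) give (A)-(D). -/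
def OneVariety (K : Correspondences C F) (K' : Correspondences C' F) : Prop :=
  ∀ (s : ℕ) (X : C'), Kuenneth K' X → ∀ (M : Model K K' s X) (M' : Model K K' s (X ⊗ X)),
    M.Fine → M'.Fine → NilHom K' X ∧ ∀ N : Mot K', N.X = X →
      MurreABC N ∧ (M.FineD → M'.FineD → N.MurreAll)

/-- One variety `X` over a field of characteristic `p`: if the homologically trivial correspondences
on the model are nilpotent and the push-forward from the boundary has a quasi-inverse, then the
model satisfies (B), and (B) and `F^(s+1) CH_l(N) = 0` hold for all motives `N = (X, f, r)` and every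
Chow-Kuenneth decomposition of `N`; if moreover the cycles on the model which are homologically
trivial are zero, then the model satisfies (D), and (D) holds for these `N` and decompositions. -/
def OneFrobenius (K : Correspondences C F) (K' : Correspondences C' F) : Prop :=
  ∀ (s : ℕ) (X : C') (M : Model K K' s X), M.Split → NilHom K M.Y →
    M.Fine ∧ (∀ N : Mot K', N.X = X → ∀ e : N.CK, e.B ∧ ∀ l x, e.Fil (s + 1) l x → x = 0) ∧
      ((∀ (l : ℤ) (y : 𝟙_ C ⟶ M.Y), Cyc K l y → Triv K y → y = 0) →
        M.FineD ∧ ∀ N : Mot K', N.X = X → ∀ e : N.CK, e.D)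

end two

/-- The correspondences over all fields of a given characteristic, and over the algebraic closure
`k₀` of the prime field. -/
structure Spreading (F : Type w) [Field F] where
  /-- the fields -/
  Fld : Type u
  /-- the varieties over a field -/
  th : Fld → Theory.{w, v, u} F
  /-- the field `k₀` -/
  k₀ : Fld
  /-- `K` is a finitely generated extension field of `k₀` of transcendence degree `s` -/
  FG : Fld → ℕ → Prop
  /-- the transcendence degree of `K` over the prime field is at most `s` -/
  TrDeg : Fld → ℕ → Prop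
  trDeg_base : TrDeg k₀ 0
  int : ∀ K : Fld, Intersection (th K).K
  model : ∀ {K : Fld} {s : ℕ}, FG K s → ∀ X : (th K).C, Nonempty (Model (th k₀).K (th K).K s X)
  fibre : ∀ {K : Fld} {s : ℕ}, FG K s → ∀ X : (th K).C, Nonempty (Fibre (th k₀).T (th K).T s X)
  /-- Every field `K` has an algebraic closure `K'`, and a variety `X` over `K`, a correspondence
  `θ : X → X` and a cycle `z` on `X` are defined, over `K'`, over a finitely generated extension
  field `K₁` of `k₀` in `K'`. -/
  defined : ∀ K : Fld, ∃ (K' : Fld) (B : Closure (th K).K (th K').K),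
    ∀ (X : (th K).C) (l : ℤ) (θ : X ⟶ X), Deg (th K).K 0 θ → ∀ z, Cyc (th K).K l z →
    ∃ (K₁ : Fld) (s : ℕ) (B₁ : BaseChange (th K₁).K (th K').K), FG K₁ s ∧
      (∀ d : ℕ, TrDeg K d → s ≤ d) ∧ Defined B.toBaseChange B₁ l θ z

namespace Spreading

variable {F : Type w} [Field F] (G : Spreading.{w, v, u} F)

/-- Murre's conjectures for all motives over `K`. -/
def MurreOver (K : G.Fld) : Prop := ∀ M : Mot (G.th K).K, M.Murre

/-- Murre's conjectures for all motives over `K`, with (B) and (D) for every Chow-Kuenneth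
decomposition. -/
def MurreAllOver (K : G.Fld) : Prop := ∀ M : Mot (G.th K).K, M.MurreAll

/-- C: the Kuenneth projectors of all varieties over `K` are algebraic. -/
def COver (K : G.Fld) : Prop := ∀ X : (G.th K).C, Kuenneth (G.th K).K X

/-- N: the homologically trivial correspondences `X → X` over `K` are nilpotent. -/
def NOver (K : G.Fld) : Prop := ∀ X : (G.th K).C, NilHom (G.th K).K X

/-- Murre's conjectures (A), (B), (C) for all motives over `K`, with (B) for every Chow-Kuenneth
decomposition, and N. -/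
def PartOver (K : G.Fld) : Prop := (∀ M : Mot (G.th K).K, MurreABC M) ∧ G.NOver K

/-- C, and local nilpotence: the correspondences `X → X` which act as zero on `H_j(X)` for `j > 2l`
are locally nilpotent on `CH_l(X)_hom`. -/
def LocNilOver (K : G.Fld) : Prop :=
  G.COver K ∧ ∀ (X : (G.th K).C) (l : ℤ), NilOn (G.th K).K X l (Set.Iic (2 * l))

/-- C, and the injectivity of the Abel-Jacobi maps (for the action of correspondences) over `K`. -/
def AbelJacobiOver (K : G.Fld) : Prop := G.COver K ∧ ∀ X : (G.th K).C, AbelJacobi (G.th K).K X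

/-- `CH_l(M_(2l+w))_hom = 0` for all varieties over `K`. -/
def WeightOver (K : G.Fld) (w : ℤ) : Prop := WeightZero (G.th K).K w

/-- `F^ν CH_l(X) = 0` for all varieties `X` over `K`. -/
def FilOver (K : G.Fld) (ν : ℤ) : Prop := ∀ X : (G.th K).C, FilZero (G.th K).K X ν

/-- `A` holds over all fields, and `F^(ν+d) = 0` over the fields of transcendence degree `≤ d` over
the prime field. -/
def Bounded (A : G.Fld → Prop) (ν : ℕ) : Prop :=
  (∀ K : G.Fld, A K) ∧ ∀ (K : G.Fld) (d : ℕ), G.TrDeg K d → G.FilOver K (ν + d)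

/-- D: homological and numerical equivalence agree over `K`. -/
def HomNum (K : G.Fld) : Prop := (G.int K).HomNum

/-- Rational (with rational coefficients) and numerical equivalence agree over `k₀`. -/
def RatNum : Prop := (G.int G.k₀).RatNum

/-- `k₀` is an algebraic closure of a finite field. -/
def Frob : Prop := Frobenius (G.th G.k₀).K

end Spreading

end Pool.Agent.SprM
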