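import Pool.Agent.SprM.Core
import Pool.Agent.LckM.NilC

/-!
# Transfer from a model, one variety and one weight at a time

Let `Y` be a model of `X`, `s` the transcendence degree. Only the nilpotence of the homologically
trivial correspondences `Y → Y`, a quasi-inverse of the push-forward from the boundary and the
vanishing of `CH_(l+s)(M_j(Y))_hom` for the weights `i + s ≤ j ≤ i + 2s` are needed for the vanishing
of `CH_l(M_i(X))_hom`, `i ≤ 2l` or `i > 2l + s`.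

Proof. Let `Θ` be a lift of `θ`, `c` the projector onto the boundary, `f = Θ^(s+1) (1 - c)`, and `q` the
sum of the projectors of the weights above. Then `f = q f q + ν`, `ν` homologically trivial, and
homologically trivial cycles `w` of dimension `l + s` satisfy `w q = 0`, so `w f^m = w ν^m`.
-/

set_option autoImplicit false

open CategoryTheory MonoidalCategory
open Pool.Agent.LefCK Pool.Agent.LckM

universe w v u

namespace Pool.Agent.SprM

variable {F : Type w} [Field F] {S S' : Theory.{w, v, u} F} {s : ℕ}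

/-- **Transfer**, with a correspondence `q` which acts on the homology as the projector onto the
weights `i + s ≤ j ≤ i + 2s`, `i ∈ A`, and kills the homologically trivial cycles. -/
theorem Model.transfer {X : S'.C} (M : Model S.K S'.K s X) (hN : NilHom S.K M.Y) (hβ : M.Split)
    {l : ℤ} {A : Set ℤ} (hA : ∀ i ∈ A, i ≤ 2 * l ∨ 2 * l + s < i) {q : M.Y ⟶ M.Y}
    (hq : q ∈ S.K.deg M.Y M.Y 0)
    (hq1 : ∀ i ∈ A, ∀ j : ℤ, i + s ≤ j → j ≤ i + 2 * s → ∀ v ∈ S.K.gr M.Y j,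
      (S.K.H.map q).hom v = v)
    (hq2 : ∀ j : ℤ, (∀ i ∈ A, i + s ≤ j → ¬ j ≤ i + 2 * s) → ∀ v ∈ S.K.gr M.Y j,
      (S.K.H.map q).hom v = 0)
    (hwq : ∀ w ∈ CH S.K M.Y (l + s), S.K.H.map w = 0 → w ≫ q = 0) {θ : X ⟶ X}
    (hθ : θ ∈ S'.K.deg X X 0)
    (h0 : ∀ i : ℤ, i ∉ A → ∀ h ∈ S'.K.gr X i, (S'.K.H.map θ).hom h = 0) :
    ∃ N : ℕ, ∀ z ∈ CH S'.K X l, S'.K.H.map z = 0 → z ≫ pow θ N = 0 := by
  classical
  have := S.K.additive
  obtain ⟨Θ, hΘ, hres, hler⟩ := M.lift θ hθ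
  obtain ⟨c, hc, hcres, hcv⟩ := exists_proj hβ
  -- the correspondence on the model
  obtain ⟨f, hfd⟩ : ∃ f : M.Y ⟶ M.Y, f = pow Θ (s + 1) - pow Θ (s + 1) ≫ c := ⟨_, rfl⟩
  have hf : f ∈ S.K.deg M.Y M.Y 0 := by
    rw [hfd]
    exact Submodule.sub_mem _ (pow_mem0 hΘ _) (S.K.comp_mem' (pow_mem0 hΘ _) hc (add_zero 0))
  have hfres : ∀ W : 𝟙_ S.C ⟶ M.Y, M.res (W ≫ f) = M.res W ≫ pow θ (s + 1) := by
    intro W
    rw [hfd, Preadditive.comp_sub, map_sub, ← Category.assoc, hcres, sub_zero, res_pow hres]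
  have hf0 : ∀ j : ℤ, (∀ i ∈ A, i + s ≤ j → ¬ j ≤ i + 2 * s) → ∀ v ∈ S.K.gr M.Y j,
      (S.K.H.map f).hom v = 0 := by
    intro j hj v hvj
    have h1 := lower hler (a := 2 * s) (j := j) (s + 1) (fun i h2 h3 => h0 i (by
      intro hi
      refine hj i hi ?_ (by omega)
      push_cast at h3
      omega)) (M.leray_top j hvj)
    have h2 : 2 * (s : ℤ) - ((s + 1 : ℕ) : ℤ) = s - 1 := by push_cast; ring
    rw [h2] at h1
    rw [hfd, S.K.map_sub_apply, S.K.map_comp_apply, hcv j _ h1, sub_self]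
  obtain ⟨ν, hνd⟩ : ∃ ν : M.Y ⟶ M.Y, ν = f - q ≫ f ≫ q := ⟨_, rfl⟩
  have hν : ν ∈ S.K.deg M.Y M.Y 0 := by
    rw [hνd]
    exact Submodule.sub_mem _ hf (S.K.comp_mem' hq (S.K.comp_mem' hf hq (add_zero 0)) (add_zero 0))
  have hν0 : S.K.H.map ν = 0 := by
    ext v
    change (S.K.H.map ν).hom v = 0
    induction v using S.K.gr_induction with
    | zero => exact map_zero _
    | mem j v hvj =>
      rw [hνd, S.K.map_sub_apply, S.K.map_comp_apply, S.K.map_comp_apply]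
      by_cases hj : ∀ i ∈ A, i + s ≤ j → ¬ j ≤ i + 2 * s
      · rw [hq2 j hj v hvj, hf0 j hj v hvj, map_zero, map_zero, sub_zero]
      · push Not at hj
        obtain ⟨i, hi, h1, h2⟩ := hj
        rw [hq1 i hi j h1 h2 v hvj, hq1 i hi j h1 h2 _ (gr_map0 hf hvj), sub_self]
    | add x y hx hy => rw [map_add, hx, hy, add_zero]
  obtain ⟨m, hm⟩ := hN ν hν hν0
  -- iteration on the homologically trivial cycles
  have hit : ∀ w ∈ CH S.K M.Y (l + s), S.K.H.map w = 0 → ∀ n : ℕ, w ≫ pow f n = w ≫ pow ν n := by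
    intro w hw hw0 n
    induction n with
    | zero => rfl
    | succ n ih =>
      change w ≫ pow f n ≫ f = w ≫ pow ν n ≫ ν
      rw [← Category.assoc, ← Category.assoc, ← ih]
      have h1 : w ≫ pow f n ∈ CH S.K M.Y (l + s) := comp_mem0 hw (pow_mem0 hf n)
      have h2 : S.K.H.map (w ≫ pow f n) = 0 := by
        rw [S.K.H.map_comp, hw0, Limits.zero_comp]
      have h3 := hwq _ h1 h2
      rw [hνd, Preadditive.comp_sub, ← Category.assoc (w ≫ pow f n) q, h3, Limits.zero_comp,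
        sub_zero]
  refine ⟨s + (s + 1) * m, fun z hz hz0 => ?_⟩
  obtain ⟨Z, hZ, rfl⟩ := M.res_surj l z hz
  have hf' : pow Θ s ∈ S.K.deg M.Y M.Y 0 := pow_mem0 hΘ s
  obtain ⟨w, hwd⟩ : ∃ w : 𝟙_ S.C ⟶ M.Y, w = Z ≫ pow Θ s - (Z ≫ pow Θ s) ≫ c := ⟨_, rfl⟩
  have hw : w ∈ CH S.K M.Y (l + s) := by
    rw [hwd]
    exact Submodule.sub_mem _ (comp_mem0 hZ hf') (comp_mem0 (comp_mem0 hZ hf') hc)
  have hw0 : S.K.H.map w = 0 := by
    ext v
    change (S.K.H.map w).hom v = 0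
    rw [hwd, S.K.map_sub_apply, S.K.map_comp_apply (Z ≫ pow Θ s) c, S.K.map_comp_apply]
    have h2 := lower hler (a := 2 * s - 1) (j := 2 * (l + s)) s (fun i h3 h4 => h0 i (by
      intro hi
      rcases hA i hi with h5 | h5 <;> omega)) (M.hom l Z hZ hz0 v)
    have h3 : (2 * (s : ℤ) - 1) - s = s - 1 := by ring
    rw [h3] at h2
    rw [hcv _ _ h2, sub_self]
  have hwr : M.res w = M.res Z ≫ pow θ s := by
    rw [hwd, map_sub, hcres, sub_zero, res_pow hres]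
  have h1 := hit w hw hw0 m
  rw [hm, Limits.comp_zero] at h1
  have h2 := res_pow hfres m w
  rw [h1, map_zero, hwr, Category.assoc] at h2
  rw [← pow_add' θ, ← pow_pow, ← h2]

/-- **Transfer for a set of weights** -/
theorem Model.nilOn {X : S'.C} (M : Model S.K S'.K s X) (e : CK S.K M.Y) (hN : NilHom S.K M.Y)
    (hβ : M.Split) {l : ℤ} {A : Set ℤ} (hA : ∀ i ∈ A, i ≤ 2 * l ∨ 2 * l + s < i)
    (hY : ∀ i ∈ A, ∀ j : ℤ, i + s ≤ j → j ≤ i + 2 * s → ∀ z ∈ CH S.K M.Y (l + s),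
      S.K.H.map z = 0 → z ≫ e.p j = 0) : NilOn S'.K X l A := by
  classical
  obtain ⟨t, ht0, ht1⟩ := e.exists_finset
  obtain ⟨q, hqd⟩ : ∃ q : M.Y ⟶ M.Y,
      q = ∑ j ∈ t with ∃ i ∈ A, i + (s : ℤ) ≤ j ∧ j ≤ i + 2 * s, e.p j := ⟨_, rfl⟩
  intro θ hθ h0 z hz hz0
  have hq : q ∈ S.K.deg M.Y M.Y 0 := by
    rw [hqd]
    exact Submodule.sum_mem _ fun i _ => e.mem i
  have hq1 : ∀ i ∈ A, ∀ j : ℤ, i + s ≤ j → j ≤ i + 2 * s → ∀ v ∈ S.K.gr M.Y j,
      (S.K.H.map q).hom v = v := by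
    intro i hi j h1 h2 v hvj
    rw [hqd, S.K.map_sum_apply]
    by_cases hjt : j ∈ t
    · rw [Finset.sum_eq_single j]
      · exact e.homology_self hvj
      · intro i _ hi
        exact e.homology_ne (fun h => hi h.symm) hvj
      · intro h
        exact absurd (Finset.mem_filter.2 ⟨hjt, i, hi, h1, h2⟩) h
    · have h3 : v = 0 := by
        rw [← e.homology_self hvj, ht0 j hjt, S.K.map_zero_apply]
      rw [h3]
      exact Finset.sum_eq_zero fun i _ => map_zero _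
  have hq2 : ∀ j : ℤ, (∀ i ∈ A, i + s ≤ j → ¬ j ≤ i + 2 * s) → ∀ v ∈ S.K.gr M.Y j,
      (S.K.H.map q).hom v = 0 := by
    intro j hj v hvj
    rw [hqd, S.K.map_sum_apply]
    refine Finset.sum_eq_zero fun k hk => e.homology_ne ?_ hvj
    rintro rfl
    obtain ⟨-, i, hi, h1, h2⟩ := Finset.mem_filter.1 hk
    exact hj i hi h1 h2
  have hwq : ∀ w ∈ CH S.K M.Y (l + s), S.K.H.map w = 0 → w ≫ q = 0 := by
    intro w hw hw0
    rw [hqd, Preadditive.comp_sum]
    refine Finset.sum_eq_zero fun j hj => ?_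
    obtain ⟨-, i, hi, h1, h2⟩ := Finset.mem_filter.1 hj
    exact hY i hi j h1 h2 w hw hw0
  obtain ⟨N, h⟩ := M.transfer hN hβ hA hq hq1 hq2 hwq hθ h0
  exact ⟨N, h z hz hz0⟩

/-- **The homologically trivial correspondences over `K` are nilpotent.** -/
theorem Model.nilHom {X : S'.C} (M : Model S.K S'.K s (X ⊗ X)) (hN : NilHom S.K M.Y)
    (hβ : M.Split) : NilHom S'.K X := by
  have := S.K.additive
  refine nilHom_of_graph S' fun θ hθ h0 z hz hz0 => ?_
  obtain ⟨N, h⟩ := M.transfer hN hβ (l := S'.D.dim X) (A := ∅) (fun i hi => absurd hi (by simp))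
    (q := 0) (Submodule.zero_mem _) (fun i hi => absurd hi (by simp))
    (fun j _ v _ => S.K.map_zero_apply v) (fun w _ _ => Limits.comp_zero) hθ
    (fun i _ h _ => h0 h)
  exact ⟨N, h z hz hz0⟩

/-- **Transfer for a Chow-Kuenneth decomposition**: `CH_l(M_i(X))_hom = 0` if
`CH_(l+s)(M_j(Y))_hom = 0` for `i + s ≤ j ≤ i + 2s`, where `i ≤ 2l` or `i > 2l + s`. -/
theorem Model.ck {X : S'.C} (M : Model S.K S'.K s X) (e : CK S.K M.Y) (hN : NilHom S.K M.Y)
    (hβ : M.Split) {l i : ℤ} (hi : i ≤ 2 * l ∨ 2 * l + s < i)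
    (hY : ∀ j : ℤ, i + s ≤ j → j ≤ i + 2 * s → ∀ z ∈ CH S.K M.Y (l + s),
      S.K.H.map z = 0 → z ≫ e.p j = 0) (c : CK S'.K X) {z : 𝟙_ S'.C ⟶ X}
    (hz : z ∈ CH S'.K X l) (hz0 : S'.K.H.map z = 0) : z ≫ c.p i = 0 := by
  obtain ⟨N, h1⟩ := M.nilOn e hN hβ (l := l) (A := {i}) (by
    rintro k rfl
    exact hi) (by
    rintro k rfl
    exact hY) (c.p i) (c.mem i) (by
    intro k hk h hh
    exact c.homology_ne hk hh) z hz hz0
  have h2 : ∀ n : ℕ, z ≫ pow (c.p i) (n + 1) = z ≫ c.p i := by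
    intro n
    induction n with
    | zero =>
      change z ≫ 𝟙 X ≫ c.p i = _
      rw [Category.id_comp]
    | succ n ih =>
      change z ≫ pow (c.p i) (n + 1) ≫ c.p i = _
      rw [← Category.assoc, ih, Category.assoc, c.idem]
  rw [← h2 N]
  change z ≫ pow (c.p i) N ≫ c.p i = 0
  rw [← Category.assoc, h1, Limits.zero_comp]

/-- **The unconditional case** (for instance `k₀` the algebraic closure of a finite field, and `Y`, `D`
dominated by products of curves): if `Y` has a Chow-Kuenneth decomposition with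
`CH_m(M_j(Y)) = 0` for `j ≠ 2m`, then `CH_l(M_i(X)) = 0` for every Chow-Kuenneth decomposition of
`X` and all `i < 2l` and `i > 2l + s`; and `CH_l(M_2l(X))_hom = 0` if the cycles on `Y` which are
homologically trivial are rationally trivial. -/
theorem Model.pure {X : S'.C} (M : Model S.K S'.K s X) (e : CK S.K M.Y) (hN : NilHom S.K M.Y)
    (hβ : M.Split) (hY : ∀ m j : ℤ, j ≠ 2 * m → ∀ z ∈ CH S.K M.Y m, z ≫ e.p j = 0)
    (c : CK S'.K X) (l : ℤ) {z : 𝟙_ S'.C ⟶ X} (hz : z ∈ CH S'.K X l) :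
    (∀ i : ℤ, i < 2 * l ∨ 2 * l + s < i → z ≫ c.p i = 0) ∧
    ((∀ y ∈ CH S.K M.Y (l + s), S.K.H.map y = 0 → y = 0) → S'.K.H.map z = 0 →
      z ≫ c.p (2 * l) = 0) := by
  have h1 : ∀ i : ℤ, i ≠ 2 * l → S'.K.H.map (z ≫ c.p i) = 0 := by
    intro i hi
    ext v
    change (S'.K.H.map (z ≫ c.p i)).hom v = 0
    rw [S'.K.map_comp_apply]
    exact c.homology_ne (fun h => hi h.symm) (cyc_gr hz v)
  refine ⟨fun i hi => ?_, fun h hz0 => ?_⟩
  · have h2 := M.ck e hN hβ (l := l) (i := i) (by omega) (fun j h3 h4 y hy _ =>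
      hY (l + s) j (by omega) y hy) c (comp_mem0 hz (c.mem i)) (h1 i (by omega))
    rwa [Category.assoc, c.idem] at h2
  · refine M.ck e hN hβ (l := l) (i := 2 * l) (by omega) (fun j _ _ y hy hy0 => ?_) c hz hz0
    rw [h y hy hy0, Limits.zero_comp]

end Pool.Agent.SprM
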