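import Pool.Agent.SprM.Compat
import Pool.Agent.LckM.LiftK

/-!
# Jannsen's theorem

If homological and numerical equivalence agree, the homological motives are semisimple.
-/

set_option autoImplicit false

open CategoryTheory MonoidalCategory
open Pool.Agent.LefCK Pool.Agent.LckM

universe w v u

namespace Pool.Agent.SprM

variable {C : Type u} [Category.{v} C] [Preadditive C] [Linear ℚ C]
  [MonoidalCategory C] {F : Type w} [Field F] {K : Correspondences C F}

theorem RatNum.homNum (I : Intersection K) (h : I.RatNum) : I.HomNum := by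
  intro X Y d f hf h1
  have := K.additive
  show K.H.map f = 0
  rw [h X Y d f hf h1, Functor.map_zero]

private theorem janTr (I : Intersection K) {X Y : C} {d : ℤ} {f : X ⟶ Y} {g : Y ⟶ X}
    (hf : f ∈ K.deg X Y d) (hg : g ∈ K.deg Y X (-d)) (n : ℕ)
    (h0 : K.H.map (pow (f ≫ g) n) = 0) : I.tr (f ≫ g) = 0 :=
  I.nilpotent _ (K.comp_mem' hf hg (add_neg_cancel d)) ⟨n, h0⟩

private theorem janPowOne {X : C} (f : X ⟶ X) : pow f 1 = f := Category.id_comp f

theorem RatNum.hom_zero (I : Intersection K) (h : I.RatNum) {X Y : C} {d : ℤ} {f : X ⟶ Y}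
    (hf : f ∈ K.deg X Y d) (h0 : K.H.map f = 0) : f = 0 := by
  have := K.additive
  refine h X Y d f hf fun g hg => janTr I hf hg 1 ?_
  rw [janPowOne, Functor.map_comp, h0, Limits.zero_comp]

/-- the algebra of the correspondences of degree 0 -/
private def janA (K : Correspondences C F) (X : C) : Subalgebra ℚ (End X) where
  carrier := {f | (f : X ⟶ X) ∈ K.deg X X 0}
  mul_mem' := by
    intro f g hf hg
    exact K.comp_mem' (show (g : X ⟶ X) ∈ K.deg X X 0 from hg) (show (f : X ⟶ X) ∈ _ from hf)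
      (add_zero 0)
  add_mem' := by
    intro f g hf hg
    exact (K.deg X X 0).add_mem hf hg
  algebraMap_mem' := by
    intro q
    rw [Algebra.algebraMap_eq_smul_one]
    exact (K.deg X X 0).smul_mem q (K.id_mem X)

/-- the action on the homology -/
private def janAct (K : Correspondences C F) (X : C) :
    janA K X →+* Module.End F (K.H.obj X) where
  toFun f := (K.H.map (show X ⟶ X from (f : End X))).hom
  map_one' := by
    ext x
    exact K.map_id_apply x
  map_mul' f g := by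
    ext x
    exact K.map_comp_apply _ _ x
  map_zero' := by
    ext x
    exact K.map_zero_apply x
  map_add' f g := by
    ext x
    exact K.map_add_apply _ _ x

private theorem janAct_eq {X : C} {f : X ⟶ X} (hf : f ∈ K.deg X X 0) :
    janAct K X ⟨f, hf⟩ = 0 ↔ K.H.map f = 0 := by
  constructor
  · intro h
    exact ModuleCat.hom_ext h
  · intro h
    exact congrArg ModuleCat.Hom.hom h

/-- the pairings with the `g i` -/
private noncomputable def janPair (I : Intersection K) (X : C) {n : ℕ} (g : Fin n → (X ⟶ X)) :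
    janA K X →ₗ[ℚ] (Fin n → ℚ) where
  toFun f := fun i => I.tr ((show X ⟶ X from (f : End X)) ≫ g i)
  map_add' f f' := by
    funext i
    change I.tr ((_ + _) ≫ g i) = _
    rw [Preadditive.add_comp, map_add]
    rfl
  map_smul' q f := by
    funext i
    change I.tr ((q • _) ≫ g i) = _
    rw [Linear.smul_comp, map_smul]
    rfl

private theorem janFinite (I : Intersection K) (hD : I.HomNum) (X : C) :
    Module.Finite ℚ (janA K X ⧸ RingHom.ker (janAct K X)) := by
  obtain ⟨n, g, hg, h1⟩ := I.finite X X 0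
  obtain ⟨φ, hφ⟩ : ∃ φ : janA K X →ₗ[ℚ] (Fin n → ℚ), φ = janPair I X g := ⟨_, rfl⟩
  have h2 : ∀ f : janA K X, f ∈ RingHom.ker (janAct K X) ↔ φ f = 0 := by
    rintro ⟨f, hf⟩
    have hf' : f ∈ K.deg X X 0 := hf
    rw [RingHom.mem_ker, hφ]
    constructor
    · intro h
      have h3 : K.H.map f = 0 := (janAct_eq hf').1 h
      funext i
      have := K.additive
      refine janTr I hf' (hg i) 1 ?_
      rw [janPowOne, Functor.map_comp, h3, Limits.zero_comp]
    · intro h
      refine (janAct_eq hf').2 (hD X X 0 f hf' (h1 f hf' fun i => ?_))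
      exact congrFun h i
  have h3 : (RingHom.ker (janAct K X)).restrictScalars ℚ ≤ LinearMap.ker φ := by
    intro f hf
    exact (h2 f).1 hf
  let ψ : (janA K X ⧸ (RingHom.ker (janAct K X)).restrictScalars ℚ) →ₗ[ℚ] (Fin n → ℚ) :=
    Submodule.liftQ _ φ h3
  have h4 : Function.Injective ψ := by
    rw [← LinearMap.ker_eq_bot, Submodule.ker_liftQ_eq_bot]
    intro f hf
    exact (h2 f).2 hf
  have h5 : Module.Finite ℚ (janA K X ⧸ (RingHom.ker (janAct K X)).restrictScalars ℚ) :=
    Module.Finite.of_injective ψ h4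
  exact Module.Finite.equiv (Submodule.Quotient.restrictScalarsEquiv ℚ
    (RingHom.ker (janAct K X)))

private theorem janPow {X : C} (f : janA K X) (n : ℕ) :
    ((f ^ n : janA K X) : End X) = pow (show X ⟶ X from (f : End X)) n := by
  rw [pow_eq]
  exact SubmonoidClass.coe_pow f n

private theorem janSemisimple (I : Intersection K) (hD : I.HomNum) (X : C) :
    IsSemisimpleRing (janA K X ⧸ RingHom.ker (janAct K X)) := by
  have h0 := janFinite I hD X
  have h1 : IsArtinianRing (janA K X ⧸ RingHom.ker (janAct K X)) :=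
    IsArtinianRing.of_finite ℚ _
  rw [IsArtinianRing.isSemisimpleRing_iff_jacobson, eq_bot_iff]
  intro r hr
  obtain ⟨N, hN⟩ := IsSemiprimaryRing.isNilpotent
    (R := janA K X ⧸ RingHom.ker (janAct K X))
  obtain ⟨⟨f, hf⟩, rfl⟩ := Ideal.Quotient.mk_surjective r
  have hf' : f ∈ K.deg X X 0 := hf
  rw [Submodule.mem_bot, Ideal.Quotient.eq_zero_iff_mem, RingHom.mem_ker]
  refine (janAct_eq hf').2 (hD X X 0 f hf' fun h hh => ?_)
  refine janTr I hf' hh N ?_
  have hh' : h ∈ K.deg X X 0 := by rwa [neg_zero] at hh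
  obtain ⟨h'', hh''⟩ : ∃ h'' : janA K X, (h'' : End X) = h := ⟨⟨h, hh'⟩, rfl⟩
  have h2 : Ideal.Quotient.mk (RingHom.ker (janAct K X)) (h'' * ⟨f, hf⟩) ∈
      Ring.jacobson (janA K X ⧸ RingHom.ker (janAct K X)) := by
    rw [map_mul]
    exact Ideal.mul_mem_left _ _ hr
  have h3 := Ideal.pow_mem_pow h2 N
  rw [hN, ← map_pow] at h3
  have h4 := RingHom.mem_ker.1 (Ideal.Quotient.eq_zero_iff_mem.1 ((Submodule.mem_bot _).1 h3))
  have h5 : K.H.map (show X ⟶ X from (((h'' * ⟨f, hf⟩) ^ N : janA K X) : End X)) = 0 :=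
    (janAct_eq _).1 h4
  rw [janPow] at h5
  have h6 : (show X ⟶ X from ((h'' * ⟨f, hf⟩ : janA K X) : End X)) = f ≫ h := by
    change f ≫ (h'' : End X) = f ≫ h
    rw [hh'']
  rw [h6] at h5
  exact h5

/-- **Jannsen's theorem** -/
theorem semisimple_of_homNum (I : Intersection K) (hD : I.HomNum) : Semisimple K := by
  intro X Y d f hf
  have := K.additive
  have hss := janSemisimple I hD X
  have hmem : ∀ g ∈ K.deg Y X (-d), f ≫ g ∈ K.deg X X 0 := fun g hg =>
    K.comp_mem' hf hg (add_neg_cancel d)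
  obtain ⟨L, hL⟩ : ∃ L : Ideal (janA K X ⧸ RingHom.ker (janAct K X)), ∀ b, b ∈ L ↔
      ∃ g, ∃ hg : g ∈ K.deg Y X (-d),
        Ideal.Quotient.mk (RingHom.ker (janAct K X)) ⟨f ≫ g, hmem g hg⟩ = b := by
    refine ⟨{ carrier := {b | ∃ g, ∃ hg : g ∈ K.deg Y X (-d),
                Ideal.Quotient.mk (RingHom.ker (janAct K X)) ⟨f ≫ g, hmem g hg⟩ = b}
              add_mem' := ?_
              zero_mem' := ?_
              smul_mem' := ?_ }, fun b => Iff.rfl⟩
    · rintro _ _ ⟨g, hg, rfl⟩ ⟨g', hg', rfl⟩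
      refine ⟨g + g', Submodule.add_mem _ hg hg', ?_⟩
      rw [← map_add]
      congr 1
      apply Subtype.ext
      change f ≫ (g + g') = f ≫ g + f ≫ g'
      rw [Preadditive.comp_add]
    · refine ⟨0, Submodule.zero_mem _, ?_⟩
      rw [← map_zero (Ideal.Quotient.mk (RingHom.ker (janAct K X)))]
      congr 1
      apply Subtype.ext
      change f ≫ (0 : Y ⟶ X) = 0
      rw [Limits.comp_zero]
    · rintro c _ ⟨g, hg, rfl⟩
      obtain ⟨⟨h, hh⟩, rfl⟩ := Ideal.Quotient.mk_surjective c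
      have hh' : h ∈ K.deg X X 0 := hh
      refine ⟨g ≫ h, K.comp_mem' hg hh' (add_zero _), ?_⟩
      rw [smul_eq_mul, ← map_mul]
      congr 1
      apply Subtype.ext
      change f ≫ (g ≫ h) = (f ≫ g) ≫ h
      rw [Category.assoc]
  obtain ⟨e, he, hLe⟩ := IsSemisimpleRing.ideal_eq_span_idempotent L
  have heL : e ∈ L := by
    rw [hLe]
    exact Ideal.mem_span_singleton_self e
  obtain ⟨g₀, hg₀, hge⟩ := (hL e).1 heL
  refine ⟨g₀, hg₀, ?_⟩
  have hk : ∀ g ∈ K.deg Y X (-d), K.H.map ((f - f ≫ g₀ ≫ f) ≫ g) = 0 := by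
    intro g hg
    have h1 : Ideal.Quotient.mk (RingHom.ker (janAct K X)) ⟨f ≫ g, hmem g hg⟩ ∈ L :=
      (hL _).2 ⟨g, hg, rfl⟩
    rw [hLe, Ideal.mem_span_singleton'] at h1
    obtain ⟨a, ha⟩ := h1
    have h2 : Ideal.Quotient.mk (RingHom.ker (janAct K X)) ⟨f ≫ g, hmem g hg⟩ * e =
        Ideal.Quotient.mk (RingHom.ker (janAct K X)) ⟨f ≫ g, hmem g hg⟩ := by
      rw [← ha, mul_assoc, he.eq]
    rw [← hge, ← map_mul, ← sub_eq_zero, ← map_sub, Ideal.Quotient.eq_zero_iff_mem,
      RingHom.mem_ker] at h2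
    have h3 : K.H.map ((f ≫ g₀) ≫ (f ≫ g) - f ≫ g) = 0 :=
      (janAct_eq (Submodule.sub_mem _ (K.comp_mem' (hmem g₀ hg₀) (hmem g hg) (add_zero 0))
        (hmem g hg))).1 h2
    have h4 : (f - f ≫ g₀ ≫ f) ≫ g = -((f ≫ g₀) ≫ (f ≫ g) - f ≫ g) := by
      rw [Preadditive.sub_comp, neg_sub, Category.assoc, Category.assoc, Category.assoc]
    rw [h4, Functor.map_neg, h3, neg_zero]
  have h5 : f ≫ g₀ ≫ f ∈ K.deg X Y d :=
    K.comp_mem' hf (K.comp_mem hg₀ hf) (by ring)
  have h6 : K.H.map (f - f ≫ g₀ ≫ f) = 0 := by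
    refine hD X Y d _ (Submodule.sub_mem _ hf h5) fun g hg => ?_
    refine janTr I (Submodule.sub_mem _ hf h5) hg 1 ?_
    rw [janPowOne]
    exact hk g hg
  rw [Functor.map_sub, sub_eq_zero] at h6
  exact h6.symm

end Pool.Agent.SprM
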