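import Pool.Agent.SprM.All

/-!
# Spreading out: the Kuenneth projectors over the extension field
-/

set_option autoImplicit false

open CategoryTheory MonoidalCategory
open Pool.Agent.LefCK Pool.Agent.LckM

universe w v u

namespace Pool.Agent.SprM

variable {F : Type w} [Field F] {S S' : Theory.{w, v, u} F} {s : ℕ} {X : S'.C}

/-- **The Kuenneth projectors of `X` over `K` from those of a closed fibre** -/
theorem kuenneth_of_fibre (hss : Semisimple S.K) (B : Fibre S.T S'.T s X) (e : CK S.K B.X₀) :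
    Kuenneth S'.K X := by
  have := S.K.additive
  refine kuenneth_iff.2 ⟨?_, fun i => ?_⟩
  · obtain ⟨t, ht, -⟩ := e.exists_finset
    refine ⟨t, fun j hj x hx => ?_⟩
    have h1 := B.sp_gr j x hx
    have h2 : B.sp x = 0 := by
      rw [← e.homology_self h1, ht j hj, S.K.map_zero_apply]
    exact B.sp_inj (h2.trans B.sp_zero.symm)
  · have hκ : ∀ j : ℤ, ∀ x ∈ S.K.gr B.X₀ j, (S.K.H.map (e.p i)).hom x =
        (if j = i then (1 : F) else 0) • x := by
      intro j x hx
      rw [e.homology i j x hx]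
      split_ifs
      · rw [one_smul]
      · rw [zero_smul]
    have hinv := B.invariant (e.p i) (e.mem i) (fun j => if j = i then (1 : F) else 0) hκ
    obtain ⟨g, hg, hfgf⟩ := hss _ _ _ B.fib B.fib_mem
    have hgr : S.T.graph (e.p i) ∈ S.K.deg (𝟙_ S.C) (B.X₀ ⊗ B.X₀) (-(S.D.dim B.X₀ - 0)) :=
      S.T.graph_mem (e.mem i)
    have hZ : S.T.graph (e.p i) ≫ g ∈ CH S.K B.M.Y (S.D.dim B.X₀ + s) :=
      S.K.comp_mem' hgr hg (by ring)
    have hH : S.K.H.map ((S.T.graph (e.p i) ≫ g) ≫ B.fib) = S.K.H.map (S.T.graph (e.p i)) := by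
      ext v
      obtain ⟨w, hw⟩ := hinv v
      rw [Category.assoc, S.K.map_comp_apply, ← hw, ← S.K.map_comp_apply, hfgf]
    obtain ⟨π, hπ, -, h1⟩ := B.cor _ hZ (e.p i) (e.mem i) hH
    refine ⟨π, hπ, fun j x hx => ?_⟩
    apply B.sp_inj
    rw [h1, e.homology i j _ (B.sp_gr j x hx)]
    split_ifs
    · rfl
    · rw [B.sp_zero]

end Pool.Agent.SprM
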