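import Pool.Agent.SprM.All

/-!
# Spreading out: the low steps of the filtration

Rational and homological equivalence agree if and only if `F^1 = 0`, and the injectivity of the
Abel-Jacobi maps corresponds to `F^2 = 0`.
-/

set_option autoImplicit false

open CategoryTheory MonoidalCategory
open Pool.Agent.LefCK Pool.Agent.LckM

universe w v u

namespace Pool.Agent.SprM

variable {F : Type w} [Field F] {S : Theory.{w, v, u} F}

/-- a cycle with `x p_{2l} = 0` is homologically trivial -/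
private theorem low_hom {X : S.C} (e : CK S.K X) {l : ℤ} {x : 𝟙_ S.C ⟶ X} (hx : x ∈ CH S.K X l)
    (h0 : x ≫ e.p (2 * l) = 0) : S.K.H.map x = 0 := by
  have := S.K.additive
  ext v
  change (S.K.H.map x).hom v = 0
  have h1 := e.homology_self (cyc_gr hx v)
  rw [← h1, ← S.K.map_comp_apply, h0, S.K.map_zero_apply]

theorem weight_of_zero
    (h : ∀ (X : S.C) (l : ℤ), ∀ z ∈ CH S.K X l, S.K.H.map z = 0 → z = 0) (w : ℤ) :
    WeightZero S.K w := by
  intro X e l z hz hz0
  rw [h X l z hz hz0, Limits.zero_comp]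

theorem nilHom_of_zero
    (h : ∀ (X : S.C) (l : ℤ), ∀ z ∈ CH S.K X l, S.K.H.map z = 0 → z = 0) (X : S.C) :
    NilHom S.K X := by
  intro θ hθ h0
  refine ⟨1, ?_⟩
  have h1 : θ = 0 := S.T.graph_inj θ (h _ _ _ (S.T.graph_mem hθ) (S.T.graph_hom θ h0))
  change 𝟙 X ≫ θ = 0
  rw [h1, Limits.comp_zero]

theorem zero_of_filZero_one
    (hM : ∀ X : S.C, Nonempty (CK S.K X) ∧ ∀ (e : CK S.K X) (l : ℤ), e.MurreB l ∧ e.MurreD l)
    (h1 : ∀ X : S.C, FilZero S.K X 1) (X : S.C) (l : ℤ) :
    ∀ z ∈ CH S.K X l, S.K.H.map z = 0 → z = 0 := by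
  intro z hz hz0
  obtain ⟨⟨e⟩, hBD⟩ := hM X
  refine h1 X e l z hz fun i hi => ?_
  rcases lt_or_eq_of_le (show i ≤ 2 * l by omega) with h2 | rfl
  · exact (hBD e l).1 z hz i h2
  · exact (hBD e l).2 z hz hz0

/-- the injectivity of the Abel-Jacobi map kills the weights different from 1 -/
theorem weight_of_abelJacobi (h : ∀ X : S.C, AbelJacobi S.K X) (w : ℤ) (hw : w ≠ 1) :
    WeightZero S.K w :=
  fun X e l z hz hz0 => h X l (e.p (2 * l + w)) (e.mem _)
    (fun _ hy => e.homology_ne (by omega) hy) z hz hz0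

theorem nilHom_of_abelJacobi (h : ∀ X : S.C, AbelJacobi S.K X) (X : S.C) : NilHom S.K X := by
  refine nilHom_of_nilOn S.T ?_
  intro θ hθ h0 z hz hz0
  refine ⟨1, ?_⟩
  change z ≫ 𝟙 _ ≫ θ = 0
  rw [Category.id_comp]
  exact h _ _ θ hθ (fun y hy => h0 _ (by simp) y hy) z hz hz0

theorem abelJacobi_of_filZero_two {X : S.C} {e : CK S.K X} (W : Weights e)
    (hB : ∀ l, e.MurreB l) (hD : ∀ l, e.MurreD l) (h2 : FilZero S.K X 2) : AbelJacobi S.K X := by
  have := S.K.additive
  intro l θ hθ h0 z hz hz0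
  refine h2 e l (z ≫ θ) (comp_mem0 hz hθ) fun i hi => ?_
  rw [Category.assoc]
  refine e.comp_eq_zero _ _ fun k => ?_
  rcases lt_trichotomy k (2 * l) with hk | rfl | hk
  · rw [← Category.assoc, hB l z hz k hk, Limits.zero_comp]
  · rw [← Category.assoc, hD l z hz hz0, Limits.zero_comp]
  · rcases lt_or_eq_of_le (show i ≤ k by omega) with h | rfl
    · rw [W.tri hθ i k (by omega), Limits.comp_zero]
    · have hi' : i = 2 * l + 1 := by omega
      have hd : e.p i ≫ θ ≫ e.p i = 0 := by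
        refine W.diag hθ i i (by ring) ?_
        ext y
        change (S.K.H.map (e.p i ≫ θ ≫ e.p i)).hom y = 0
        have h1 : (S.K.H.map θ).hom ((S.K.H.map (e.p i)).hom y) = 0 :=
          h0 _ (hi' ▸ e.map_p_mem i y)
        rw [S.K.map_comp_apply, S.K.map_comp_apply, h1, map_zero]
      rw [hd, Limits.comp_zero]

end Pool.Agent.SprM
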