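import Pool.Agent.SprM.Kue
import Pool.Agent.SprM.Jan
import Pool.Agent.SprM.Low
import Pool.Agent.SprM.Arb
import Pool.Agent.SprM.Gen

/-!
# Spreading out Murre's conjectures
-/

set_option autoImplicit false

open CategoryTheory MonoidalCategory
open Pool.Agent.LefCK Pool.Agent.LckM

universe w v u

namespace Pool.Agent.SprM

variable {F : Type w} [Field F] {G : Spreading.{w, v, u} F}

/-- **the Kuenneth conjecture and nilpotence over all fields** -/
theorem kuenneth_nilHom (hss : Semisimple (G.th G.k₀).K)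
    (hC : ∀ X : (G.th G.k₀).C, Kuenneth (G.th G.k₀).K X)
    (hN : ∀ X : (G.th G.k₀).C, NilHom (G.th G.k₀).K X) (K : G.Fld) (X : (G.th K).C) :
    Kuenneth (G.th K).K X ∧ NilHom (G.th K).K X := by
  refine ⟨kuenneth_of_fg G (fun K s hK X => ?_) K X, nilHom_of_fg G (fun K s hK X => ?_) K X⟩
  · obtain ⟨B⟩ := G.fibre hK X
    obtain ⟨e⟩ := exists_ck_of_kuenneth (hC B.X₀) (hN B.X₀)
    exact kuenneth_of_fibre hss B e
  · obtain ⟨M⟩ := G.model hK (X ⊗ X)
    exact M.nilHom (hN M.Y) (split_of_semisimple hss M)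

/-- one weight over one finitely generated field -/
theorem nilOn_weight (hss : Semisimple (G.th G.k₀).K)
    (hC : ∀ X : (G.th G.k₀).C, Kuenneth (G.th G.k₀).K X)
    (hN : ∀ X : (G.th G.k₀).C, NilHom (G.th G.k₀).K X) {w : ℤ} {K : G.Fld} {s : ℕ}
    (hK : G.FG K s) (hw : w ≤ 0 ∨ (s : ℤ) < w)
    (h : ∀ w' : ℤ, w - s ≤ w' → w' ≤ w → WeightZero (G.th G.k₀).K w') (X : (G.th K).C) (l : ℤ) :
    NilOn (G.th K).K X l {2 * l + w} := by
  obtain ⟨M⟩ := G.model hK X
  obtain ⟨e⟩ := exists_ck_of_kuenneth (hC M.Y) (hN M.Y)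
  refine M.nilOn e (hN M.Y) (split_of_semisimple hss M) ?_ ?_
  · intro i hi
    rw [Set.mem_singleton_iff] at hi
    omega
  · intro i hi j hj hj' z hz hz0
    rw [Set.mem_singleton_iff] at hi
    have h1 := h (j - 2 * (l + s)) (by omega) (by omega) M.Y e (l + s) z hz hz0
    rwa [add_sub_cancel] at h1

/-- **the transfer of one weight** to the fields of transcendence degree `≤ d` -/
theorem weight_transfer (hss : Semisimple (G.th G.k₀).K)
    (hC : ∀ X : (G.th G.k₀).C, Kuenneth (G.th G.k₀).K X)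
    (hN : ∀ X : (G.th G.k₀).C, NilHom (G.th G.k₀).K X) {w : ℤ} {K : G.Fld} {d : ℕ}
    (hd : G.TrDeg K d) (hw : w ≤ 0 ∨ (d : ℤ) < w)
    (h : ∀ w' : ℤ, w - d ≤ w' → w' ≤ w → WeightZero (G.th G.k₀).K w') :
    WeightZero (G.th K).K w := by
  intro X e l z hz hz0
  refine NilOn.comp_eq_zero (nilOn_of_fg G K l _ (fun K₁ s hK hs X₁ => ?_) X) e hz hz0
  have h1 := hs d hd
  exact nilOn_weight hss hC hN hK (by omega) (fun w' h2 h3 => h w' (by omega) h3) X₁ l

/-- the transfer of the weights `≤ w ≤ 0` to all fields -/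
theorem weight_transfer_all (hss : Semisimple (G.th G.k₀).K)
    (hC : ∀ X : (G.th G.k₀).C, Kuenneth (G.th G.k₀).K X)
    (hN : ∀ X : (G.th G.k₀).C, NilHom (G.th G.k₀).K X) {w : ℤ} (hw : w ≤ 0)
    (h : ∀ w' : ℤ, w' ≤ w → WeightZero (G.th G.k₀).K w') (K : G.Fld) :
    WeightZero (G.th K).K w := by
  intro X e l z hz hz0
  refine NilOn.comp_eq_zero (nilOn_of_fg G K l _ (fun K₁ s hK _ X₁ => ?_) X) e hz hz0
  exact nilOn_weight hss hC hN hK (Or.inl hw) (fun w' _ h3 => h w' h3) X₁ l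

/-- **Murre's conjectures over `k₀` imply Murre's conjectures over all fields** -/
theorem all_of_base (hss : Semisimple (G.th G.k₀).K) (h : G.MurreOver G.k₀) (K : G.Fld) :
    G.MurreAllOver K := by
  have hC := fun X => (of_murre (G.th G.k₀).T h X).2.1
  have hN := fun X => nilHom_of_murre (G.th G.k₀).T h X
  intro M
  exact murreAll_of_weight (G.th K).T (fun X => (kuenneth_nilHom hss hC hN K X).1)
    (fun X => (kuenneth_nilHom hss hC hN K X).2)
    (fun w hw => weight_transfer_all hss hC hN hw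
      (fun w' hw' => weight_of_allMurre h w' (by omega)) K) M

theorem base_tfae (hss : Semisimple (G.th G.k₀).K) :
    List.TFAE [G.MurreOver G.k₀, ∀ K : G.Fld, G.MurreAllOver K,
      ∀ X : (G.th G.k₀).C, Kuenneth (G.th G.k₀).K X ∧
        ∀ l : ℤ, NilOn (G.th G.k₀).K X l (Set.Iic (2 * l))] := by
  tfae_have 1 → 2 := fun h K => all_of_base hss h K
  tfae_have 2 → 3 := fun h X => (of_murre (G.th G.k₀).T (fun M => murre_of_all (h G.k₀ M)) X).2
  tfae_have 3 → 1 := fun h M => murre_of_all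
    (murreAll_of_weight (G.th G.k₀).T (fun X => (h X).1)
      (fun X => nilHom_of_nilOn (G.th G.k₀).T (((h _).2 _).mono (Set.empty_subset _)))
      (fun w hw => weight_of_locNil (fun X => (h X).2) w hw) M)
  tfae_finish

/-- **the length of the filtration** -/
theorem bounded_iff (hss : Semisimple (G.th G.k₀).K) {ν : ℕ} (hν : 0 < ν) :
    (G.MurreOver G.k₀ ∧ ∀ X : (G.th G.k₀).C, FilZero (G.th G.k₀).K X ν) ↔
      G.Bounded G.MurreAllOver ν := by
  constructor
  · rintro ⟨h, h2⟩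
    have hC := fun X => (of_murre (G.th G.k₀).T h X).2.1
    have hN := fun X => nilHom_of_murre (G.th G.k₀).T h X
    refine ⟨all_of_base hss h, fun K d hd X => filZero_of_weight (by omega) (fun w hw => ?_) X⟩
    exact weight_transfer hss hC hN hd (by omega)
      fun w' h3 h4 => weight_of_filZero h2 w' (by omega)
  · intro h
    refine ⟨fun M => murre_of_all (h.1 G.k₀ M), fun X => ?_⟩
    have h1 := h.2 G.k₀ 0 G.trDeg_base X
    simpa using h1

/-- the facts over `k₀` which follow from `Bounded` -/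
theorem Spreading.Bounded.base {ν : ℕ} (h : G.Bounded G.MurreAllOver ν) (X : (G.th G.k₀).C) :
    (∃ e : CK (G.th G.k₀).K X, Weights e ∧ ∀ l, e.MurreB l ∧ e.MurreD l) ∧
      Kuenneth (G.th G.k₀).K X ∧ (∀ (e : CK (G.th G.k₀).K X) (l : ℤ), e.MurreB l ∧ e.MurreD l) ∧
      FilZero (G.th G.k₀).K X ν := by
  have hM : G.MurreOver G.k₀ := fun M => murre_of_all (h.1 G.k₀ M)
  have h1 := of_murre (G.th G.k₀).T hM X
  have h2 := h.2 G.k₀ 0 G.trDeg_base X
  exact ⟨h1.1, h1.2.1, fun e l => murre_of_weight (weight_of_allMurre hM) e l,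
    by simpa using h2⟩

/-- **rational and numerical equivalence** -/
theorem ratNum_iff : ((∀ X : (G.th G.k₀).C, Kuenneth (G.th G.k₀).K X) ∧ (G.int G.k₀).RatNum) ↔
    ((G.int G.k₀).HomNum ∧ G.Bounded G.MurreAllOver 1) := by
  constructor
  · rintro ⟨hK, hR⟩
    have hD := RatNum.homNum (G.int G.k₀) hR
    have hss := semisimple_of_homNum (G.int G.k₀) hD
    have h0 : ∀ (X : (G.th G.k₀).C) (l : ℤ), ∀ z ∈ CH (G.th G.k₀).K X l,
        (G.th G.k₀).K.H.map z = 0 → z = 0 := fun X l z hz hz0 => RatNum.hom_zero (G.int G.k₀) hR hz hz0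
    have hM : G.MurreOver G.k₀ := fun M => murre_of_all
      (murreAll_of_weight (G.th G.k₀).T hK (nilHom_of_zero h0)
        (fun w _ => weight_of_zero h0 w) M)
    exact ⟨hD, (bounded_iff hss one_pos).1 ⟨hM, fun X =>
      filZero_of_weight (by norm_num) (fun w _ => weight_of_zero h0 w) X⟩⟩
  · rintro ⟨hD, hB⟩
    refine ⟨fun X => (hB.base X).2.1, fun X Y d f hf hf0 => ?_⟩
    apply (G.th G.k₀).T.graph_inj
    refine zero_of_filZero_one (fun X => ?_) (fun X => ?_) _ _ _ ((G.th G.k₀).T.graph_mem hf)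
      ((G.th G.k₀).T.graph_hom f (hD X Y d f hf hf0))
    · obtain ⟨⟨e, -⟩, -, h2, -⟩ := hB.base X
      exact ⟨⟨e⟩, h2⟩
    · simpa using (hB.base X).2.2.2

/-- **injectivity of the Abel-Jacobi map** -/
theorem abelJacobi_iff (hss : Semisimple (G.th G.k₀).K) :
    (∀ X : (G.th G.k₀).C, Kuenneth (G.th G.k₀).K X ∧ AbelJacobi (G.th G.k₀).K X) ↔
      G.Bounded G.MurreAllOver 2 := by
  constructor
  · intro h
    have hM : G.MurreOver G.k₀ := fun M => murre_of_all
      (murreAll_of_weight (G.th G.k₀).T (fun X => (h X).1)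
        (nilHom_of_abelJacobi fun X => (h X).2)
        (fun w hw => weight_of_abelJacobi (fun X => (h X).2) w (by omega)) M)
    exact (bounded_iff hss two_pos).1 ⟨hM, fun X => filZero_of_weight (by norm_num)
      (fun w hw => weight_of_abelJacobi (fun X => (h X).2) w (by push_cast at hw; omega)) X⟩
  · intro hB X
    obtain ⟨⟨e, W, hBD⟩, hK, -, h2⟩ := hB.base X
    exact ⟨hK, abelJacobi_of_filZero_two W (fun l => (hBD l).1) (fun l => (hBD l).2)
      (by simpa using h2)⟩

end Pool.Agent.SprM
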