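import Pool.Agent.SprM.Defs

/-!
# The classical facts behind the standard conjectures

Definitions for the last part of the result `MP_38de51_ag.Spreading`.
-/

set_option autoImplicit false

open CategoryTheory MonoidalCategory TensorProduct
open Pool.Agent.LefCK Pool.Agent.LckM

universe w v u

namespace Pool.Agent.SprM

section linear

variable {F V W : Type w} [Field F] [AddCommGroup V] [Module F V] [AddCommGroup W] [Module F W]

/-- `ε` is the parity operator of the graded space `V`: `(-1)^j` on the piece of degree `j`. -/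
def Parity (gr : ℤ → Submodule F V) (ε : V →ₗ[F] V) : Prop :=
  ∀ j : ℤ, ∀ x ∈ gr j, ε x = (-1 : F) ^ j.natAbs • x

/-- `tr (f g)` -/
noncomputable def tr₂ (f g : V →ₗ[F] V) : F := LinearMap.trace F V (f ∘ₗ g)

/-- The supertrace of `f` is rational. -/
def RatTrace (gr : ℤ → Submodule F V) (f : V →ₗ[F] V) : Prop :=
  ∀ ε, Parity gr ε → ∃ q : ℚ, tr₂ f ε = q

/-- `h` is the operator `f ⊗ g` on `W = V ⊗ V`. -/
def IsProd (e : V ⊗[F] V ≃ₗ[F] W) (f g : V →ₗ[F] V) (h : W →ₗ[F] W) : Prop :=
  ∀ x y : V, h (e (x ⊗ₜ[F] y)) = e (f x ⊗ₜ[F] g y)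

/-- `θ` and `θ'` are the partial supertraces of `γ` with respect to the second and the first factor
of `W = V ⊗ V`: `tr (θ v) = tr (γ (v ⊗ ε))` and `tr (θ' v) = tr (γ (ε ⊗ v))` for all `v`. -/
def Partial (gr : ℤ → Submodule F V) (e : V ⊗[F] V ≃ₗ[F] W) (γ : W →ₗ[F] W)
    (θ θ' : V →ₗ[F] V) : Prop :=
  ∀ ε, Parity gr ε → ∀ v h, (IsProd e v ε h → tr₂ θ v = tr₂ γ h) ∧
    (IsProd e ε v h → tr₂ θ' v = tr₂ γ h)

end linear

section one

variable {C : Type u} [Category.{v} C] [Preadditive C] [Linear ℚ C]
  [MonoidalCategory C] {F : Type w} [Field F]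

/-- `L^s : H_(n+s)(X) → H_(n-s)(X)` is bijective for all `s`, where `n = dim X` (hard Lefschetz). -/
def Hard (K : Correspondences C F) (n : ℤ) {X : C} (L : X ⟶ X) : Prop :=
  ∀ s : ℕ, Set.BijOn (act K (pow L s)) (homol K X (n + s)) (homol K X (n - s))

/-- The standard conjecture B (of Lefschetz type): for all `s` some algebraic correspondence induces
the inverse of `L^s : H_(n+s)(X) → H_(n-s)(X)`. -/
def Lef (K : Correspondences C F) (n : ℤ) {X : C} (L : X ⟶ X) : Prop :=
  ∀ s : ℕ, ∃ Λ : X ⟶ X, Deg K (-s) Λ ∧ Mult K (n + s) (pow L s ≫ Λ) 1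

/-- `L ⊗ 1 + 1 ⊗ L` -/
def square {X : C} (L : X ⟶ X) : X ⊗ X ⟶ X ⊗ X := (L ⊗ₘ 𝟙 X) + (𝟙 X ⊗ₘ L)

/-- Classical facts on the varieties over a field (all varieties are equidimensional). -/
structure Classical (K : Correspondences C F) (D : Divisors K) where
  finite : ∀ X : C, FiniteDimensional F (K.H.obj X)
  range : ∀ (X : C) (j : ℤ), j < 0 ∨ 2 * D.dim X < j → Null K X j
  /-- the geometrically connected varieties -/
  Conn : C → Prop
  dim_nonneg : ∀ X : C, Conn X → 0 ≤ D.dim X
  dim_sq : ∀ X : C, D.dim (X ⊗ X) = 2 * D.dim X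
  /-- `L` is the intersection with an ample divisor class -/
  Ample : ∀ {X : C}, (X ⟶ X) → Prop
  exists_ample : ∀ X : C, ∃ L : X ⟶ X, Ample L
  ample_deg : ∀ {X : C} {L : X ⟶ X}, Ample L → Deg K 1 L
  hard : ∀ {X : C} {L : X ⟶ X}, Ample L → Hard K (D.dim X) L
  /-- the product polarisation -/
  ample_sq : ∀ {X : C} {L : X ⟶ X}, Ample L → Ample (square L)
  /-- the Lefschetz trace formula: the supertrace of a correspondence of degree 0 is an
  intersection number -/
  trace : ∀ (X : C) (θ : X ⟶ X), Deg K 0 θ → RatTrace (K.gr X) (K.H.map θ).hom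
  /-- the contraction of a correspondence on `X × X` along the diagonal of a factor `X` is algebraic,
  and acts on the homology as the partial supertrace -/
  contract : ∀ (X : C) (r : ℤ) (γ : X ⊗ X ⟶ X ⊗ X), Deg K r γ →
    ∃ θ θ' : X ⟶ X, Deg K r θ ∧ Deg K r θ' ∧
      Partial (K.gr X) (K.kunneth X X) (K.H.map γ).hom (K.H.map θ).hom (K.H.map θ').hom

/-- `X` is geometrically connected, `L` is an ample divisor class on `X`. -/
def Polarised {K : Correspondences C F} {D : Divisors K} (Q : Classical K D) {X : C} (L : X ⟶ X) :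
    Prop := Q.Conn X ∧ Q.Ample L

/-- The standard conjecture B for the geometrically connected varieties. -/
def LefAll {K : Correspondences C F} {D : Divisors K} (Q : Classical K D) : Prop :=
  ∀ (X : C) (L : X ⟶ X), Polarised Q L → Lef K (D.dim X) L

end one

section two

variable {C : Type u} [Category.{v} C] [Preadditive C] [Linear ℚ C] [MonoidalCategory C]
  {C' : Type u} [Category.{v} C'] [Preadditive C'] [Linear ℚ C'] [MonoidalCategory C']
  {F : Type w} [Field F]

/-- `K`: the varieties over a field `k`, `Z` a geometrically connected variety over `k` of dimension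
`d + 1 ≥ 2` with the ample class `L`, `S` the generic member of the linear system `P = |mL|`, `m`
large; `K'`: the varieties over the function field `k(P)`. -/
structure Section (K : Correspondences C F) {K' : Correspondences C' F} (D' : Divisors K') {Z : C}
    (L : Z ⟶ Z) (d : ℤ) where
  B : BaseChange K K'
  S : C'
  dim : D'.dim S = d
  /-- the push-forward `h(S) → h(Z)` -/
  push : S ⟶ B.Φ.obj Z
  /-- the pull-back `h(Z) → h(S)(1)` -/
  pull : B.Φ.obj Z ⟶ S
  push_mem : Deg K' 0 push
  pull_mem : Deg K' 1 pull
  m : ℕ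
  pos : 0 < m
  cls : pull ≫ push = sm m (B.Φ.map L)
  /-- weak Lefschetz above the middle dimension -/
  surj : ∀ j : ℤ, d < j → Set.SurjOn (act K' pull) Set.univ (homol K' S j)
  /-- weak Lefschetz below the middle dimension -/
  inj : ∀ j : ℤ, j < d → Set.InjOn (act K' push) (homol K' S j)
  /-- there are vanishing cycles -/
  vanishing : ¬ Set.InjOn (act K' push) (homol K' S d)
  /-- Let `𝒮 → P` be the universal divisor, so that the cycles on `S × S` are the restrictions of the
  cycles on `𝒮 ×_P 𝒮`. Outside of the diagonals `𝒮 ×_P 𝒮` is a projective bundle over `Z × Z`, whose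
  tautological class comes from `P`; hence the cycles on the complement of the diagonal in
  `S × S` come from `Z × Z`. The kernel of the restriction of `CH_d(S × S)` to this complement is
  generated by the diagonal. -/
  self : ∀ f : S ⟶ S, Deg K' 0 f → ∃ (c : ℚ) (γ : Z ⟶ Z), Deg K (-1) γ ∧
    f = sm c (𝟙 S) + push ≫ B.Φ.map γ ≫ pull

/-- If `dim X > 0`, then `Z = X × X` with the product polarisation has such a section. -/
def HasSection {K : Correspondences C F} (D : Divisors K) {K' : Correspondences C' F}
    (D' : Divisors K') {X : C} (L : X ⟶ X) : Prop :=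
  0 < D.dim X → Nonempty (Section K D' (square L) (2 * D.dim X - 1))

end two

/-- The classical facts, and the generic hyperplane sections of the squares of the geometrically
connected varieties, over all fields `K`; the coefficients of the homology have characteristic 0. -/
structure Spreading.Sections {F : Type w} [Field F] (G : Spreading.{w, v, u} F) where
  charZero : CharZero F
  facts : ∀ K : G.Fld, Classical (G.th K).K (G.th K).D
  generic : ∀ (K : G.Fld) X L, Polarised (facts K) (X := X) L →
    ∃ K' : G.Fld, HasSection (G.th K).D (G.th K').D L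

/-- If B holds over all fields, then D holds over all fields. In characteristic 0 this is a theorem of
Kleiman, by the Hodge index theorem. -/
def Kleiman {F : Type w} [Field F] {G : Spreading.{w, v, u} F} (Q : G.Sections) : Prop :=
  (∀ K : G.Fld, LefAll (Q.facts K)) → ∀ K : G.Fld, G.HomNum K

end Pool.Agent.SprM
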