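import Pool.Agent.SprM.Zero
import Pool.Agent.SprM.Compat
import Pool.Agent.LefCK.Basic
import Pool.Agent.Helper94.CPB.Final

/-!
# A variety as seen by its homology, in the sense of the criterion for the conjecture B
-/

set_option autoImplicit false

open CategoryTheory MonoidalCategory TensorProduct
open Pool.Agent.LefCK Pool.Agent.LckM
open Pool.Agent.Helper29.CPB (IsGrading IsCorr HardLefschetz Variety SelfProduct IsKunneth
  IsCorrProduct GenericSection SectionMaps WeakLefschetz Incidence IsTensor IsTensorMap)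

universe w v u

namespace Pool.Agent.SprM

section one

variable {C : Type u} [Category.{v} C] [Preadditive C] [Linear ℚ C]
  [MonoidalCategory C] {F : Type w} [Field F] {K : Correspondences C F}

/-- the operators on the homology -/
abbrev Op (K : Correspondences C F) (X : C) := Module.End F (K.H.obj X)

/-- the projector onto `H_j(X)` -/
noncomputable def prj (K : Correspondences C F) (X : C) (j : ℤ) : Op K X :=
  (K.gr X j).subtype ∘ₗ DirectSum.component F ℤ _ j ∘ₗ
    (LinearEquiv.ofBijective (DirectSum.coeLinearMap (K.gr X)) (K.isInternal X)).symm.toLinearMap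

theorem prj_mem {X : C} (j : ℤ) (x : K.H.obj X) : prj K X j x ∈ K.gr X j := by
  unfold prj
  exact Submodule.coe_mem _

theorem prj_same {X : C} {j : ℤ} {x : K.H.obj X} (hx : x ∈ K.gr X j) : prj K X j x = x := by
  have h := (K.isInternal X).ofBijective_coeLinearMap_of_mem hx
  exact congrArg (fun y : K.gr X j => (y : K.H.obj X)) h

theorem prj_ne {X : C} {i j : ℤ} (h : i ≠ j) {x : K.H.obj X} (hx : x ∈ K.gr X i) :
    prj K X j x = 0 := by
  have e := (K.isInternal X).ofBijective_coeLinearMap_of_mem_ne h hx
  exact congrArg (fun y : K.gr X j => (y : K.H.obj X)) e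

theorem op_ext {X : C} {V : Type*} [AddCommGroup V] [Module F V] {f g : K.H.obj X →ₗ[F] V}
    (h : ∀ (j : ℤ) (x : K.H.obj X), x ∈ K.gr X j → f x = g x) : f = g := by
  ext x
  induction x using K.gr_induction with
  | zero => rw [map_zero, map_zero]
  | mem i x hx => exact h i x hx
  | add x y hx hy => rw [map_add, map_add, hx, hy]

theorem prj_eq {X : C} {j : ℤ} {x : K.H.obj X} : prj K X j x = x ↔ x ∈ K.gr X j :=
  ⟨fun h => h ▸ prj_mem j x, prj_same⟩

theorem map_sm_apply [CharZero F] {X Y : C} (q : ℚ) (f : X ⟶ Y) (x : K.H.obj X) :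
    (K.H.map (sm q f)).hom x = (q : F) • (K.H.map f).hom x := by
  have hA := K.additive
  have hd : (q.den : F) ≠ 0 := Nat.cast_ne_zero.2 q.den_nz
  have h1 : q.den • sm q f = q.num • f := by
    have e : (q.den : ℚ) • (q • f) = (q.num : ℚ) • f := by
      rw [smul_smul, mul_comm, Rat.mul_den_eq_num]
    rwa [Nat.cast_smul_eq_nsmul, Int.cast_smul_eq_zsmul] at e
  have h2 : q.den • (K.H.map (sm q f)).hom x = q.num • (K.H.map f).hom x := by
    have e := congrArg (fun g => (K.H.map g).hom x) h1
    simp only [Functor.map_nsmul, Functor.map_zsmul, ModuleCat.hom_nsmul, ModuleCat.hom_zsmul,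
      LinearMap.smul_apply] at e
    exact e
  rw [← Nat.cast_smul_eq_nsmul F, ← Int.cast_smul_eq_zsmul F] at h2
  have h3 : (q : F) = (q.den : F)⁻¹ * (q.num : F) := by
    rw [Rat.cast_def, div_eq_mul_inv, mul_comm]
  rw [h3, mul_smul, ← h2, smul_smul, inv_mul_cancel₀ hd, one_smul]

end one

end Pool.Agent.SprM
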