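import Pool.Agent.SprM.ZeroA

/-!
# A variety as seen by its homology: construction
-/

set_option autoImplicit false

open CategoryTheory MonoidalCategory TensorProduct
open Pool.Agent.LefCK Pool.Agent.LckM
open Pool.Agent.Helper29.CPB (IsGrading IsCorr HardLefschetz Variety SelfProduct IsKunneth
  IsCorrProduct GenericSection SectionMaps WeakLefschetz Incidence IsTensor IsTensorMap parity)

universe w v u

namespace Pool.Agent.SprM

section one

variable {C : Type u} [Category.{v} C] [Preadditive C] [Linear ℚ C]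
  [MonoidalCategory C] {F : Type w} [Field F] {K : Correspondences C F}

/-- the operators given by the algebraic correspondences of degree `r` -/
def IsAlg (K : Correspondences C F) (X : C) (r : ℤ) (f : Op K X) : Prop :=
  ∃ θ : X ⟶ X, Deg K r θ ∧ (K.H.map θ).hom = f

/-- the projector onto `H^i(X) = H_(2n-i)(X)` -/
noncomputable def cpr (K : Correspondences C F) (X : C) (n : ℕ) (i : ℤ) : Op K X :=
  prj K X (2 * n - i)

theorem cpr_eq {X : C} {n : ℕ} {i : ℤ} {x : K.H.obj X} :
    cpr K X n i x = x ↔ x ∈ K.gr X (2 * n - i) := prj_eq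

theorem isGrading {X : C} {n : ℕ} (hr' : ∀ j : ℤ, j < 0 ∨ 2 * (n : ℤ) < j → Null K X j) :
    IsGrading n (cpr K X n) :=
  have hr : ∀ j : ℤ, j < 0 ∨ 2 * (n : ℤ) < j → ∀ x ∈ K.gr X j, x = 0 :=
    fun j hj => null_iff.1 (hr' j hj)
  {
    idem i := by
      ext x
      exact prj_same (prj_mem _ _)
    orth i j h := by
      ext x
      exact prj_ne (i := 2 * (n : ℤ) - j) (by omega) (prj_mem _ _)
    out i h := by
      ext x
      exact hr (2 * n - i) (by omega) _ (prj_mem _ _)
    sum := by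
      apply op_ext
      intro j x hx
      rw [LinearMap.sum_apply, Module.End.one_apply]
      by_cases hj : j < 0 ∨ 2 * (n : ℤ) < j
      · rw [hr j hj x hx]
        exact Finset.sum_eq_zero fun i _ => map_zero _
      · rw [Finset.sum_eq_single (2 * (n : ℤ) - j)]
        · exact prj_same (by rwa [show 2 * (n : ℤ) - (2 * (n : ℤ) - j) = j by ring])
        · intro i _ hi
          exact prj_ne (by omega) hx
        · intro h
          exfalso
          apply h
          rw [Finset.mem_Icc]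
          omega }

theorem neg_one_pow_natAbs (j : ℤ) (n : ℕ) :
    (-1 : F) ^ (2 * (n : ℤ) - j).natAbs = (-1 : F) ^ j.natAbs := by
  rcases Int.even_or_odd j with h | h
  · have h1 : Even (2 * (n : ℤ) - j) := by
      rw [Int.even_sub]
      exact ⟨fun _ => h, fun _ => even_two_mul _⟩
    rw [(Int.natAbs_even.2 h1).neg_one_pow, (Int.natAbs_even.2 h).neg_one_pow]
  · have h1 : Odd (2 * (n : ℤ) - j) := by
      rw [Int.odd_sub]
      refine ⟨fun h2 => ?_, fun h2 => ?_⟩
      · exact absurd h2 (Int.not_odd_iff_even.2 (even_two_mul _))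
      · exact absurd h (Int.not_odd_iff_even.2 h2)
    rw [(Int.natAbs_odd.2 h1).neg_one_pow, (Int.natAbs_odd.2 h).neg_one_pow]

theorem parity_isParity {X : C} {n : ℕ} (hr : ∀ j : ℤ, j < 0 ∨ 2 * (n : ℤ) < j → Null K X j) :
    Parity (K.gr X) (parity n (cpr K X n)) := by
  intro j x hx
  unfold parity
  rw [LinearMap.sum_apply]
  by_cases hj : j < 0 ∨ 2 * (n : ℤ) < j
  · rw [null_iff.1 (hr j hj) x hx, smul_zero]
    exact Finset.sum_eq_zero fun i _ => map_zero _
  · rw [Finset.sum_eq_single (2 * (n : ℤ) - j)]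
    · rw [LinearMap.smul_apply, neg_one_pow_natAbs]
      congr 1
      exact prj_same (by rwa [show 2 * (n : ℤ) - (2 * (n : ℤ) - j) = j by ring])
    · intro i _ hi
      rw [LinearMap.smul_apply]
      have : cpr K X n i x = 0 := prj_ne (by omega) hx
      rw [this, smul_zero]
    · intro h
      exfalso
      apply h
      rw [Finset.mem_Icc]
      omega

theorem act_pow {X : C} (L : X ⟶ X) (s : ℕ) :
    (K.H.map L).hom ^ s = (K.H.map (pow L s)).hom := by
  induction s with
  | zero =>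
    rw [pow_zero]
    ext x
    exact (K.map_id_apply x).symm
  | succ s ih =>
    rw [pow_succ', ih]
    ext x
    exact (K.map_comp_apply (pow L s) L x).symm

variable [CharZero F]

theorem isCorr {X : C} {n : ℕ} (hr : ∀ j : ℤ, j < 0 ∨ 2 * (n : ℤ) < j → Null K X j)
    (ht : ∀ θ : X ⟶ X, Deg K 0 θ → RatTrace (K.gr X) (K.H.map θ).hom) :
    IsCorr n (cpr K X n) (IsAlg K X) where
  zero r := by
    refine ⟨0, (K.deg X X r).zero_mem, ?_⟩
    ext x
    exact K.map_zero_apply x
  add r f g := by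
    rintro ⟨θ, hθ, rfl⟩ ⟨η, hη, rfl⟩
    refine ⟨θ + η, (K.deg X X r).add_mem hθ hη, ?_⟩
    ext x
    exact K.map_add_apply θ η x
  smul q r f := by
    rintro ⟨θ, hθ, rfl⟩
    refine ⟨sm q θ, (K.deg X X r).smul_mem q hθ, ?_⟩
    ext x
    exact map_sm_apply q θ x
  one := by
    refine ⟨𝟙 X, K.id_mem X, ?_⟩
    ext x
    exact K.map_id_apply x
  mul r s f g := by
    rintro ⟨θ, hθ, rfl⟩ ⟨η, hη, rfl⟩
    refine ⟨η ≫ θ, K.comp_mem' hη hθ (by ring), ?_⟩
    ext x
    exact K.map_comp_apply η θ x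
  deg r f := by
    rintro ⟨θ, hθ, rfl⟩ i
    apply op_ext
    intro j x hx
    have h1 := K.map_gr hθ j x hx
    rw [Module.End.mul_apply, Module.End.mul_apply]
    by_cases hj : j = 2 * (n : ℤ) - i
    · have e1 : cpr K X n i x = x := cpr_eq.2 (hj ▸ hx)
      have e2 : cpr K X n (i + 2 * r) ((K.H.map θ).hom x) = (K.H.map θ).hom x :=
        cpr_eq.2 (by rwa [show 2 * (n : ℤ) - (i + 2 * r) = j - 2 * r by rw [hj]; ring])
      rw [e1, e2]
    · have e1 : cpr K X n i x = 0 := prj_ne hj hx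
      have e2 : cpr K X n (i + 2 * r) ((K.H.map θ).hom x) = 0 := prj_ne (by omega) h1
      rw [e1, e2, map_zero]
  rat f := by
    rintro ⟨θ, hθ, rfl⟩
    exact ht θ hθ _ (parity_isParity hr)

theorem Hard.inj {X : C} {n : ℤ} {L : X ⟶ X} (h : Hard K n L) (s : ℕ) {x : K.H.obj X}
    (hx : x ∈ K.gr X (n + s)) (h0 : (K.H.map (pow L s)).hom x = 0) : x = 0 :=
  (h s).injOn (show x ∈ homol K X (n + s) from hx)
    (show (0 : K.H.obj X) ∈ homol K X (n + s) from (K.gr X _).zero_mem)
    (h0.trans (map_zero _).symm)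

theorem Hard.surj {X : C} {n : ℤ} {L : X ⟶ X} (h : Hard K n L) (s : ℕ) {y : K.H.obj X}
    (hy : y ∈ K.gr X (n - s)) : ∃ x ∈ K.gr X (n + s), (K.H.map (pow L s)).hom x = y :=
  (h s).surjOn (show y ∈ homol K X (n - s) from hy)

theorem hardLefschetz {X : C} {n : ℕ} {L : X ⟶ X} (h : Hard K n L) :
    HardLefschetz n (cpr K X n) (K.H.map L).hom where
  inj i hi x hx h0 := by
    rw [act_pow] at h0
    have hx' := cpr_eq.1 hx
    refine h.inj (n - i) ?_ h0
    rwa [show (n : ℤ) + ((n - i : ℕ) : ℤ) = 2 * (n : ℤ) - i by push_cast [hi]; ring]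
  surj i hi y hy := by
    have hy' := cpr_eq.1 hy
    obtain ⟨x, hx, hxy⟩ := h.surj (n - i) (y := y) (by
      rwa [show (n : ℤ) - ((n - i : ℕ) : ℤ) = 2 * (n : ℤ) - (2 * (n : ℤ) - i) by
        push_cast [hi]; ring])
    refine ⟨x, cpr_eq.2 ?_, ?_⟩
    · rwa [show 2 * (n : ℤ) - i = (n : ℤ) + ((n - i : ℕ) : ℤ) by push_cast [hi]; ring]
    · rw [act_pow]
      exact hxy

/-- The variety `X` of dimension `n` with the ample class `L`. -/
noncomputable def mkVar {D : Divisors K} (Q : Classical K D) (X : C) (n : ℕ) (hn : D.dim X = n)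
    (L : X ⟶ X) (hL : Deg K 1 L) (hh : Hard K n L) : Variety.{w, w} F :=
  haveI := Q.finite X
  { dim := n
    H := K.H.obj X
    π := cpr K X n
    alg := IsAlg K X
    L := (K.H.map L).hom
    grading := isGrading fun j hj => Q.range X j (by rwa [hn])
    cycles := isCorr (fun j hj => Q.range X j (by rwa [hn])) (Q.trace X)
    L_alg := ⟨L, hL, rfl⟩
    hard := hardLefschetz hh }

end one

end Pool.Agent.SprM
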