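import Pool.Agent.SprM.ZeroB

/-!
# The square of a variety and its generic hyperplane section
-/

set_option autoImplicit false

open CategoryTheory MonoidalCategory TensorProduct
open Pool.Agent.LefCK Pool.Agent.LckM
open Pool.Agent.Helper29.CPB (IsGrading IsCorr HardLefschetz Variety SelfProduct IsKunneth
  IsCorrProduct GenericSection SectionMaps WeakLefschetz Incidence IsTensor IsTensorMap parity)

universe w v u

namespace Pool.Agent.SprM

section one

variable {C : Type u} [Category.{v} C] [Preadditive C] [Linear ℚ C]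
  [MonoidalCategory C] {F : Type w} [Field F] {K : Correspondences C F}

/-- the exterior product on the homology -/
noncomputable def kun (K : Correspondences C F) (X : C) (x y : K.H.obj X) : K.H.obj (X ⊗ X) :=
  K.kunneth X X (x ⊗ₜ[F] y)

theorem isTensor_kun (X : C) : IsTensor F (kun K X) := by
  refine ⟨(TensorProduct.mk F (K.H.obj X) (K.H.obj X)).compr₂ (K.kunneth X X).toLinearMap, ?_,
    fun x y => rfl⟩
  unfold IsTensorProduct
  rw [TensorProduct.lift_mk_compr₂]
  exact (K.kunneth X X).bijective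

theorem isKunneth_kun {X : C} {n N : ℕ} (hNn : N = 2 * n) (L : X ⟶ X) :
    IsKunneth (cpr K X n) (K.H.map L).hom (cpr K (X ⊗ X) N)
      (K.H.map (square L)).hom (kun K X) where
  tensor := isTensor_kun X
  grade := by
    intro i j x y hx hy
    have hx' : x ∈ K.gr X (2 * n - i) := cpr_eq.1 hx
    have hy' : y ∈ K.gr X (2 * n - j) := cpr_eq.1 hy
    refine cpr_eq.2 ?_
    have h := K.kunneth_gr X X _ _ x y hx' hy'
    rwa [show (2 * (n : ℤ) - i) + (2 * (n : ℤ) - j) = 2 * (N : ℤ) - (i + j) by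
      rw [hNn]; push_cast; ring] at h
  polar := by
    intro x y
    unfold kun square
    rw [K.map_add_apply, K.kunneth_map, K.kunneth_map, K.map_id_apply, K.map_id_apply]

theorem isCorrProduct_kun {D : Divisors K} (Q : Classical K D) (X : C) (n : ℕ)
    (hn : D.dim X = n) :
    IsCorrProduct (IsAlg K X) (parity n (cpr K X n)) (IsAlg K (X ⊗ X)) (kun K X) where
  prod := by
    rintro r s f g ⟨θ, hθ, rfl⟩ ⟨η, hη, rfl⟩
    exact ⟨(K.H.map (θ ⊗ₘ η)).hom, ⟨θ ⊗ₘ η, K.tensor_mem hθ hη, rfl⟩,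
      fun x y => K.kunneth_map θ η x y⟩
  contr₂ := by
    rintro r γ ⟨γ, hγ, rfl⟩
    obtain ⟨θ, θ', hθ, hθ', h⟩ := Q.contract X r γ hγ
    refine ⟨(K.H.map θ).hom, ⟨θ, hθ, rfl⟩, fun v h' hv => ?_⟩
    exact (h _ (parity_isParity fun j hj => Q.range X j (by rwa [hn])) v h').1 hv
  contr₁ := by
    rintro r γ ⟨γ, hγ, rfl⟩
    obtain ⟨θ, θ', hθ, hθ', h⟩ := Q.contract X r γ hγ
    refine ⟨(K.H.map θ').hom, ⟨θ', hθ', rfl⟩, fun v h' hv => ?_⟩
    exact (h _ (parity_isParity fun j hj => Q.range X j (by rwa [hn])) v h').2 hv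

theorem selfProduct [CharZero F] {D : Divisors K} (Q : Classical K D) (X : C) (n N : ℕ)
    (hn : D.dim X = n)
    (hN : D.dim (X ⊗ X) = N) (hNn : N = 2 * n) (L : X ⟶ X) (hL : Deg K 1 L) (hh : Hard K n L)
    (hL' : Deg K 1 (square L)) (hh' : Hard K N (square L)) :
    SelfProduct (mkVar Q X n hn L hL hh)
      (mkVar Q (X ⊗ X) N hN (square L) hL' hh') (kun K X) where
  dim := hNn
  kunneth := isKunneth_kun hNn L
  cycles := isCorrProduct_kun Q X n hn

end one

section two

variable {C : Type u} [Category.{v} C] [Preadditive C] [Linear ℚ C] [MonoidalCategory C]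
  {C' : Type u} [Category.{v} C'] [Preadditive C'] [Linear ℚ C'] [MonoidalCategory C']
  {F : Type w} [Field F] {K : Correspondences C F} {K' : Correspondences C' F}

theorem prj_H (B : BaseChange K K') (X : C) (j : ℤ) (x : K.H.obj X) :
    B.H X (prj K X j x) = prj K' (B.Φ.obj X) j (B.H X x) := by
  have h : (B.H X).toLinearMap ∘ₗ prj K X j = prj K' (B.Φ.obj X) j ∘ₗ (B.H X).toLinearMap := by
    apply op_ext
    intro i y hy
    have h1 := B.H_gr X i y hy
    rw [LinearMap.comp_apply, LinearMap.comp_apply, LinearEquiv.coe_coe]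
    by_cases hij : i = j
    · subst hij
      rw [prj_same hy, prj_same h1]
    · rw [prj_ne hij hy, prj_ne hij h1, map_zero]
  exact LinearMap.congr_fun h x

theorem H_symm_gr (B : BaseChange K K') (X : C) {j : ℤ} {y : K'.H.obj (B.Φ.obj X)}
    (hy : y ∈ K'.gr (B.Φ.obj X) j) : (B.H X).symm y ∈ K.gr X j := by
  rw [← prj_eq]
  apply (B.H X).injective
  rw [prj_H, LinearEquiv.apply_symm_apply, prj_same hy]

variable {D' : Divisors K'} {Z : C} {L : Z ⟶ Z} {d : ℤ} (P : Section K D' L d)

/-- the restriction to the section -/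
noncomputable def Section.up : K.H.obj Z →ₗ[F] K'.H.obj P.S :=
  (K'.H.map P.pull).hom ∘ₗ (P.B.H Z).toLinearMap

/-- the Gysin map -/
noncomputable def Section.dn : K'.H.obj P.S →ₗ[F] K.H.obj Z :=
  (P.B.H Z).symm.toLinearMap ∘ₗ (K'.H.map P.push).hom

theorem Section.up_gr {j : ℤ} {x : K.H.obj Z} (hx : x ∈ K.gr Z j) :
    P.up x ∈ K'.gr P.S (j - 2) := by
  have h := K'.map_gr P.pull_mem j _ (P.B.H_gr Z j x hx)
  rwa [mul_one] at h

theorem Section.dn_gr {j : ℤ} {y : K'.H.obj P.S} (hy : y ∈ K'.gr P.S j) :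
    P.dn y ∈ K.gr Z j := by
  have h := K'.map_gr P.push_mem j _ hy
  rw [mul_zero, sub_zero] at h
  exact H_symm_gr P.B Z h

theorem Section.dn_up [CharZero F] (x : K.H.obj Z) : P.dn (P.up x) = (P.m : F) • act K L x := by
  have h : act K' P.push (act K' P.pull (P.B.H Z x)) = (P.m : F) • P.B.H Z (act K L x) := by
    have h1 : (K'.H.map P.push).hom ((K'.H.map P.pull).hom (P.B.H Z x)) =
        (K'.H.map (P.pull ≫ P.push)).hom (P.B.H Z x) := (K'.map_comp_apply _ _ _).symm
    rw [act, act, h1, P.cls, map_sm_apply, P.B.H_map, Rat.cast_natCast]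
  apply (P.B.H Z).injective
  rw [map_smul, ← h]
  exact LinearEquiv.apply_symm_apply _ _

end two

end Pool.Agent.SprM
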