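import Pool.Agent.SprM.ZeroC

/-!
# The generic hyperplane section
-/

set_option autoImplicit false

open CategoryTheory MonoidalCategory TensorProduct
open Pool.Agent.LefCK Pool.Agent.LckM
open Pool.Agent.Helper29.CPB (IsGrading IsCorr HardLefschetz Variety SelfProduct IsKunneth
  IsCorrProduct GenericSection SectionMaps WeakLefschetz Incidence IsTensor IsTensorMap parity)

universe w v u

namespace Pool.Agent.SprM

section two

variable {C : Type u} [Category.{v} C] [Preadditive C] [Linear ℚ C] [MonoidalCategory C]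
  {C' : Type u} [Category.{v} C'] [Preadditive C'] [Linear ℚ C'] [MonoidalCategory C']
  {F : Type w} [Field F] {K : Correspondences C F} {K' : Correspondences C' F}

theorem pow_succ_act {X : C} (L : X ⟶ X) (s : ℕ) (x : K.H.obj X) :
    act K (pow L (s + 1)) x = act K L (act K (pow L s) x) := K.map_comp_apply (pow L s) L x

theorem pow_succ_act' {X : C} (L : X ⟶ X) (s : ℕ) (x : K.H.obj X) :
    act K (pow L (s + 1)) x = act K (pow L s) (act K L x) := by
  have h := LinearMap.congr_fun (act_pow (K := K) L (s + 1)) x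
  have h' := LinearMap.congr_fun (act_pow (K := K) L s) ((K.H.map L).hom x)
  rw [pow_succ, Module.End.mul_apply] at h
  rw [act, ← h, h']

variable {D' : Divisors K'} {Z : C} {L : Z ⟶ Z} {d : ℤ} (P : Section K D' L d) [CharZero F]

theorem Section.sectionMaps {N n : ℕ} (hN : N = n + 1) :
    SectionMaps (cpr K Z N) (K.H.map L).hom (cpr K' P.S n) 1 P.m P.up P.dn where
  up_deg := by
    intro i x
    have h : P.up ∘ₗ cpr K Z N i = cpr K' P.S n i ∘ₗ P.up := by
      apply op_ext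
      intro j y hy
      have h1 := P.up_gr hy
      rw [LinearMap.comp_apply, LinearMap.comp_apply]
      by_cases hj : j = 2 * (N : ℤ) - i
      · have e1 : cpr K Z N i y = y := cpr_eq.2 (hj ▸ hy)
        have e2 : cpr K' P.S n i (P.up y) = P.up y := cpr_eq.2 (by
          rwa [show 2 * (n : ℤ) - i = j - 2 by rw [hj, hN]; push_cast; ring])
        rw [e1, e2]
      · have e1 : cpr K Z N i y = 0 := prj_ne hj hy
        have e2 : cpr K' P.S n i (P.up y) = 0 := prj_ne (by omega) h1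
        rw [e1, e2, map_zero]
    exact LinearMap.congr_fun h x
  dn_deg := by
    intro i x
    have h : P.dn ∘ₗ cpr K' P.S n i = cpr K Z N (i + 2 * (1 : ℕ)) ∘ₗ P.dn := by
      apply op_ext
      intro j y hy
      have h1 := P.dn_gr hy
      rw [LinearMap.comp_apply, LinearMap.comp_apply]
      by_cases hj : j = 2 * (n : ℤ) - i
      · have e1 : cpr K' P.S n i y = y := cpr_eq.2 (hj ▸ hy)
        have e2 : cpr K Z N (i + 2 * (1 : ℕ)) (P.dn y) = P.dn y := cpr_eq.2 (by
          rwa [show 2 * (N : ℤ) - (i + 2 * (1 : ℕ)) = j by rw [hj, hN]; push_cast; ring])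
        rw [e1, e2]
      · have e1 : cpr K' P.S n i y = 0 := prj_ne hj hy
        have e2 : cpr K Z N (i + 2 * (1 : ℕ)) (P.dn y) = 0 := prj_ne (by omega) h1
        rw [e1, e2, map_zero]
    exact LinearMap.congr_fun h x
  dn_up := by
    intro x
    rw [pow_one, pow_one]
    exact P.dn_up x

theorem Section.m_ne : (P.m : F) ≠ 0 := Nat.cast_ne_zero.2 P.pos.ne'

theorem Section.weak {N n : ℕ} (hN : N = n + 1) (hd : d = n) (hh : Hard K N L) :
    WeakLefschetz (cpr K Z N) (cpr K' P.S n) n 1 P.up P.dn where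
  inj := by
    intro i hi x hx h0
    have hx' : x ∈ K.gr Z (2 * N - i) := cpr_eq.1 hx
    obtain ⟨s, hs⟩ : ∃ s : ℕ, (s : ℤ) + 1 = N - i := ⟨(N - i - 1).toNat, by omega⟩
    have h1 : act K L x = 0 := by
      have h2 := P.dn_up x
      rw [h0, map_zero] at h2
      exact (smul_eq_zero.1 h2.symm).resolve_left P.m_ne
    refine hh.inj (s + 1) ?_ ?_
    · rwa [show (N : ℤ) + ((s + 1 : ℕ) : ℤ) = 2 * (N : ℤ) - i by push_cast; linarith]
    · have h3 := pow_succ_act' (K := K) L s x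
      rw [h1] at h3
      exact h3.trans (map_zero _)
  onto := by
    intro i hi y hy
    have hy' : y ∈ K'.gr P.S (2 * n - i) := cpr_eq.1 hy
    obtain ⟨x, -, hx⟩ := P.surj (2 * n - i) (by omega) (show y ∈ homol K' P.S _ from hy')
    refine ⟨(P.B.H Z).symm x, ?_⟩
    change (K'.H.map P.pull).hom (P.B.H Z ((P.B.H Z).symm x)) = y
    rw [LinearEquiv.apply_symm_apply]
    exact hx
  surj := by
    intro i hi x hx
    have hx' : x ∈ K.gr Z (2 * N - (i + 2 * (1 : ℕ))) := cpr_eq.1 hx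
    obtain ⟨s, hs⟩ : ∃ s : ℕ, (s : ℤ) + 1 = i + 2 - N := ⟨(i + 2 - N - 1).toNat, by omega⟩
    obtain ⟨z, hz, hzx⟩ := hh.surj (s + 1) (y := x) (by
      rwa [show (N : ℤ) - ((s + 1 : ℕ) : ℤ) = 2 * (N : ℤ) - (i + 2 * (1 : ℕ)) by
        push_cast; linarith])
    refine ⟨(P.m : F)⁻¹ • P.up (act K (pow L s) z), ?_⟩
    rw [map_smul, P.dn_up, smul_smul, inv_mul_cancel₀ P.m_ne, one_smul, ← pow_succ_act]
    exact hzx
  mono := by
    intro i hi y hy h0
    have hy' : y ∈ K'.gr P.S (2 * n - i) := cpr_eq.1 hy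
    refine P.inj (2 * n - i) (by omega) (show y ∈ homol K' P.S _ from hy')
      (show (0 : K'.H.obj P.S) ∈ homol K' P.S _ from (K'.gr P.S _).zero_mem) ?_
    have h1 : (P.B.H Z).symm (act K' P.push y) = 0 := h0
    exact ((LinearEquiv.map_eq_zero_iff _).1 h1).trans (map_zero _).symm
  vanishing := by
    obtain ⟨e, he, h0, hne⟩ : ∃ e, Wt K' d e ∧ act K' P.push e = 0 ∧ e ≠ 0 := by
      by_contra hcon
      refine P.vanishing fun x hx y hy hxy => ?_
      by_contra hne
      refine hcon ⟨x - y, Submodule.sub_mem _ hx hy, ?_, sub_ne_zero.2 hne⟩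
      have h1 : (K'.H.map P.push).hom x = (K'.H.map P.push).hom y := hxy
      change (K'.H.map P.push).hom (x - y) = 0
      rw [map_sub, h1, sub_self]
    refine ⟨e, hne, cpr_eq.2 ?_, ?_⟩
    · rwa [show 2 * (n : ℤ) - n = d by rw [hd]; ring]
    · change (P.B.H Z).symm (act K' P.push e) = 0
      rw [h0, map_zero]

theorem Section.up_dn (γ : Z ⟶ Z) (y : K'.H.obj P.S) :
    act K' (P.push ≫ P.B.Φ.map γ ≫ P.pull) y = P.up (act K γ (P.dn y)) := by
  change (K'.H.map (P.push ≫ P.B.Φ.map γ ≫ P.pull)).hom y =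
    (K'.H.map P.pull).hom (P.B.H Z ((K.H.map γ).hom ((P.B.H Z).symm ((K'.H.map P.push).hom y))))
  rw [← P.B.H_map, LinearEquiv.apply_symm_apply, K'.map_comp_apply, K'.map_comp_apply]

theorem Section.restrict_mem {γ : Z ⟶ Z} (hγ : Deg K (-1) γ) :
    Deg K' 0 (P.push ≫ P.B.Φ.map γ ≫ P.pull) :=
  K'.comp_mem' P.push_mem (K'.comp_mem' (P.B.mem hγ) P.pull_mem rfl) (by ring)

/-- the algebraic operators on the homology of the section -/
def Section.total : AddSubgroup (Op K' P.S) where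
  carrier := {f | IsAlg K' P.S 0 f}
  zero_mem' := by
    refine ⟨0, (K'.deg P.S P.S 0).zero_mem, ?_⟩
    ext x
    exact K'.map_zero_apply x
  add_mem' := by
    rintro f g ⟨θ, hθ, rfl⟩ ⟨η, hη, rfl⟩
    refine ⟨θ + η, (K'.deg P.S P.S 0).add_mem hθ hη, ?_⟩
    ext x
    exact K'.map_add_apply θ η x
  neg_mem' := by
    rintro f ⟨θ, hθ, rfl⟩
    refine ⟨-θ, (K'.deg P.S P.S 0).neg_mem hθ, ?_⟩
    have := K'.additive
    rw [Functor.map_neg, ModuleCat.hom_neg]

/-- the multiples of the diagonal -/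
def Section.diag : AddSubgroup P.total where
  carrier := {f | ∃ c : ℚ, (f : Op K' P.S) = (c : F) • 1}
  zero_mem' := ⟨0, by rw [Rat.cast_zero, zero_smul]; rfl⟩
  add_mem' := by
    rintro f g ⟨a, ha⟩ ⟨b, hb⟩
    refine ⟨a + b, ?_⟩
    rw [Rat.cast_add, add_smul, ← ha, ← hb]
    rfl
  neg_mem' := by
    rintro f ⟨a, ha⟩
    refine ⟨-a, ?_⟩
    rw [Rat.cast_neg, neg_smul, ← ha]
    rfl

/-- the cycles on the square of the generic section -/
noncomputable def Section.incidence :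
    Incidence (IsAlg K Z (-(1 : ℕ))) (IsAlg K' P.S 0) P.up P.dn where
  Total := P.total
  fib := fun z => (z : Op K' P.S)
  fib_sub := fun z z' => rfl
  restrict := by
    rintro γ ⟨γ, hγ, rfl⟩
    exact ⟨(K'.H.map (P.push ≫ P.B.Φ.map γ ≫ P.pull)).hom, ⟨_, P.restrict_mem hγ, rfl⟩,
      fun y => P.up_dn γ y⟩
  closure := fun f hf => ⟨⟨f, hf⟩, rfl⟩
  OpenPart := P.total ⧸ P.diag
  res := QuotientAddGroup.mk' P.diag
  localisation := by
    intro z hz
    exact (QuotientAddGroup.eq_zero_iff z).1 hz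
  bundle := by
    intro u
    obtain ⟨⟨f, hf⟩, rfl⟩ := QuotientAddGroup.mk'_surjective P.diag u
    obtain ⟨θ, hθ, rfl⟩ := hf
    obtain ⟨c, γ, hγ, hc⟩ := P.self θ hθ
    refine ⟨⟨(K'.H.map (P.push ≫ P.B.Φ.map γ ≫ P.pull)).hom, ⟨_, P.restrict_mem hγ, rfl⟩⟩, ?_,
      (K.H.map γ).hom, ⟨γ, hγ, rfl⟩, fun y => P.up_dn γ y⟩
    rw [QuotientAddGroup.mk'_apply, QuotientAddGroup.mk'_apply, QuotientAddGroup.eq]
    refine ⟨c, ?_⟩
    change -(K'.H.map (P.push ≫ P.B.Φ.map γ ≫ P.pull)).hom + (K'.H.map θ).hom = (c : F) • 1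
    rw [neg_add_eq_iff_eq_add]
    ext y
    rw [LinearMap.add_apply, LinearMap.smul_apply, Module.End.one_apply]
    have h := congrArg (fun g => (K'.H.map g).hom y) hc
    simp only [K'.map_add_apply, map_sm_apply, K'.map_id_apply] at h
    rw [h, add_comm]

end two

end Pool.Agent.SprM
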